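import Pool.Agent.K4H48.Agl.Kern

/-! Membership in reproducing kernel spaces. -/

set_option autoImplicit false

namespace Pool.Agent.K4H48.Agl

open Pool.Agent.R285.Ell2 Pool.Agent.R285.BiHardy Matrix ComplexOrder
open scoped ComplexConjugate

/-- finite combinations of kernel functions -/
noncomputable def comb {ι : Type*} [Fintype ι] (z : ι → ℂ × ℂ) (x : ι → ℂ) : H2 :=
  ∑ i, x i • sz (z i)

lemma inner_comb {ι : Type*} [Fintype ι] {z : ι → ℂ × ℂ} (hz : ∀ i, z i ∈ bidisk) (x : ι → ℂ)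
    (f : H2) : inner ℂ (comb z x) f = ∑ i, conj (x i) * ev f (z i) := by
  unfold comb
  rw [sum_inner]
  refine Finset.sum_congr rfl fun i _ => ?_
  rw [inner_smul_left, inner_sz f (hz i)]

lemma inner_comb_op {ι : Type*} [Fintype ι] (z : ι → ℂ × ℂ) (x y : ι → ℂ) (Q : H2 →L[ℂ] H2) :
    inner ℂ (comb z x) (Q (comb z y)) = qf (fun z w => inner ℂ (sz z) (Q (sz w))) z x y := by
  unfold comb qf
  rw [map_sum, sum_inner]
  refine Finset.sum_congr rfl fun i _ => ?_
  rw [inner_sum]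
  refine Finset.sum_congr rfl fun j _ => ?_
  rw [map_smul, inner_smul_left, inner_smul_right]
  ring

lemma comb_norm {ι : Type*} [Fintype ι] {z : ι → ℂ × ℂ} (hz : ∀ i, z i ∈ bidisk) (x : ι → ℂ) :
    (‖comb z x‖ ^ 2 : ℝ) = (qf (fun z w => ev (sz w) z) z x x).re := by
  have h := inner_comb_op z x x (ContinuousLinearMap.id ℂ H2)
  have h2 : qf (fun z w => inner ℂ (sz z) ((ContinuousLinearMap.id ℂ H2) (sz w))) z x x =
      qf (fun z w => ev (sz w) z) z x x := by
    unfold qf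
    refine Finset.sum_congr rfl fun i _ => Finset.sum_congr rfl fun j _ => ?_
    simp only [ContinuousLinearMap.id_apply]
    rw [inner_sz _ (hz i)]
  rw [← h2, ← h]
  simp only [ContinuousLinearMap.id_apply]
  rw [inner_self_eq_norm_sq_to_K]
  norm_cast

lemma dense_comb (v : H2) {ε : ℝ} (hε : 0 < ε) : ∃ (n : ℕ) (z : Fin n → ℂ × ℂ) (x : Fin n → ℂ),
    (∀ i, z i ∈ bidisk) ∧ ‖v - comb z x‖ < ε := by
  have h1 : (Submodule.span ℂ (sz '' bidisk))ᗮ = ⊥ := by
    rw [eq_bot_iff]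
    intro f hf
    rw [Submodule.mem_orthogonal] at hf
    rw [Submodule.mem_bot]
    refine ev_inj f fun z hz => ?_
    rw [← inner_sz f hz]
    exact hf _ (Submodule.subset_span ⟨z, hz, rfl⟩)
  have h2 : (Submodule.span ℂ (sz '' bidisk)).topologicalClosure = ⊤ := by
    rw [Submodule.topologicalClosure_eq_top_iff]; exact h1
  have h3 : v ∈ closure ((Submodule.span ℂ (sz '' bidisk) : Submodule ℂ H2) : Set H2) := by
    rw [← Submodule.topologicalClosure_coe, h2]; trivial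
  obtain ⟨y, hy, hd⟩ := Metric.mem_closure_iff.1 h3 ε hε
  obtain ⟨n, c, g, hg⟩ := (Submodule.mem_span_set' (R := ℂ)).1 hy
  choose p hp hpe using fun i => (g i).2
  refine ⟨n, p, c, hp, ?_⟩
  have : comb p c = y := by
    rw [← hg]
    unfold comb
    refine Finset.sum_congr rfl fun i _ => ?_
    rw [hpe]
  rw [this, ← dist_eq_norm]
  exact hd

/-- a closed condition holding on finite combinations of kernel functions holds everywhere -/
lemma closed_all {p : H2 → Prop} (hp : IsClosed {v | p v})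
    (h : ∀ (n : ℕ) (z : Fin n → ℂ × ℂ) (x : Fin n → ℂ), (∀ i, z i ∈ bidisk) → p (comb z x))
    (v : H2) : p v := by
  have h1 : v ∈ closure {v | p v} := by
    rw [Metric.mem_closure_iff]
    intro ε hε
    obtain ⟨n, z, x, hz, hd⟩ := dense_comb v hε
    exact ⟨comb z x, h n z x hz, by rw [dist_eq_norm]; exact hd⟩
  rw [hp.closure_eq] at h1
  exact h1

lemma rank_one {ι : Type*} [Fintype ι] {z : ι → ℂ × ℂ} (hz : ∀ i, z i ∈ bidisk) (x : ι → ℂ)
    (f : H2) : qf (fun z w => ev f z * conj (ev f w)) z x x =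
      ((‖inner ℂ (comb z x) f‖ ^ 2 : ℝ) : ℂ) := by
  have h : inner ℂ (comb z x) f * conj (inner ℂ (comb z x) f) =
      ((‖inner ℂ (comb z x) f‖ ^ 2 : ℝ) : ℂ) := by
    rw [RCLike.mul_conj]
    norm_cast
  rw [← h, inner_comb hz, map_sum, Finset.sum_mul_sum]
  unfold qf
  refine Finset.sum_congr rfl fun i _ => Finset.sum_congr rfl fun j _ => ?_
  rw [map_mul, Complex.conj_conj]
  ring

lemma qf_sub {ι : Type*} [Fintype ι] (k k' : ℂ × ℂ → ℂ × ℂ → ℂ) (z : ι → ℂ × ℂ) (x y : ι → ℂ) :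
    qf (fun z w => k z w - k' z w) z x y = qf k z x y - qf k' z x y := by
  unfold qf
  rw [← Finset.sum_sub_distrib]
  refine Finset.sum_congr rfl fun i _ => ?_
  rw [← Finset.sum_sub_distrib]
  refine Finset.sum_congr rfl fun j _ => ?_
  ring

lemma qf_add {ι : Type*} [Fintype ι] (k k' : ℂ × ℂ → ℂ × ℂ → ℂ) (z : ι → ℂ × ℂ) (x y : ι → ℂ) :
    qf (fun z w => k z w + k' z w) z x y = qf k z x y + qf k' z x y := by
  unfold qf
  rw [← Finset.sum_add_distrib]
  refine Finset.sum_congr rfl fun i _ => ?_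
  rw [← Finset.sum_add_distrib]
  refine Finset.sum_congr rfl fun j _ => ?_
  ring

lemma qf_smul {ι : Type*} [Fintype ι] (c : ℂ) (k : ℂ × ℂ → ℂ × ℂ → ℂ) (z : ι → ℂ × ℂ)
    (x y : ι → ℂ) : qf (fun z w => c * k z w) z x y = c * qf k z x y := by
  unfold qf
  rw [Finset.mul_sum]
  refine Finset.sum_congr rfl fun i _ => ?_
  rw [Finset.mul_sum]
  refine Finset.sum_congr rfl fun j _ => ?_
  ring

lemma qf_congr {ι : Type*} [Fintype ι] {k k' : ℂ × ℂ → ℂ × ℂ → ℂ} {z : ι → ℂ × ℂ}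
    (hz : ∀ i, z i ∈ bidisk) (he : ∀ z ∈ bidisk, ∀ w ∈ bidisk, k z w = k' z w) (x y : ι → ℂ) :
    qf k z x y = qf k' z x y := by
  unfold qf
  refine Finset.sum_congr rfl fun i _ => Finset.sum_congr rfl fun j _ => ?_
  rw [he _ (hz i) _ (hz j)]

/-- membership criterion, first direction -/
lemma aron {Q : H2 →L[ℂ] H2} {C : ℝ} {f : H2}
    (h : PosKer fun z w => (C : ℂ) * inner ℂ (sz z) (Q (sz w)) - ev f z * conj (ev f w)) (v : H2) :
    ‖inner ℂ v f‖ ^ 2 ≤ C * (inner ℂ v (Q v)).re := by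
  refine closed_all (p := fun v => ‖inner ℂ v f‖ ^ 2 ≤ C * (inner ℂ v (Q v)).re) ?_ ?_ v
  · have h1 : Continuous fun v : H2 => ‖inner ℂ v f‖ ^ 2 := by fun_prop
    have h2 : Continuous fun v : H2 => C * (inner ℂ v (Q v)).re :=
      continuous_const.mul (Complex.continuous_re.comp (continuous_id.inner Q.continuous))
    exact isClosed_le h1 h2
  · intro n z x hz
    have h1 := (Complex.nonneg_iff.1 (h.qf_nonneg z hz x)).1
    rw [qf_sub, qf_smul, rank_one hz, ← inner_comb_op, Complex.sub_re, Complex.ofReal_re,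
      Complex.re_ofReal_mul] at h1
    linarith

/-- membership criterion, second direction -/
lemma aron_conv {Q : H2 →L[ℂ] H2} (hQ : ∀ u v : H2, inner ℂ (Q u) v = inner ℂ u (Q v)) {C : ℝ}
    {f : H2} (h : ∀ v : H2, ‖inner ℂ v f‖ ^ 2 ≤ C * (inner ℂ v (Q v)).re) :
    PosKer fun z w => (C : ℂ) * inner ℂ (sz z) (Q (sz w)) - ev f z * conj (ev f w) := by
  refine posKer_of_qf (fun z hz w hw => ?_) fun n z hz x => ?_
  · rw [map_sub, map_mul, map_mul, Complex.conj_conj, Complex.conj_ofReal, inner_conj_symm, hQ]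
    ring
  · rw [qf_sub, qf_smul, rank_one hz, ← inner_comb_op, Complex.sub_re, Complex.ofReal_re,
      Complex.re_ofReal_mul]
    linarith [h (comb z x)]

lemma posKer_op {Q : H2 →L[ℂ] H2} (hQ : ∀ u v : H2, inner ℂ (Q u) v = inner ℂ u (Q v))
    (h : ∀ v : H2, 0 ≤ (inner ℂ v (Q v)).re) :
    PosKer fun z w => inner ℂ (sz z) (Q (sz w)) := by
  have h1 := aron_conv (C := 1) (f := 0) hQ (fun v => by simpa using h v)
  refine h1.congr fun z hz w hw => ?_
  have : ∀ z : ℂ × ℂ, ev (0 : H2) z = 0 := fun z => by simp [ev]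
  rw [this, this]
  simp

/-- functions with a bound on the span of the kernel functions belong to the Hardy space -/
lemma exists_fun (g : ℂ × ℂ → ℂ) {q : ℝ} (hq : 0 ≤ q)
    (h : ∀ (ι : Type) [Fintype ι] (u : ι → ℂ × ℂ) (x : ι → ℂ), (∀ i, u i ∈ bidisk) →
      ‖∑ i, conj (x i) * g (u i)‖ ^ 2 ≤ q * ‖comb u x‖ ^ 2) :
    ∃ e : H2, (∀ z ∈ bidisk, ev e z = g z) ∧ ‖e‖ ^ 2 ≤ q := by
  classical
  let D : Type := {z : ℂ × ℂ // z ∈ bidisk}
  let A : (D →₀ ℂ) →ₗ[ℂ] H2 := Finsupp.linearCombination ℂ (fun z : D => sz z.1)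
  let B : (D →₀ ℂ) →ₗ[ℂ] ℂ := Finsupp.linearCombination ℂ (fun z : D => conj (g z.1))
  have hAB : ∀ c : D →₀ ℂ, ‖B c‖ ^ 2 ≤ q * ‖A c‖ ^ 2 := by
    intro c
    have h1 := h c.support (fun i => i.1.1) (fun i => c i.1) (fun i => i.1.2)
    have h2 : comb (fun i : c.support => i.1.1) (fun i => c i.1) = A c := by
      unfold comb
      simp only [A, Finsupp.linearCombination_apply, Finsupp.sum]
      rw [Finset.sum_coe_sort c.support (fun z : D => c z • sz z.1)]
    have h3 : ‖∑ i : c.support, conj (c i.1) * g i.1.1‖ = ‖B c‖ := by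
      simp only [B, Finsupp.linearCombination_apply, Finsupp.sum, smul_eq_mul]
      rw [← RCLike.norm_conj, map_sum, Finset.sum_coe_sort c.support
        (fun z : D => conj (conj (c z) * g z.1))]
      congr 1
      refine Finset.sum_congr rfl fun i _ => ?_
      rw [map_mul, Complex.conj_conj]
    rw [h2, h3] at h1
    exact h1
  obtain ⟨σ, hσ⟩ := A.rangeRestrict.exists_rightInverse_of_surjective A.range_rangeRestrict
  have hσ' : ∀ y : LinearMap.range A, A (σ y) = y := by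
    intro y
    have := LinearMap.congr_fun hσ y
    exact congrArg Subtype.val this
  let l : LinearMap.range A →ₗ[ℂ] ℂ := B ∘ₗ σ
  have hl : ∀ y, ‖l y‖ ≤ √q * ‖y‖ := by
    intro y
    have h1 := hAB (σ y)
    rw [hσ'] at h1
    have h2 : ‖l y‖ ^ 2 ≤ (√q * ‖y‖) ^ 2 := by
      rw [mul_pow, Real.sq_sqrt hq]; exact h1
    exact (sq_le_sq₀ (norm_nonneg _) (by positivity)).1 h2
  obtain ⟨L, hL1, hL2⟩ := exists_extension_norm_eq (LinearMap.range A) (l.mkContinuous (√q) hl)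
  refine ⟨(InnerProductSpace.toDual ℂ H2).symm L, fun z hz => ?_, ?_⟩
  · have h1 : inner ℂ ((InnerProductSpace.toDual ℂ H2).symm L) (sz z) = L (sz z) :=
      InnerProductSpace.toDual_symm_apply
    rw [inner_sz' _ hz] at h1
    have h2 : A (Finsupp.single (⟨z, hz⟩ : D) 1) = sz z := by simp [A]
    have h3 : B (Finsupp.single (⟨z, hz⟩ : D) 1) = conj (g z) := by simp [B]
    have hmem : sz z ∈ LinearMap.range A := ⟨_, h2⟩
    have h4 : L (sz z) = B (σ ⟨sz z, hmem⟩) := hL1 ⟨sz z, hmem⟩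
    have h5 := hAB (σ ⟨sz z, hmem⟩ - Finsupp.single (⟨z, hz⟩ : D) 1)
    rw [map_sub, map_sub, hσ', h2, h3, ← h4] at h5
    simp only [sub_self, norm_zero] at h5
    have h6 : L (sz z) - conj (g z) = 0 := by
      rw [← norm_eq_zero]
      nlinarith [norm_nonneg (L (sz z) - conj (g z))]
    rw [sub_eq_zero] at h6
    rw [h6] at h1
    have := congrArg conj h1
    rwa [Complex.conj_conj, Complex.conj_conj] at this
  · rw [LinearIsometryEquiv.norm_map, hL2]
    have h1 : ‖l.mkContinuous (√q) hl‖ ≤ √q := l.mkContinuous_norm_le (Real.sqrt_nonneg _) hl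
    calc ‖l.mkContinuous (√q) hl‖ ^ 2 ≤ √q ^ 2 := by gcongr
      _ = q := Real.sq_sqrt hq

/-- the functions `∑ c j * k (·, w j)` belong to the Hardy space if `k` is dominated by the Szegő
kernel -/
lemma exists_ker {k : ℂ × ℂ → ℂ × ℂ → ℂ} (hk : PosKer k)
    (hs : PosKer fun z w => ev (sz w) z - k z w) {n : ℕ} {w : Fin n → ℂ × ℂ}
    (hw : ∀ i, w i ∈ bidisk) (c : Fin n → ℂ) :
    ∃ e : H2, (∀ z ∈ bidisk, ev e z = ∑ j, k z (w j) * c j) ∧ ‖e‖ ^ 2 ≤ (qf k w c c).re ∧
      ∀ (ι : Type) [Fintype ι] (u : ι → ℂ × ℂ) (x : ι → ℂ), (∀ i, u i ∈ bidisk) →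
      ‖inner ℂ (comb u x) e‖ ^ 2 ≤ (qf k w c c).re * (qf k u x x).re := by
  have hq : 0 ≤ (qf k w c c).re := (Complex.nonneg_iff.1 (hk.qf_nonneg w hw c)).1
  have key : ∀ (ι : Type) [Fintype ι] (u : ι → ℂ × ℂ) (x : ι → ℂ), (∀ i, u i ∈ bidisk) →
      ‖∑ i, conj (x i) * ∑ j, k (u i) (w j) * c j‖ ^ 2 ≤ (qf k w c c).re * (qf k u x x).re := by
    intro ι _ u x hu
    have h1 := hk.cs (Sum.elim u w) (fun i => by
      rcases i with i | i
      · exact hu i
      · exact hw i) (Sum.elim x 0) (Sum.elim 0 c)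
    have e1 : qf k (Sum.elim u w) (Sum.elim x 0) (Sum.elim 0 c) =
        ∑ i, conj (x i) * ∑ j, k (u i) (w j) * c j := by
      unfold qf
      simp only [Fintype.sum_sum_type, Sum.elim_inl, Sum.elim_inr, Pi.zero_apply, map_zero,
        zero_mul, mul_zero, Finset.sum_const_zero, zero_add, add_zero]
      refine Finset.sum_congr rfl fun i _ => ?_
      rw [Finset.mul_sum]
      refine Finset.sum_congr rfl fun j _ => ?_
      ring
    have e2 : qf k (Sum.elim u w) (Sum.elim x 0) (Sum.elim x 0) = qf k u x x := by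
      unfold qf
      simp only [Fintype.sum_sum_type, Sum.elim_inl, Sum.elim_inr, Pi.zero_apply, map_zero,
        zero_mul, mul_zero, Finset.sum_const_zero, add_zero]
    have e3 : qf k (Sum.elim u w) (Sum.elim 0 c) (Sum.elim 0 c) = qf k w c c := by
      unfold qf
      simp only [Fintype.sum_sum_type, Sum.elim_inl, Sum.elim_inr, Pi.zero_apply, map_zero,
        zero_mul, mul_zero, Finset.sum_const_zero, zero_add]
    rw [e1, e2, e3] at h1
    linarith
  obtain ⟨e, he1, he2⟩ := exists_fun (fun z => ∑ j, k z (w j) * c j) hq (by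
    intro ι _ u x hu
    refine (key ι u x hu).trans ?_
    have h1 := (Complex.nonneg_iff.1 (hs.qf_nonneg u hu x)).1
    rw [qf_sub, Complex.sub_re] at h1
    rw [comb_norm hu]
    exact mul_le_mul_of_nonneg_left (by linarith) hq)
  refine ⟨e, he1, he2, fun ι _ u x hu => ?_⟩
  rw [inner_comb hu]
  have : ∀ i, ev e (u i) = ∑ j, k (u i) (w j) * c j := fun i => he1 _ (hu i)
  simp only [this]
  exact key ι u x hu

end Pool.Agent.K4H48.Agl
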