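import Mathlib

/-! Definitions for the characterisation of inner functions on the bidisk with reducing Agler
subspaces. Elements of the Hardy space of the bidisk are represented by their square summable
arrays of power series coefficients. -/

set_option autoImplicit false

namespace Pool.Agent.K4H48.AglS

open Filter Topology
open scoped ComplexConjugate ComplexOrder

/-- the open unit bidisk -/
def D2 : Set (ℂ × ℂ) := {z | ‖z.1‖ < 1 ∧ ‖z.2‖ < 1}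

/-- inner functions on the open unit disc: bounded, holomorphic, and the modulus tends to `1` along
almost every radius -/
def IsInnerDisc (φ : ℂ → ℂ) : Prop :=
  DifferentiableOn ℂ φ (Metric.ball 0 1) ∧ (∃ C : ℝ, ∀ z ∈ Metric.ball (0 : ℂ) 1, ‖φ z‖ ≤ C) ∧
  ∀ᵐ s : ℝ, Tendsto (fun r : ℝ => ‖φ (r * Complex.exp (Complex.I * s))‖) (𝓝[<] 1) (𝓝 1)

/-- inner functions on the open unit bidisk -/
def IsInnerBidisk (θ : ℂ × ℂ → ℂ) : Prop :=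
  DifferentiableOn ℂ θ D2 ∧ (∃ C : ℝ, ∀ z ∈ D2, ‖θ z‖ ≤ C) ∧
  ∀ᵐ p : ℝ × ℝ, Tendsto (fun r : ℝ =>
    ‖θ (r * Complex.exp (Complex.I * p.1), r * Complex.exp (Complex.I * p.2))‖) (𝓝[<] 1) (𝓝 1)

/-- `θ` is a product of two one-variable inner functions -/
def IsProduct (θ : ℂ × ℂ → ℂ) : Prop :=
  ∃ φ ψ : ℂ → ℂ, IsInnerDisc φ ∧ IsInnerDisc ψ ∧ ∀ z ∈ D2, θ z = φ z.1 * ψ z.2

/-- positive kernels on the bidisk -/
def PosKernel (k : ℂ × ℂ → ℂ × ℂ → ℂ) : Prop :=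
  ∀ (n : ℕ) (z : Fin n → ℂ × ℂ), (∀ i, z i ∈ D2) →
    (Matrix.of fun i j => k (z i) (z j)).PosSemidef

/-- `(K₁, K₂)` is a pair of Agler kernels of `θ` -/
def IsAglerPair (θ : ℂ × ℂ → ℂ) (K1 K2 : ℂ × ℂ → ℂ × ℂ → ℂ) : Prop :=
  PosKernel K1 ∧ PosKernel K2 ∧ ∀ z ∈ D2, ∀ w ∈ D2,
    1 - θ z * conj (θ w) = (1 - z.1 * conj w.1) * K2 z w + (1 - z.2 * conj w.2) * K1 z w

/-- `g` belongs to the reproducing kernel Hilbert space of the positive kernel `k` -/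
def InRKHS (k : ℂ × ℂ → ℂ × ℂ → ℂ) (g : ℂ × ℂ → ℂ) : Prop :=
  ∃ C : ℝ, 0 ≤ C ∧ PosKernel fun z w => (C : ℂ) * k z w - g z * conj (g w)

/-- coefficient arrays of the elements of `H²` -/
def IsH2 (a : ℕ × ℕ → ℂ) : Prop := Summable fun n => ‖a n‖ ^ 2

/-- the function on the bidisk with coefficients `a` -/
noncomputable def fn (a : ℕ × ℕ → ℂ) (z : ℂ × ℂ) : ℂ :=
  ∑' n : ℕ × ℕ, a n * (z.1 ^ n.1 * z.2 ^ n.2)

/-- the inner product of `H²` -/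
noncomputable def ip (a b : ℕ × ℕ → ℂ) : ℂ := ∑' n : ℕ × ℕ, conj (a n) * b n

/-- coefficients of `z₁ f` (for `j = 0`) and of `z₂ f` (for `j = 1`) -/
def mz (j : Fin 2) (a : ℕ × ℕ → ℂ) (n : ℕ × ℕ) : ℂ :=
  if j = 0 then (if n.1 = 0 then 0 else a (n.1 - 1, n.2))
  else (if n.2 = 0 then 0 else a (n.1, n.2 - 1))

/-- the model space `K_θ = H² ⊖ θ H²` -/
def InK (θ : ℂ × ℂ → ℂ) (a : ℕ × ℕ → ℂ) : Prop :=
  IsH2 a ∧ ∀ b c, IsH2 b → IsH2 c → (∀ z ∈ D2, fn c z = θ z * fn b z) → ip c a = 0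

/-- `b = S_{z_j} a`: `b` is the orthogonal projection of `z_j a` to `K_θ` -/
def IsShift (θ : ℂ × ℂ → ℂ) (j : Fin 2) (a b : ℕ × ℕ → ℂ) : Prop :=
  InK θ b ∧ ∀ c, InK θ c → ip c b = ip c (mz j a)

/-- `b` is the image of `a` under the adjoint of `S_{z_j}` -/
def IsAdjShift (θ : ℂ × ℂ → ℂ) (j : Fin 2) (a b : ℕ × ℕ → ℂ) : Prop :=
  InK θ b ∧ ∀ c, InK θ c → ∃ d, IsShift θ j c d ∧ ip c b = ip d a

/-- the first Agler subspace: the elements of `K_θ` in the reproducing kernel Hilbert space of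
`K₁(z,w) / (1 - z₁ w̄₁)` -/
def InS1 (θ : ℂ × ℂ → ℂ) (K1 : ℂ × ℂ → ℂ × ℂ → ℂ) (a : ℕ × ℕ → ℂ) : Prop :=
  InK θ a ∧ InRKHS (fun z w => K1 z w / (1 - z.1 * conj w.1)) (fn a)

/-- the second Agler subspace: the elements of `K_θ` in the reproducing kernel Hilbert space of
`K₂(z,w) / (1 - z₂ w̄₂)` -/
def InS2 (θ : ℂ × ℂ → ℂ) (K2 : ℂ × ℂ → ℂ × ℂ → ℂ) (a : ℕ × ℕ → ℂ) : Prop :=
  InK θ a ∧ InRKHS (fun z w => K2 z w / (1 - z.2 * conj w.2)) (fn a)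

/-- the set `S` is invariant under `S_{z_j}` and its adjoint -/
def Reduces (θ : ℂ × ℂ → ℂ) (j : Fin 2) (S : (ℕ × ℕ → ℂ) → Prop) : Prop :=
  ∀ a, S a → (∃ b, S b ∧ IsShift θ j a b) ∧ ∃ b, S b ∧ IsAdjShift θ j a b

/-- `S_{z_j}` has reducing Agler subspaces -/
def HasReducing (θ : ℂ × ℂ → ℂ) (j : Fin 2) : Prop :=
  ∃ K1 K2, IsAglerPair θ K1 K2 ∧ Reduces θ j (InS1 θ K1) ∧ Reduces θ j (InS2 θ K2)

/-- `S_{z_j}` has reducing Agler subspaces which come from kernels holomorphic in the first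
argument and which form an orthogonal decomposition of `K_θ` (so they are closed) -/
def HasReducingOrth (θ : ℂ × ℂ → ℂ) (j : Fin 2) : Prop :=
  ∃ K1 K2, IsAglerPair θ K1 K2 ∧
    (∀ w ∈ D2, DifferentiableOn ℂ (fun z => K1 z w) D2) ∧
    (∀ w ∈ D2, DifferentiableOn ℂ (fun z => K2 z w) D2) ∧
    (∀ a b, InS1 θ K1 a → InS2 θ K2 b → ip a b = 0) ∧
    (∀ a, InK θ a → ∃ b c, InS1 θ K1 b ∧ InS2 θ K2 c ∧ a = b + c) ∧
    Reduces θ j (InS1 θ K1) ∧ Reduces θ j (InS2 θ K2)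

end Pool.Agent.K4H48.AglS
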