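import Pool.Agent.K4H48.Agl.If
import Pool.Agent.K4H48.Agl.Stmt

/-! From coefficient arrays to the Hilbert space. -/

set_option autoImplicit false

namespace Pool.Agent.K4H48.Agl

open Pool.Agent.R285.Ell2 Pool.Agent.R285.BiHardy Filter Topology MeasureTheory
open scoped ComplexConjugate

lemma D2_eq : AglS.D2 = bidisk := rfl

lemma isInner_iff (θ : ℂ × ℂ → ℂ) : AglS.IsInnerBidisk θ ↔ IsInner2 θ := Iff.rfl

lemma isProduct_iff (θ : ℂ × ℂ → ℂ) : AglS.IsProduct θ ↔ IsProd θ := Iff.rfl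

lemma posKernel_iff (k : ℂ × ℂ → ℂ × ℂ → ℂ) : AglS.PosKernel k ↔ PosKer k := Iff.rfl

lemma aglerPair_iff (θ : ℂ × ℂ → ℂ) (K1 K2 : ℂ × ℂ → ℂ × ℂ → ℂ) :
    AglS.IsAglerPair θ K1 K2 ↔ IsAgler θ K1 K2 := Iff.rfl

lemma inRKHS_iff (k : ℂ × ℂ → ℂ × ℂ → ℂ) (g : ℂ × ℂ → ℂ) : AglS.InRKHS k g ↔ InRK k g := Iff.rfl

lemma isH2_coe (f : H2) : AglS.IsH2 fun n => f n := summable_sq f

lemma fn_coe (f : H2) : AglS.fn (fun n => f n) = ev f := rfl

lemma ip_coe (f g : H2) : AglS.ip (fun n => f n) (fun n => g n) = inner ℂ f g := by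
  rw [inner_eq, AglS.ip]
  exact tsum_congr fun n => mul_comm _ _

/-- the shifts -/
noncomputable def ZZ (j : Fin 2) : H2 →L[ℂ] H2 := ![Z1, Z2] j

lemma mz_coe (j : Fin 2) (f : H2) : AglS.mz j (fun n => f n) = fun n => ZZ j f n := by
  funext n
  rcases Fin.exists_fin_two.1 ⟨j, rfl⟩ with hj | hj
  · subst hj
    change AglS.mz 0 (fun n => f n) n = Z1 f n
    unfold AglS.mz
    rw [if_pos rfl]
    split_ifs with h
    · rw [Z1_zero _ h]
    · obtain ⟨m, rfl⟩ := (range_e1 n).2 h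
      rw [Z1_e1]
      simp [e1]
  · subst hj
    change AglS.mz 1 (fun n => f n) n = Z2 f n
    unfold AglS.mz
    rw [if_neg (by decide)]
    split_ifs with h
    · rw [Z2_zero _ h]
    · obtain ⟨m, rfl⟩ := (range_e2 n).2 h
      rw [Z2_e2]
      simp [e2]

lemma exists_coe {a : ℕ × ℕ → ℂ} (ha : AglS.IsH2 a) : ∃ f : H2, a = fun n => f n := by
  obtain ⟨f, hf⟩ := exists_mk a ha
  exact ⟨f, funext fun n => (hf n).symm⟩

lemma coe_inj {f g : H2} (h : (fun n => f n : ℕ × ℕ → ℂ) = fun n => g n) : f = g :=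
  lp.ext h

variable {θ : ℂ × ℂ → ℂ} {M : H2 →L[ℂ] H2}

lemma inK_coe (hM : MulOp θ M) (f : H2) : AglS.InK θ (fun n => f n) ↔ M.adjoint f = 0 := by
  rw [← mem_Kth hM, Kth, Submodule.mem_orthogonal]
  constructor
  · rintro ⟨-, h⟩ u ⟨g, hg⟩
    rw [← ip_coe]
    exact h _ _ (isH2_coe g) (isH2_coe u) hg
  · intro h
    refine ⟨isH2_coe f, fun b c hb hc hbc => ?_⟩
    obtain ⟨g, rfl⟩ := exists_coe hb
    obtain ⟨u, rfl⟩ := exists_coe hc
    rw [ip_coe]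
    exact h u ⟨g, hbc⟩

lemma shift_coe (hM : MulOp θ M) (j : Fin 2) {f g : H2} :
    AglS.IsShift θ j (fun n => f n) (fun n => g n) ↔ g = PM M (ZZ j f) := by
  unfold AglS.IsShift
  rw [inK_coe hM, mz_coe]
  constructor
  · rintro ⟨h1, h2⟩
    have h3 : M.adjoint (g - PM M (ZZ j f)) = 0 := by
      rw [map_sub, h1, hM.adj_PM, sub_zero]
    have h4 := h2 _ ((inK_coe hM _).2 h3)
    rw [ip_coe, ip_coe] at h4
    have h5 : (inner ℂ (g - PM M (ZZ j f)) (g - PM M (ZZ j f)) : ℂ) = 0 := by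
      rw [inner_sub_right, ← PM_symm, PM_fix h3, h4, sub_self]
    exact sub_eq_zero.1 (inner_self_eq_zero.1 h5)
  · rintro rfl
    refine ⟨hM.adj_PM _, fun c hc => ?_⟩
    obtain ⟨u, rfl⟩ := exists_coe hc.1
    rw [ip_coe, ip_coe, ← PM_symm, PM_fix ((inK_coe hM u).1 hc)]

lemma ZZ_adj (hM : MulOp θ M) (j : Fin 2) (f : H2) :
    M.adjoint ((ZZ j).adjoint f) = (ZZ j).adjoint (M.adjoint f) := by
  rcases Fin.exists_fin_two.1 ⟨j, rfl⟩ with hj | hj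
  · subst hj; exact hM.comm1_adj f
  · subst hj; exact hM.comm2_adj f

lemma adj_coe (hM : MulOp θ M) (j : Fin 2) {f g : H2} (hf : M.adjoint f = 0) :
    AglS.IsAdjShift θ j (fun n => f n) (fun n => g n) ↔ g = (ZZ j).adjoint f := by
  unfold AglS.IsAdjShift
  rw [inK_coe hM]
  constructor
  · rintro ⟨h1, h2⟩
    have h3 : M.adjoint (g - (ZZ j).adjoint f) = 0 := by
      rw [map_sub, h1, ZZ_adj hM, hf, map_zero, sub_zero]
    obtain ⟨d, hd, h4⟩ := h2 _ ((inK_coe hM _).2 h3)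
    obtain ⟨u, rfl⟩ := exists_coe hd.1.1
    rw [shift_coe hM] at hd
    rw [ip_coe, ip_coe, hd, PM_inner hf, ← ContinuousLinearMap.adjoint_inner_right] at h4
    have h5 : (inner ℂ (g - (ZZ j).adjoint f) (g - (ZZ j).adjoint f) : ℂ) = 0 := by
      rw [inner_sub_right, h4, sub_self]
    exact sub_eq_zero.1 (inner_self_eq_zero.1 h5)
  · rintro rfl
    refine ⟨by rw [ZZ_adj hM, hf, map_zero], fun c hc => ?_⟩
    obtain ⟨u, rfl⟩ := exists_coe hc.1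
    refine ⟨fun n => PM M (ZZ j u) n, (shift_coe hM j).2 rfl, ?_⟩
    rw [ip_coe, ip_coe, PM_inner hf, ContinuousLinearMap.adjoint_inner_right]

lemma inS1_coe (hM : MulOp θ M) (K1 : ℂ × ℂ → ℂ × ℂ → ℂ) (f : H2) :
    AglS.InS1 θ K1 (fun n => f n) ↔ M.adjoint f = 0 ∧ InRK (ker1 K1) (ev f) :=
  and_congr (inK_coe hM f) Iff.rfl

lemma inS2_coe (hM : MulOp θ M) (K2 : ℂ × ℂ → ℂ × ℂ → ℂ) (f : H2) :
    AglS.InS2 θ K2 (fun n => f n) ↔ M.adjoint f = 0 ∧ InRK (ker2 K2) (ev f) :=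
  and_congr (inK_coe hM f) Iff.rfl

/-- the only-if part for coefficient arrays -/
theorem only_if' (hθ : IsInner2 θ) {j : Fin 2} (h : AglS.HasReducing θ j) : IsProd θ := by
  obtain ⟨M, m1, m2⟩ := exists_mul hθ
  have hM : MulOp θ M := ⟨m1, m2⟩
  obtain ⟨K1, K2, hA, i1, i2⟩ := h
  rcases Fin.exists_fin_two.1 ⟨j, rfl⟩ with hj | hj
  · subst hj
    refine core hθ hA fun f hf => ?_
    have hf0 : M.adjoint f = 0 := inRK_mem hM hA hf
    obtain ⟨-, b, hb, hab⟩ := i1 (fun n => f n) ((inS1_coe hM K1 f).2 ⟨hf0, hf⟩)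
    obtain ⟨g, rfl⟩ := exists_coe hb.1.1
    rw [adj_coe hM 0 hf0] at hab
    have h1 := ((inS1_coe hM K1 g).1 hb).2
    rw [hab] at h1
    exact h1
  · subst hj
    refine core2 hθ hA fun f hf => ?_
    have hf0 : M.adjoint f = 0 := inRK_mem2 hM hA hf
    obtain ⟨-, b, hb, hab⟩ := i2 (fun n => f n) ((inS2_coe hM K2 f).2 ⟨hf0, hf⟩)
    obtain ⟨g, rfl⟩ := exists_coe hb.1.1
    rw [adj_coe hM 1 hf0] at hab
    have h1 := ((inS2_coe hM K2 g).1 hb).2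
    rw [hab] at h1
    exact h1

/-- the if part for coefficient arrays -/
theorem if_part' (hθ : IsInner2 θ) (hp : IsProd θ) : AglS.HasReducingOrth θ 0 := by
  obtain ⟨φ, ψ, hφ, hψ, hfac⟩ := hp
  obtain ⟨M, m1, m2⟩ := exists_mul hθ
  obtain ⟨N, n1, n2⟩ := exists_mul (inner1_snd hψ)
  obtain ⟨L, l1, l2⟩ := exists_mul (inner1_fst hφ)
  have hM : MulOp θ M := ⟨m1, m2⟩
  have hN : MulOp (fun z => ψ z.2) N := ⟨n1, n2⟩
  have hL : MulOp (fun z => φ z.1) L := ⟨l1, l2⟩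
  have hMN : ∀ f : H2, N.adjoint f = 0 → M.adjoint f = 0 := fun f h => by
    rw [M_adj hM hN hL hfac, h, map_zero]
  have e1 : ∀ f : H2, AglS.InS1 θ (kA ψ) (fun n => f n) ↔ N.adjoint f = 0 := by
    intro f
    rw [inS1_coe hM, memA hN]
    exact ⟨fun h => h.2, fun h => ⟨hMN f h, h⟩⟩
  have e2 : ∀ f : H2, AglS.InS2 θ (kB φ ψ) (fun n => f n) ↔ M.adjoint f = 0 ∧ PM N f = 0 := by
    intro f
    rw [inS2_coe hM, memB hM hN hL hfac]
    exact ⟨fun h => h.2, fun h => ⟨h.1, h⟩⟩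
  have hψd : DifferentiableOn ℂ (fun z : ℂ × ℂ => ψ z.2) bidisk := (inner1_snd hψ).1
  have hφd : DifferentiableOn ℂ (fun z : ℂ × ℂ => φ z.1) bidisk := (inner1_fst hφ).1
  refine ⟨kA ψ, kB φ ψ, agler_prod hN hL hfac, ?_, ?_, ?_, ?_, ?_, ?_⟩
  · intro w hw
    have d1 : DifferentiableOn ℂ (fun z : ℂ × ℂ => 1 - ψ z.2 * conj (ψ w.2)) bidisk :=
      (differentiableOn_const _).sub (hψd.mul_const _)
    have d2 : DifferentiableOn ℂ (fun z : ℂ × ℂ => 1 - z.2 * conj w.2) bidisk :=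
      (differentiableOn_const _).sub (differentiable_snd.differentiableOn.mul_const _)
    exact (d1.mul (d2.inv fun z hz => one_sub_ne hz.2 hw.2)).congr fun z _ => div_eq_mul_inv _ _
  · intro w hw
    have d1 : DifferentiableOn ℂ (fun z : ℂ × ℂ => 1 - φ z.1 * conj (φ w.1)) bidisk :=
      (differentiableOn_const _).sub (hφd.mul_const _)
    have d2 : DifferentiableOn ℂ (fun z : ℂ × ℂ => 1 - z.1 * conj w.1) bidisk :=
      (differentiableOn_const _).sub (differentiable_fst.differentiableOn.mul_const _)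
    have d3 : DifferentiableOn ℂ (fun z : ℂ × ℂ =>
        (1 - φ z.1 * conj (φ w.1)) / (1 - z.1 * conj w.1)) bidisk :=
      (d1.mul (d2.inv fun z hz => one_sub_ne hz.1 hw.1)).congr fun z _ => div_eq_mul_inv _ _
    exact (hψd.mul d3).mul_const _
  · intro a b ha hb
    obtain ⟨f, rfl⟩ := exists_coe ha.1.1
    obtain ⟨g, rfl⟩ := exists_coe hb.1.1
    rw [e1] at ha
    rw [e2] at hb
    rw [ip_coe, ← PM_fix ha, PM_symm, hb.2, inner_zero_right]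
  · intro a ha
    obtain ⟨f, rfl⟩ := exists_coe ha.1
    rw [inK_coe hM] at ha
    refine ⟨fun n => PM N f n, fun n => (f - PM N f) n, (e1 _).2 (hN.adj_PM f), (e2 _).2 ⟨?_, ?_⟩, ?_⟩
    · rw [map_sub, ha, hMN _ (hN.adj_PM f), sub_zero]
    · rw [map_sub, PM_fix (hN.adj_PM f), sub_self]
    · funext n
      rw [Pi.add_apply, lp.coeFn_sub, Pi.sub_apply]
      ring
  · intro a ha
    obtain ⟨f, rfl⟩ := exists_coe ha.1.1
    have hf : N.adjoint f = 0 := (e1 f).1 ha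
    have h1 : N.adjoint (Z1 f) = 0 := by rw [dcomm' hN, hf, map_zero]
    refine ⟨⟨fun n => PM M (Z1 f) n, (e1 _).2 ?_, (shift_coe hM 0).2 rfl⟩,
      ⟨fun n => Z1.adjoint f n, (e1 _).2 ?_, (adj_coe hM 0 (hMN f hf)).2 rfl⟩⟩
    · rw [PM_fix (hMN _ h1), h1]
    · rw [hN.comm1_adj, hf, map_zero]
  · intro a ha
    obtain ⟨f, rfl⟩ := exists_coe ha.1.1
    obtain ⟨hf1, hf2⟩ := (e2 f).1 ha
    refine ⟨⟨fun n => PM M (Z1 f) n, (e2 _).2 ⟨hM.adj_PM _, ?_⟩, (shift_coe hM 0).2 rfl⟩,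
      ⟨fun n => Z1.adjoint f n, (e2 _).2 ⟨?_, ?_⟩, (adj_coe hM 0 hf1).2 rfl⟩⟩
    · rw [PNPM hM hN hL hfac, PM_apply, dcomm' hN, hN.comm1, ← map_sub, ← PM_apply, hf2, map_zero]
    · rw [hM.comm1_adj, hf1, map_zero]
    · rw [PM_apply, hN.comm1_adj, dcomm hN, ← map_sub, ← PM_apply, hf2, map_zero]

/-- the characterisation -/
theorem agler_char' (θ : ℂ × ℂ → ℂ) (hθ : AglS.IsInnerBidisk θ) :
    List.TFAE [AglS.HasReducing θ 0 ∨ AglS.HasReducing θ 1,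
      AglS.HasReducingOrth θ 0 ∨ AglS.HasReducingOrth θ 1, AglS.IsProduct θ] := by
  have weak : ∀ j, AglS.HasReducingOrth θ j → AglS.HasReducing θ j := by
    rintro j ⟨K1, K2, hA, -, -, -, -, i1, i2⟩
    exact ⟨K1, K2, hA, i1, i2⟩
  tfae_have 1 → 3 := by
    rintro (h | h) <;> exact only_if' hθ h
  tfae_have 3 → 2 := fun h => Or.inl (if_part' hθ h)
  tfae_have 2 → 1 := by
    rintro (h | h)
    · exact Or.inl (weak _ h)
    · exact Or.inr (weak _ h)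
  tfae_finish

end Pool.Agent.K4H48.Agl
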