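import Pool.Agent.K4H48.Agl.Fac

/-! Reducing Agler subspaces force the inner function to be a product. -/

set_option autoImplicit false

namespace Pool.Agent.K4H48.Agl

open Pool.Agent.R285.Ell2 Pool.Agent.R285.BiHardy Filter Topology MeasureTheory
open scoped ComplexConjugate

lemma szin_ne {v v' : ℂ} (hv : ‖v‖ < 1) (hv' : ‖v'‖ < 1) :
    (inner ℂ (sz (0, v')) (sz (0, v)) : ℂ) ≠ 0 := by
  rw [inner_sz _ (mem0 hv')]
  intro h
  have h1 := ev_sz (mem0 hv') (mem0 hv)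
  rw [h] at h1
  simp at h1

lemma Z1_pow_norm (k : ℕ) (f : H2) : ‖(Z1 ^ k) f‖ = ‖f‖ := by
  induction k with
  | zero => simp
  | succ k ih => rw [pow_succ', mul_apply_eq_comp, Z1_norm_eq, ih]

lemma double_sum {θ : ℂ × ℂ → ℂ} {M : H2 →L[ℂ] H2} (hM : MulOp θ M) {v v' : ℂ} (hv : ‖v‖ < 1)
    (hv' : ‖v'‖ < 1) (l m : ℕ) :
    (inner ℂ ((Z1 ^ (m + l)) (sz (0, v'))) (M (M.adjoint ((Z1 ^ m) (sz (0, v))))) : ℂ) =
      (inner ℂ (sz (0, v')) (sz (0, v)) : ℂ) * ∑ i ∈ Finset.range (m + 1),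
        tc (M (E 0)) v' (i + l) * conj (tc (M (E 0)) v i) := by
  rw [← ContinuousLinearMap.adjoint_inner_left, adj_pow_sz0 hM hv, adj_pow_sz0 hM hv', inner_sum,
    Finset.mul_sum]
  refine Finset.sum_congr rfl fun i hi => ?_
  rw [Finset.mem_range] at hi
  rw [sum_inner, Finset.sum_eq_single (i + l)]
  · rw [inner_smul_left, inner_smul_right, shift_orth (Z1a_sz0 hv') (Z1a_sz0 hv),
      if_pos (by omega), Complex.conj_conj]
    ring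
  · intro j hj hji
    rw [Finset.mem_range] at hj
    rw [inner_smul_left, inner_smul_right, shift_orth (Z1a_sz0 hv') (Z1a_sz0 hv),
      if_neg (by omega), mul_zero, mul_zero]
  · intro h
    exact absurd (Finset.mem_range.2 (by omega)) h

lemma Z1a_pow_apply (l : ℕ) (f : H2) (n : ℕ × ℕ) : (Z1.adjoint ^ l) f n = f (n.1 + l, n.2) := by
  induction l generalizing n with
  | zero => simp
  | succ l ih =>
    rw [pow_succ', mul_apply_eq_comp, Z1_adj, ih]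
    have h1 : ((e1 n).1 + l, (e1 n).2) = (n.1 + (l + 1), n.2) :=
      Prod.ext (by simp only [e1]; omega) rfl
    rw [h1]

lemma Z1_pow_adj (l : ℕ) (f g : H2) :
    (inner ℂ ((Z1 ^ l) f) g : ℂ) = inner ℂ f ((Z1.adjoint ^ l) g) := by
  induction l generalizing f with
  | zero => simp
  | succ l ih =>
    rw [pow_succ, mul_apply_eq_comp, ih, pow_succ', mul_apply_eq_comp,
      ContinuousLinearMap.adjoint_inner_right]

lemma pair_sum {X Y : H2} {x y : ℕ → ℂ} (hX : ∀ n : ℕ × ℕ, X n = if n.2 = 0 then x n.1 else 0)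
    (hY : ∀ n : ℕ × ℕ, Y n = if n.2 = 0 then y n.1 else 0) (l : ℕ) :
    Tendsto (fun m => ∑ i ∈ Finset.range (m + 1), y (i + l) * conj (x i)) atTop
      (𝓝 (inner ℂ ((Z1 ^ l) X) Y)) := by
  rw [Z1_pow_adj]
  have h1 := lp.hasSum_inner (𝕜 := ℂ) X ((Z1.adjoint ^ l) Y)
  have hinj : Function.Injective fun i : ℕ => ((i, 0) : ℕ × ℕ) := fun a b h => by
    simpa using h
  have h2 := (hinj.hasSum_iff (f := fun n : ℕ × ℕ => (inner ℂ (X n) ((Z1.adjoint ^ l) Y n) : ℂ))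
    (a := inner ℂ X ((Z1.adjoint ^ l) Y)) (fun n hn => by
      rw [hX n, if_neg, inner_zero_left]
      intro h
      exact hn ⟨n.1, Prod.ext rfl h.symm⟩)).2 h1
  have h3 : ∀ i : ℕ, y (i + l) * conj (x i) =
      ((fun n : ℕ × ℕ => (inner ℂ (X n) ((Z1.adjoint ^ l) Y n) : ℂ)) ∘
        fun i : ℕ => ((i, 0) : ℕ × ℕ)) i := by
    intro i
    simp only [Function.comp_apply]
    rw [Z1a_pow_apply, hX, hY, if_pos rfl, if_pos rfl]
    rfl
  have h4 := (h2.congr_fun h3).tendsto_sum_nat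
  exact (tendsto_add_atTop_iff_nat 1).2 h4

/-- the orthogonality relations -/
lemma orth_rel {θ : ℂ × ℂ → ℂ} {M : H2 →L[ℂ] H2} (hM : MulOp θ M)
    {K1 K2 : ℂ × ℂ → ℂ × ℂ → ℂ} (hA : IsAgler θ K1 K2)
    (hS : ∀ f : H2, InRK (ker1 K1) (ev f) → InRK (ker1 K1) (ev (Z1.adjoint f)))
    {v v' : ℂ} (hv : ‖v‖ < 1) (hv' : ‖v'‖ < 1) {X Y : H2}
    (hX : ∀ n : ℕ × ℕ, X n = if n.2 = 0 then tc (M (E 0)) v n.1 else 0)
    (hY : ∀ n : ℕ × ℕ, Y n = if n.2 = 0 then tc (M (E 0)) v' n.1 else 0) {l : ℕ} (hl : l ≠ 0) :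
    (inner ℂ ((Z1 ^ l) X) Y : ℂ) = 0 := by
  obtain ⟨τ, hτ, hlim⟩ := wander hM hA hS (Z1a_sz0 hv)
  have h1 : Tendsto (fun m : ℕ => (inner ℂ ((Z1 ^ (m + l)) (sz (0, v')))
      (M (M.adjoint ((Z1 ^ m) (sz (0, v)))) - (Z1 ^ m) τ) : ℂ)) atTop (𝓝 0) := by
    rw [tendsto_zero_iff_norm_tendsto_zero]
    have h2 : Tendsto (fun m : ℕ => ‖sz (0, v')‖ *
        ‖M (M.adjoint ((Z1 ^ m) (sz (0, v)))) - (Z1 ^ m) τ‖) atTop (𝓝 0) := by
      simpa using hlim.norm.const_mul ‖sz (0, v')‖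
    refine squeeze_zero (fun m => norm_nonneg _) (fun m => ?_) h2
    refine (norm_inner_le_norm _ _).trans ?_
    rw [Z1_pow_norm]
  have h3 : ∀ m : ℕ, (inner ℂ ((Z1 ^ (m + l)) (sz (0, v')))
      (M (M.adjoint ((Z1 ^ m) (sz (0, v)))) - (Z1 ^ m) τ) : ℂ) =
      (inner ℂ (sz (0, v')) (sz (0, v)) : ℂ) * ∑ i ∈ Finset.range (m + 1),
        tc (M (E 0)) v' (i + l) * conj (tc (M (E 0)) v i) := by
    intro m
    rw [inner_sub_right, double_sum hM hv hv', shift_orth (Z1a_sz0 hv') hτ, if_neg (by omega),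
      sub_zero]
  simp only [h3] at h1
  have h4 := (pair_sum hX hY l).const_mul (inner ℂ (sz (0, v')) (sz (0, v)) : ℂ)
  have h5 := tendsto_nhds_unique h4 h1
  exact (mul_eq_zero.1 h5).resolve_left (szin_ne hv hv')

lemma ne_case {X Y : H2} (hX : ∀ n : ℕ × ℕ, n.2 ≠ 0 → X n = 0)
    (hY : ∀ n : ℕ × ℕ, n.2 ≠ 0 → Y n = 0)
    (h1 : ∀ l : ℕ, l ≠ 0 → (inner ℂ ((Z1 ^ l) X) X : ℂ) = 0)
    (h2 : ∀ l : ℕ, l ≠ 0 → (inner ℂ ((Z1 ^ l) X) Y : ℂ) = 0)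
    (h3 : ∀ l : ℕ, l ≠ 0 → (inner ℂ ((Z1 ^ l) Y) X : ℂ) = 0)
    (h4 : ∀ l : ℕ, l ≠ 0 → (inner ℂ ((Z1 ^ l) Y) Y : ℂ) = 0)
    (h5 : (inner ℂ X Y : ℂ) = 0) (hX0 : X ≠ 0) : Y = 0 := by
  by_contra hY0
  have a1 : ‖X‖ ≠ 0 := norm_ne_zero_iff.2 hX0
  have a2 : ‖Y‖ ≠ 0 := norm_ne_zero_iff.2 hY0
  refine wander_dim (X := ((‖X‖⁻¹ : ℝ) : ℂ) • X) (Y := ((‖Y‖⁻¹ : ℝ) : ℂ) • Y)
    (fun n hn => by rw [lp.coeFn_smul, Pi.smul_apply, hX n hn, smul_zero])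
    (fun n hn => by rw [lp.coeFn_smul, Pi.smul_apply, hY n hn, smul_zero])
    (by rw [norm_smul, Complex.norm_real, norm_inv, norm_norm, inv_mul_cancel₀ a1])
    (by rw [norm_smul, Complex.norm_real, norm_inv, norm_norm, inv_mul_cancel₀ a2])
    (fun l hl => ?_) (fun l hl => ?_) (fun l hl => ?_) (fun l hl => ?_) ?_
  · rw [map_smul, inner_smul_left, inner_smul_right, h1 l hl, mul_zero, mul_zero]
  · rw [map_smul, inner_smul_left, inner_smul_right, h2 l hl, mul_zero, mul_zero]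
  · rw [map_smul, inner_smul_left, inner_smul_right, h3 l hl, mul_zero, mul_zero]
  · rw [map_smul, inner_smul_left, inner_smul_right, h4 l hl, mul_zero, mul_zero]
  · rw [inner_smul_left, inner_smul_right, h5, mul_zero, mul_zero]

/-- all slices of `θ` in the first variable are proportional -/
theorem slices {θ : ℂ × ℂ → ℂ} {M : H2 →L[ℂ] H2} (hM : MulOp θ M)
    {K1 K2 : ℂ × ℂ → ℂ × ℂ → ℂ} (hA : IsAgler θ K1 K2)
    (hS : ∀ f : H2, InRK (ker1 K1) (ev f) → InRK (ker1 K1) (ev (Z1.adjoint f))) :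
    ∃ v0 : ℂ, ‖v0‖ < 1 ∧ (∃ a : ℂ, ‖a‖ < 1 ∧ θ (a, v0) ≠ 0) ∧
      ∀ v : ℂ, ‖v‖ < 1 → ∃ c : ℂ, ∀ a : ℂ, ‖a‖ < 1 → θ (a, v) = c * θ (a, v0) := by
  set t : H2 := M (E 0) with ht
  have hev : ∀ z ∈ bidisk, ev t z = θ z := by
    intro z hz
    rw [ht, hM.ev_eq _ _ hz, ev_E]
    simp [mon]
  have ht0 : t ≠ 0 := by
    rw [← norm_ne_zero_iff, ht, hM.iso, E_norm]
    exact one_ne_zero
  have hex : ∃ z ∈ bidisk, θ z ≠ 0 := by
    by_contra hcon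
    push Not at hcon
    exact ht0 (ev_inj t fun z hz => by rw [hev z hz, hcon z hz])
  obtain ⟨⟨a0, v0⟩, hz0, hθ0⟩ := hex
  refine ⟨v0, hz0.2, ⟨a0, hz0.1, hθ0⟩, fun v hv => ?_⟩
  have hv0 : ‖v0‖ < 1 := hz0.2
  obtain ⟨X, hX⟩ := exists_emb (tc_summable t hv0)
  obtain ⟨Y, hY⟩ := exists_emb (tc_summable t hv)
  have hX' : ∀ n : ℕ × ℕ, n.2 ≠ 0 → X n = 0 := fun n hn => by rw [hX, if_neg hn]
  have hY' : ∀ n : ℕ × ℕ, n.2 ≠ 0 → Y n = 0 := fun n hn => by rw [hY, if_neg hn]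
  have hX0 : X ≠ 0 := by
    intro h
    have h1 : ∀ i, tc t v0 i = 0 * tc t v0 i := by
      intro i
      have h2 := hX (i, 0)
      rw [h, if_pos rfl] at h2
      rw [zero_mul, ← h2]
      rfl
    have h3 := prop_of_tc t hz0.1 hv0 hv0 h1
    rw [zero_mul, hev _ hz0] at h3
    exact hθ0 h3
  have rXX : ∀ l : ℕ, l ≠ 0 → (inner ℂ ((Z1 ^ l) X) X : ℂ) = 0 := fun l hl =>
    orth_rel hM hA hS hv0 hv0 hX hX hl
  have rXY : ∀ l : ℕ, l ≠ 0 → (inner ℂ ((Z1 ^ l) X) Y : ℂ) = 0 := fun l hl =>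
    orth_rel hM hA hS hv0 hv hX hY hl
  have rYX : ∀ l : ℕ, l ≠ 0 → (inner ℂ ((Z1 ^ l) Y) X : ℂ) = 0 := fun l hl =>
    orth_rel hM hA hS hv hv0 hY hX hl
  have rYY : ∀ l : ℕ, l ≠ 0 → (inner ℂ ((Z1 ^ l) Y) Y : ℂ) = 0 := fun l hl =>
    orth_rel hM hA hS hv hv hY hY hl
  have hXX : (inner ℂ X X : ℂ) ≠ 0 := by rwa [Ne, inner_self_eq_zero]
  set c : ℂ := inner ℂ X Y / inner ℂ X X with hc
  have hYc : Y - c • X = 0 := by
    refine ne_case hX' (fun n hn => ?_) rXX (fun l hl => ?_) (fun l hl => ?_) (fun l hl => ?_) ?_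
      hX0
    · rw [lp.coeFn_sub, Pi.sub_apply, lp.coeFn_smul, Pi.smul_apply, hX' n hn, hY' n hn, smul_zero,
        sub_zero]
    · rw [inner_sub_right, inner_smul_right, rXX l hl, rXY l hl, mul_zero, sub_zero]
    · rw [map_sub, map_smul, inner_sub_left, inner_smul_left, rXX l hl, rYX l hl, mul_zero,
        sub_zero]
    · rw [map_sub, map_smul, inner_sub_left, inner_smul_left, inner_sub_right, inner_sub_right,
        inner_smul_right, inner_smul_right, rXX l hl, rYX l hl, rXY l hl, rYY l hl]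
      simp
    · rw [inner_sub_right, inner_smul_right, hc, div_mul_cancel₀ _ hXX, sub_self]
  refine ⟨c, fun a ha => ?_⟩
  have h4 : ∀ i, tc t v i = c * tc t v0 i := by
    intro i
    have h5 : Y = c • X := sub_eq_zero.1 hYc
    have h6 : Y (i, 0) = c * X (i, 0) := by
      rw [h5, lp.coeFn_smul, Pi.smul_apply, smul_eq_mul]
    rw [hX, hY, if_pos rfl, if_pos rfl] at h6
    exact h6
  have h7 := prop_of_tc t ha hv hv0 h4
  rw [hev _ ⟨ha, hv⟩, hev _ ⟨ha, hv0⟩] at h7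
  exact h7

/-- proportional slices give a product of inner functions -/
theorem product {θ : ℂ × ℂ → ℂ} (hθ : IsInner2 θ) (hle : ∀ z ∈ bidisk, ‖θ z‖ ≤ 1)
    {v0 : ℂ} (hv0 : ‖v0‖ < 1) {a0 : ℂ} (ha0 : ‖a0‖ < 1) (h0 : θ (a0, v0) ≠ 0)
    (h : ∀ v : ℂ, ‖v‖ < 1 → ∃ c : ℂ, ∀ a : ℂ, ‖a‖ < 1 → θ (a, v) = c * θ (a, v0)) :
    IsProd θ := by
  set κ : ℂ → ℂ := fun v => θ (a0, v) / θ (a0, v0) with hκ
  have hfac : ∀ a v : ℂ, ‖a‖ < 1 → ‖v‖ < 1 → θ (a, v) = κ v * θ (a, v0) := by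
    intro a v ha hv
    obtain ⟨c, hc⟩ := h v hv
    have h1 := hc a0 ha0
    rw [hκ]
    simp only
    rw [hc a ha, h1, mul_div_cancel_right₀ _ h0]
  set D : Set ℝ := (fun a : ℂ => ‖θ (a, v0)‖) '' Metric.ball 0 1 with hD
  set s : ℝ := sSup D with hs
  have hbdd : BddAbove D := by
    refine ⟨1, ?_⟩
    rintro _ ⟨a, ha, rfl⟩
    rw [Metric.mem_ball, dist_zero_right] at ha
    exact hle _ ⟨ha, hv0⟩
  have hles : ∀ a : ℂ, ‖a‖ < 1 → ‖θ (a, v0)‖ ≤ s := fun a ha =>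
    le_csSup hbdd ⟨a, by rw [Metric.mem_ball, dist_zero_right]; exact ha, rfl⟩
  have hspos : 0 < s := lt_of_lt_of_le (norm_pos_iff.2 h0) (hles a0 ha0)
  have hκs : ∀ v : ℂ, ‖v‖ < 1 → s * ‖κ v‖ ≤ 1 := by
    intro v hv
    rcases (norm_nonneg (κ v)).eq_or_lt with hk | hk
    · rw [← hk, mul_zero]; exact zero_le_one
    · rw [← le_div_iff₀ hk]
      refine csSup_le ⟨_, ⟨a0, by rw [Metric.mem_ball, dist_zero_right]; exact ha0, rfl⟩⟩ ?_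
      rintro _ ⟨a, ha, rfl⟩
      rw [Metric.mem_ball, dist_zero_right] at ha
      rw [le_div_iff₀ hk, mul_comm, ← norm_mul, ← hfac a v ha hv]
      exact hle _ ⟨ha, hv⟩
  set φ : ℂ → ℂ := fun a => ((s⁻¹ : ℝ) : ℂ) * θ (a, v0) with hφ
  set ψ : ℂ → ℂ := fun v => ((s : ℝ) : ℂ) * κ v with hψ
  have hφ1 : ∀ a : ℂ, ‖a‖ < 1 → ‖φ a‖ ≤ 1 := by
    intro a ha
    rw [hφ]
    simp only
    rw [norm_mul, Complex.norm_real, Real.norm_eq_abs, abs_of_pos (inv_pos.2 hspos),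
      inv_mul_le_iff₀ hspos, mul_one]
    exact hles a ha
  have hψ1 : ∀ v : ℂ, ‖v‖ < 1 → ‖ψ v‖ ≤ 1 := by
    intro v hv
    rw [hψ]
    simp only
    rw [norm_mul, Complex.norm_real, Real.norm_eq_abs, abs_of_pos hspos]
    exact hκs v hv
  have hprod : ∀ z ∈ bidisk, θ z = φ z.1 * ψ z.2 := by
    rintro ⟨a, v⟩ hz
    have h1 : (s : ℂ) ≠ 0 := by exact_mod_cast hspos.ne'
    rw [hfac a v hz.1 hz.2, hφ, hψ]
    simp only
    push_cast
    field_simp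
  have hae : ∀ᵐ p : ℝ × ℝ,
      Tendsto (fun r : ℝ => ‖φ (r * Complex.exp (Complex.I * p.1))‖) (𝓝[<] 1) (𝓝 1) ∧
      Tendsto (fun r : ℝ => ‖ψ (r * Complex.exp (Complex.I * p.2))‖) (𝓝[<] 1) (𝓝 1) := by
    filter_upwards [hθ.2.2] with p hp
    have h1 : Tendsto (fun r : ℝ => ‖φ (r * Complex.exp (Complex.I * p.1))‖ *
        ‖ψ (r * Complex.exp (Complex.I * p.2))‖) (𝓝[<] 1) (𝓝 1) := by
      refine hp.congr' ?_
      filter_upwards [near_one] with r hr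
      rw [← norm_mul]
      exact congrArg norm (hprod _ (rt_mem hr.1 hr.2 p))
    constructor
    · refine tendsto_of_tendsto_of_tendsto_of_le_of_le' h1 tendsto_const_nhds ?_ ?_
      · filter_upwards [near_one] with r hr
        exact mul_le_of_le_one_right (norm_nonneg _) (hψ1 _ (rt_mem hr.1 hr.2 p).2)
      · filter_upwards [near_one] with r hr
        exact hφ1 _ (rt_mem hr.1 hr.2 p).1
    · refine tendsto_of_tendsto_of_tendsto_of_le_of_le' h1 tendsto_const_nhds ?_ ?_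
      · filter_upwards [near_one] with r hr
        exact mul_le_of_le_one_left (norm_nonneg _) (hφ1 _ (rt_mem hr.1 hr.2 p).1)
      · filter_upwards [near_one] with r hr
        exact hψ1 _ (rt_mem hr.1 hr.2 p).2
  have hae2 : ∀ᵐ x : ℝ, ∀ᵐ y : ℝ,
      Tendsto (fun r : ℝ => ‖φ (r * Complex.exp (Complex.I * x))‖) (𝓝[<] 1) (𝓝 1) ∧
      Tendsto (fun r : ℝ => ‖ψ (r * Complex.exp (Complex.I * y))‖) (𝓝[<] 1) (𝓝 1) :=
    Measure.ae_ae_of_ae_prod hae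
  refine ⟨φ, ψ, ⟨?_, ⟨1, fun z hz => ?_⟩, ?_⟩, ⟨?_, ⟨1, fun z hz => ?_⟩, ?_⟩, hprod⟩
  · exact (slice1 hθ.1 hv0).const_mul _
  · rw [Metric.mem_ball, dist_zero_right] at hz
    exact hφ1 z hz
  · filter_upwards [hae2] with x hx
    obtain ⟨y, hy⟩ := hx.exists
    exact hy.1
  · exact ((slice2 hθ.1 ha0).div_const _).const_mul _
  · rw [Metric.mem_ball, dist_zero_right] at hz
    exact hψ1 z hz
  · obtain ⟨x, hx⟩ := hae2.exists
    filter_upwards [hx] with y hy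
    exact hy.2

/-- the main step -/
theorem core {θ : ℂ × ℂ → ℂ} (hθ : IsInner2 θ) {K1 K2 : ℂ × ℂ → ℂ × ℂ → ℂ}
    (hA : IsAgler θ K1 K2)
    (hS : ∀ f : H2, InRK (ker1 K1) (ev f) → InRK (ker1 K1) (ev (Z1.adjoint f))) : IsProd θ := by
  obtain ⟨M, h1, h2⟩ := exists_mul hθ
  have hM : MulOp θ M := ⟨h1, h2⟩
  obtain ⟨v0, hv0, ⟨a0, ha0, h0⟩, h⟩ := slices hM hA hS
  exact product hθ (fun z hz => hM.norm_le hz) hv0 ha0 h0 h

end Pool.Agent.K4H48.Agl
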