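import Pool.Agent.K4H48.Agl.Ops

/-! Agler kernels, Agler subspaces and compressed shifts. -/

set_option autoImplicit false

namespace Pool.Agent.K4H48.Agl

open Pool.Agent.R285.Ell2 Pool.Agent.R285.BiHardy Filter Topology
open scoped ComplexConjugate

/-- `(K₁, K₂)` is a pair of Agler kernels of `θ` -/
def IsAgler (θ : ℂ × ℂ → ℂ) (K1 K2 : ℂ × ℂ → ℂ × ℂ → ℂ) : Prop :=
  PosKer K1 ∧ PosKer K2 ∧ ∀ z ∈ bidisk, ∀ w ∈ bidisk,
    1 - θ z * conj (θ w) = (1 - z.1 * conj w.1) * K2 z w + (1 - z.2 * conj w.2) * K1 z w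

/-- the kernel `K₁ / (1 - z₁ w̄₁)` -/
noncomputable def ker1 (K1 : ℂ × ℂ → ℂ × ℂ → ℂ) (z w : ℂ × ℂ) : ℂ := K1 z w / (1 - z.1 * conj w.1)

/-- the kernel `K₂ / (1 - z₂ w̄₂)` -/
noncomputable def ker2 (K2 : ℂ × ℂ → ℂ × ℂ → ℂ) (z w : ℂ × ℂ) : ℂ := K2 z w / (1 - z.2 * conj w.2)

/-- `g` belongs to the reproducing kernel Hilbert space of `k`: for some `C ≥ 0` the kernel
`C k(z,w) - g(z) conj(g(w))` is positive -/
def InRK (k : ℂ × ℂ → ℂ × ℂ → ℂ) (g : ℂ × ℂ → ℂ) : Prop :=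
  ∃ C : ℝ, 0 ≤ C ∧ PosKer fun z w => (C : ℂ) * k z w - g z * conj (g w)

/-- the subspace `θ H²` -/
noncomputable def rangeSub (θ : ℂ × ℂ → ℂ) : Submodule ℂ H2 where
  carrier := {g | ∃ h : H2, ∀ z ∈ bidisk, ev g z = θ z * ev h z}
  add_mem' := by
    rintro a b ⟨f, hf⟩ ⟨g, hg⟩
    refine ⟨f + g, fun z hz => ?_⟩
    rw [ev_add _ _ hz, ev_add _ _ hz, hf z hz, hg z hz]
    ring
  zero_mem' := ⟨0, fun z _ => by simp [ev]⟩
  smul_mem' := by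
    rintro c a ⟨f, hf⟩
    refine ⟨c • f, fun z hz => ?_⟩
    rw [ev_smul, ev_smul, hf z hz]
    ring

/-- the model space `K_θ = H² ⊖ θ H²` -/
noncomputable def Kth (θ : ℂ × ℂ → ℂ) : Submodule ℂ H2 := (rangeSub θ)ᗮ

noncomputable instance (θ : ℂ × ℂ → ℂ) : CompleteSpace (Kth θ) := by
  unfold Kth; infer_instance

/-- the compression `P_θ T|K_θ` of an operator -/
noncomputable def cmpr (θ : ℂ × ℂ → ℂ) (T : H2 →L[ℂ] H2) : Kth θ →L[ℂ] Kth θ :=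
  (Kth θ).orthogonalProjectionOnto ∘L T ∘L (Kth θ).subtypeL

/-- the compressed shifts `S_{z₁}` (index `0`) and `S_{z₂}` (index `1`) -/
noncomputable def shift (θ : ℂ × ℂ → ℂ) (j : Fin 2) : Kth θ →L[ℂ] Kth θ := cmpr θ (![Z1, Z2] j)

/-- the first Agler subspace, as a set of elements of `K_θ` -/
def S1 (θ : ℂ × ℂ → ℂ) (K1 : ℂ × ℂ → ℂ × ℂ → ℂ) : Set (Kth θ) :=
  {f | InRK (ker1 K1) (ev (f : H2))}

/-- the second Agler subspace, as a set of elements of `K_θ` -/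
def S2 (θ : ℂ × ℂ → ℂ) (K2 : ℂ × ℂ → ℂ × ℂ → ℂ) : Set (Kth θ) :=
  {f | InRK (ker2 K2) (ev (f : H2))}

/-- invariance under an operator and its adjoint -/
def Inv {θ : ℂ × ℂ → ℂ} (T : Kth θ →L[ℂ] Kth θ) (S : Set (Kth θ)) : Prop :=
  ∀ f ∈ S, T f ∈ S ∧ T.adjoint f ∈ S

/-- `S_{z_j}` has reducing Agler subspaces -/
def HasReducing (θ : ℂ × ℂ → ℂ) (j : Fin 2) : Prop :=
  ∃ K1 K2, IsAgler θ K1 K2 ∧ Inv (shift θ j) (S1 θ K1) ∧ Inv (shift θ j) (S2 θ K2)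

/-- the same with kernels holomorphic in the first argument and with closed, mutually orthogonal
Agler subspaces -/
def HasReducingClosed (θ : ℂ × ℂ → ℂ) (j : Fin 2) : Prop :=
  ∃ K1 K2, IsAgler θ K1 K2 ∧
    (∀ w ∈ bidisk, DifferentiableOn ℂ (fun z => K1 z w) bidisk) ∧
    (∀ w ∈ bidisk, DifferentiableOn ℂ (fun z => K2 z w) bidisk) ∧
    IsClosed (S1 θ K1) ∧ IsClosed (S2 θ K2) ∧
    (∀ f ∈ S1 θ K1, ∀ g ∈ S2 θ K2, inner ℂ f g = 0) ∧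
    Inv (shift θ j) (S1 θ K1) ∧ Inv (shift θ j) (S2 θ K2)

/-- `θ` is a product of two one-variable inner functions -/
def IsProd (θ : ℂ × ℂ → ℂ) : Prop :=
  ∃ φ ψ : ℂ → ℂ, IsInner1 φ ∧ IsInner1 ψ ∧ ∀ z ∈ bidisk, θ z = φ z.1 * ψ z.2

/-! ### first consequences -/

lemma posKer_sz : PosKer fun z w => ev (sz w) z := by
  have h := posKer_op (Q := 1) (fun u v => rfl) (fun v => by
    have h1 : (inner ℂ v ((1 : H2 →L[ℂ] H2) v) : ℂ).re = ‖v‖ ^ 2 := by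
      rw [one_apply_eq_self, inner_self_eq_norm_sq_to_K]; norm_cast
    rw [h1]; positivity)
  refine h.congr fun z hz w hw => ?_
  exact inner_sz _ hz

lemma PosKer.comap {k : ℂ × ℂ → ℂ × ℂ → ℂ} (h : PosKer k) {u : ℂ × ℂ → ℂ × ℂ}
    (hu : ∀ z ∈ bidisk, u z ∈ bidisk) : PosKer fun z w => k (u z) (u w) :=
  fun n z hz => h n (fun i => u (z i)) (fun i => hu _ (hz i))

lemma posKer_geo1 : PosKer fun z w => (1 - z.1 * conj w.1)⁻¹ := by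
  have h := posKer_sz.comap (u := fun z => (z.1, 0)) (fun z hz => ⟨hz.1, by simp⟩)
  refine h.congr fun z hz w hw => ?_
  have h1 := ev_sz (z := (z.1, 0)) (w := (w.1, 0)) ⟨hz.1, by simp⟩ ⟨hw.1, by simp⟩
  simp only [zero_mul, sub_zero, mul_one] at h1
  exact eq_inv_of_mul_eq_one_right h1

lemma posKer_geo2 : PosKer fun z w => (1 - z.2 * conj w.2)⁻¹ := by
  have h := posKer_sz.comap (u := fun z => (0, z.2)) (fun z hz => ⟨by simp, hz.2⟩)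
  refine h.congr fun z hz w hw => ?_
  have h1 := ev_sz (z := (0, z.2)) (w := (0, w.2)) ⟨by simp, hz.2⟩ ⟨by simp, hw.2⟩
  simp only [zero_mul, sub_zero, one_mul] at h1
  exact eq_inv_of_mul_eq_one_right h1

lemma PosKer.mul {k k' : ℂ × ℂ → ℂ × ℂ → ℂ} (h : PosKer k) (h' : PosKer k') :
    PosKer fun z w => k z w * k' z w := fun n z hz => (h n z hz).hadamard (h' n z hz)

lemma PosKer.ker1 {K : ℂ × ℂ → ℂ × ℂ → ℂ} (h : PosKer K) : PosKer (ker1 K) :=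
  (h.mul posKer_geo1).congr fun _ _ _ _ => (div_eq_mul_inv _ _).symm

lemma PosKer.ker2 {K : ℂ × ℂ → ℂ × ℂ → ℂ} (h : PosKer K) : PosKer (ker2 K) :=
  (h.mul posKer_geo2).congr fun _ _ _ _ => (div_eq_mul_inv _ _).symm

lemma IsAgler.split {θ : ℂ × ℂ → ℂ} {K1 K2 : ℂ × ℂ → ℂ × ℂ → ℂ} (h : IsAgler θ K1 K2)
    {z w : ℂ × ℂ} (hz : z ∈ bidisk) (hw : w ∈ bidisk) :
    (1 - θ z * conj (θ w)) * ev (sz w) z = Agl.ker1 K1 z w + Agl.ker2 K2 z w := by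
  have h1 := h.2.2 z hz w hw
  have n1 := one_sub_ne hz.1 hw.1
  have n2 := one_sub_ne hz.2 hw.2
  have h2 := ev_sz hz hw
  have h3 : ev (sz w) z = ((1 - z.1 * conj w.1) * (1 - z.2 * conj w.2))⁻¹ :=
    eq_inv_of_mul_eq_one_right h2
  rw [h1, h3, Agl.ker1, Agl.ker2]
  field_simp
  ring

lemma IsAgler.splitPM {θ : ℂ × ℂ → ℂ} {M : H2 →L[ℂ] H2} (hM : MulOp θ M)
    {K1 K2 : ℂ × ℂ → ℂ × ℂ → ℂ} (h : IsAgler θ K1 K2)
    {z w : ℂ × ℂ} (hz : z ∈ bidisk) (hw : w ∈ bidisk) :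
    (inner ℂ (sz z) (PM M (sz w)) : ℂ) = Agl.ker1 K1 z w + Agl.ker2 K2 z w := by
  rw [hM.ker_PM hz hw, h.split hz hw]

lemma mem_Kth {θ : ℂ × ℂ → ℂ} {M : H2 →L[ℂ] H2} (hM : MulOp θ M) (f : H2) :
    f ∈ Kth θ ↔ M.adjoint f = 0 := by
  rw [Kth, Submodule.mem_orthogonal]
  constructor
  · intro h
    have h1 := h (M (M.adjoint f)) ⟨M.adjoint f, fun z hz => hM.ev_eq _ z hz⟩
    rw [← ContinuousLinearMap.adjoint_inner_right, inner_self_eq_zero] at h1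
    exact h1
  · rintro h u ⟨g, hg⟩
    have h1 : u = M g := by
      rw [← sub_eq_zero]
      refine ev_inj _ fun z hz => ?_
      rw [ev_sub _ _ hz, hg z hz, hM.ev_eq _ z hz, sub_self]
    rw [h1, ← ContinuousLinearMap.adjoint_inner_right, h, inner_zero_right]

lemma cmpr_coe {θ : ℂ × ℂ → ℂ} {M : H2 →L[ℂ] H2} (hM : MulOp θ M) (T : H2 →L[ℂ] H2) (f : Kth θ) :
    ((cmpr θ T f : Kth θ) : H2) = PM M (T f) := by
  have h1 : ((cmpr θ T f : Kth θ) : H2) = (Kth θ).starProjection (T f) := rfl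
  rw [h1]
  refine Submodule.eq_starProjection_of_mem_of_inner_eq_zero (K := Kth θ) ?_ ?_
  · rw [mem_Kth hM, hM.adj_PM]
  · intro w hw
    rw [PM_apply, sub_sub_cancel, ← ContinuousLinearMap.adjoint_inner_right,
      (mem_Kth hM w).1 hw, inner_zero_right]

/-- the adjoint of a compressed shift is the restriction of the backward shift -/
lemma cmpr_adj {θ : ℂ × ℂ → ℂ} {M : H2 →L[ℂ] H2} (hM : MulOp θ M) (T : H2 →L[ℂ] H2)
    (hT : ∀ f, M.adjoint (T.adjoint f) = T.adjoint (M.adjoint f)) (f : Kth θ) :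
    (((cmpr θ T).adjoint f : Kth θ) : H2) = T.adjoint f := by
  have hf := (mem_Kth hM _).1 f.2
  have hmem : T.adjoint (f : H2) ∈ Kth θ := by
    rw [mem_Kth hM, hT, hf, map_zero]
  have h1 : (cmpr θ T).adjoint f = ⟨T.adjoint f, hmem⟩ := by
    refine ext_inner_right ℂ fun g => ?_
    rw [ContinuousLinearMap.adjoint_inner_left]
    have h2 : (inner ℂ f (cmpr θ T g) : ℂ) = inner ℂ (f : H2) ((cmpr θ T g : Kth θ) : H2) := rfl
    have h3 : (inner ℂ (⟨T.adjoint f, hmem⟩ : Kth θ) g : ℂ) = inner ℂ (T.adjoint f) (g : H2) := rfl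
    rw [h2, h3, cmpr_coe hM, ← PM_symm, PM_fix hf, ContinuousLinearMap.adjoint_inner_left]
  rw [h1]

end Pool.Agent.K4H48.Agl
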