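import Pool.Agent.K4H48.Agl.Only

/-! The wandering property forces a factorisation. -/

set_option autoImplicit false

namespace Pool.Agent.K4H48.Agl

open Pool.Agent.R285.Ell2 Pool.Agent.R285.BiHardy Filter Topology MeasureTheory
open scoped ComplexConjugate

lemma mem0 {v : ℂ} (hv : ‖v‖ < 1) : ((0 : ℂ), v) ∈ bidisk := ⟨by simp, hv⟩

lemma sz0_apply {v : ℂ} (hv : ‖v‖ < 1) (n : ℕ × ℕ) :
    sz (0, v) n = if n.1 = 0 then conj v ^ n.2 else 0 := by
  rw [sz_apply (mem0 hv)]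
  split_ifs with h
  · rw [h, pow_zero, one_mul, map_pow]
  · rw [zero_pow h, zero_mul, map_zero]

lemma Z1a_sz0 {v : ℂ} (hv : ‖v‖ < 1) : Z1.adjoint (sz (0, v)) = 0 := by
  refine lp.ext (funext fun n => ?_)
  rw [Z1_adj, sz0_apply hv, if_neg (by simp [e1])]
  rfl

lemma Z1_pow_sz0 {v : ℂ} (hv : ‖v‖ < 1) (j : ℕ) (n : ℕ × ℕ) :
    (Z1 ^ j) (sz (0, v)) n = if n.1 = j then conj v ^ n.2 else 0 := by
  induction j generalizing n with
  | zero => simpa using sz0_apply hv n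
  | succ j ih =>
    rw [pow_succ', mul_apply_eq_comp]
    by_cases h : n.1 = 0
    · rw [Z1_zero _ h, if_neg (by omega)]
    · obtain ⟨m, rfl⟩ := (range_e1 n).2 h
      rw [Z1_e1, ih]
      simp [e1]

lemma shift_orth {σ τ : H2} (hσ : Z1.adjoint σ = 0) (hτ : Z1.adjoint τ = 0) (a b : ℕ) :
    (inner ℂ ((Z1 ^ a) σ) ((Z1 ^ b) τ) : ℂ) = if a = b then inner ℂ σ τ else 0 := by
  have h1 : ∀ k : ℕ, k ≠ 0 → ∀ {σ τ : H2}, Z1.adjoint τ = 0 →
      (inner ℂ ((Z1 ^ k) σ) τ : ℂ) = 0 := by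
    intro k hk σ τ hτ
    obtain ⟨k, rfl⟩ := Nat.exists_eq_succ_of_ne_zero hk
    rw [Nat.succ_eq_add_one, pow_succ', mul_apply_eq_comp,
      ← ContinuousLinearMap.adjoint_inner_right, hτ, inner_zero_right]
  rcases lt_trichotomy a b with h | h | h
  · obtain ⟨k, rfl⟩ := Nat.exists_eq_add_of_lt h
    rw [if_neg (by omega), show a + k + 1 = a + (k + 1) by ring, pow_add, mul_apply_eq_comp,
      Z1_pow_inner, ← inner_conj_symm, h1 (k + 1) (by omega) hσ, map_zero]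
  · subst h
    rw [if_pos rfl, Z1_pow_inner]
  · obtain ⟨k, rfl⟩ := Nat.exists_eq_add_of_lt h
    rw [if_neg (by omega), show b + k + 1 = b + (k + 1) by ring, pow_add, mul_apply_eq_comp,
      Z1_pow_inner, h1 (k + 1) (by omega) hτ]

/-- Taylor coefficients in the first variable -/
noncomputable def tc (t : H2) (v : ℂ) (i : ℕ) : ℂ := inner ℂ ((Z1 ^ i) (sz (0, v))) t

lemma Z2a_pow_sz0 {v : ℂ} (hv : ‖v‖ < 1) (n k : ℕ) (t : H2) :
    (inner ℂ ((Z2 ^ n) t) ((Z1 ^ k) (sz (0, v))) : ℂ) = conj v ^ n * conj (tc t v k) := by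
  rw [tc, inner_conj_symm]
  induction n with
  | zero => simp
  | succ n ih =>
    rw [pow_succ', mul_apply_eq_comp, ← ContinuousLinearMap.adjoint_inner_right]
    have h1 : Z2.adjoint ((Z1 ^ k) (sz (0, v))) = conj v • ((Z1 ^ k) (sz (0, v))) := by
      refine lp.ext (funext fun m => ?_)
      rw [Z2_adj, Z1_pow_sz0 hv, lp.coeFn_smul, Pi.smul_apply, Z1_pow_sz0 hv, smul_eq_mul]
      simp only [e2]
      split_ifs
      · ring
      · simp
    rw [h1, inner_smul_right, ih]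
    ring

lemma adj_pow_sz0 {θ : ℂ × ℂ → ℂ} {M : H2 →L[ℂ] H2} (hM : MulOp θ M) {v : ℂ} (hv : ‖v‖ < 1)
    (m : ℕ) : M.adjoint ((Z1 ^ m) (sz (0, v))) =
      ∑ i ∈ Finset.range (m + 1), conj (tc (M (E 0)) v i) • (Z1 ^ (m - i)) (sz (0, v)) := by
  refine lp.ext (funext fun n => ?_)
  rw [← inner_E, ← inner_E n (∑ i ∈ Finset.range (m + 1), _),
    ContinuousLinearMap.adjoint_inner_right, inner_sum]
  have h1 : M (E n) = (Z1 ^ n.1) ((Z2 ^ n.2) (M (E 0))) := by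
    have h2 : E n = W n (E 0) := by rw [W_E, add_zero]
    rw [h2, hM.comm_W, W, mul_apply_eq_comp]
  rw [h1]
  simp only [inner_smul_right, inner_E, Z1_pow_sz0 hv]
  by_cases h : n.1 ≤ m
  · obtain ⟨k, rfl⟩ := Nat.exists_eq_add_of_le h
    rw [pow_add, mul_apply_eq_comp, Z1_pow_inner, Z2a_pow_sz0 hv,
      Finset.sum_eq_single k]
    · rw [if_pos (by omega)]
      ring
    · intro i hi hik
      rw [if_neg (by rw [Finset.mem_range] at hi; omega), mul_zero]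
    · intro hk
      exact absurd (Finset.mem_range.2 (by omega)) hk
  · push Not at h
    obtain ⟨k, hk⟩ := Nat.exists_eq_add_of_lt h
    rw [Finset.sum_eq_zero fun i hi => by
      rw [if_neg (by rw [Finset.mem_range] at hi; omega), mul_zero], hk,
      show m + k + 1 = m + (k + 1) by ring, pow_add, mul_apply_eq_comp, Z1_pow_inner, pow_succ',
      mul_apply_eq_comp, ← ContinuousLinearMap.adjoint_inner_right, Z1a_sz0 hv, inner_zero_right]

lemma tc_summable (t : H2) {v : ℂ} (hv : ‖v‖ < 1) : Summable fun i => ‖tc t v i‖ ^ 2 := by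
  set c : ℝ := ‖sz (0, v)‖ with hc
  have hc0 : 0 < c := norm_pos_iff.2 (MulOp.sz_ne (mem0 hv))
  have ho : Orthonormal ℂ fun i : ℕ => ((c⁻¹ : ℝ) : ℂ) • (Z1 ^ i) (sz (0, v)) := by
    rw [orthonormal_iff_ite]
    intro i j
    rw [inner_smul_left, inner_smul_right, shift_orth (Z1a_sz0 hv) (Z1a_sz0 hv),
      Complex.conj_ofReal]
    split_ifs
    · rw [inner_self_eq_norm_sq_to_K, ← hc]
      have h2 : ((c : ℂ)) ≠ 0 := by exact_mod_cast hc0.ne'
      push_cast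
      field_simp
      rfl
    · simp
  have h1 := (ho.inner_products_summable t).mul_left (c ^ 2)
  refine h1.congr fun i => ?_
  rw [inner_smul_left, Complex.conj_ofReal, norm_mul, Complex.norm_real, Real.norm_eq_abs,
    abs_of_pos (inv_pos.2 hc0), tc, mul_pow, ← mul_assoc, ← mul_pow, mul_inv_cancel₀ hc0.ne',
    one_pow, one_mul]

/-- vectors in the first variable only -/
lemma exists_emb {x : ℕ → ℂ} (hx : Summable fun i => ‖x i‖ ^ 2) :
    ∃ X : H2, ∀ n, X n = if n.2 = 0 then x n.1 else 0 := by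
  refine exists_mk _ ?_
  have hinj : Function.Injective fun i : ℕ => ((i, 0) : ℕ × ℕ) := fun a b h => by
    simpa using h
  rw [← hinj.summable_iff]
  · simpa [Function.comp_def] using hx
  · intro n hn
    rw [if_neg, norm_zero]
    · norm_num
    · intro h
      exact hn ⟨n.1, Prod.ext rfl h.symm⟩

lemma emb_hasSum {X : H2} (hX : ∀ n : ℕ × ℕ, n.2 ≠ 0 → X n = 0) :
    HasSum (fun i : ℕ => ‖X (i, 0)‖ ^ 2) (‖X‖ ^ 2) := by
  have hinj : Function.Injective fun i : ℕ => ((i, 0) : ℕ × ℕ) := fun a b h => by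
    simpa using h
  have h1 := (summable_sq X).hasSum
  rw [← norm_sq] at h1
  have h2 := (hinj.hasSum_iff (f := fun n : ℕ × ℕ => ‖X n‖ ^ 2) (a := ‖X‖ ^ 2) (fun n hn => by
    rw [hX n, norm_zero]
    · norm_num
    · intro h
      exact hn ⟨n.1, Prod.ext rfl h.symm⟩)).2 h1
  exact h2

lemma Z1_pow_apply (k : ℕ) (f : H2) (i : ℕ) : (Z1 ^ k) f (i + k, 0) = f (i, 0) := by
  induction k with
  | zero => simp
  | succ k ih =>
    rw [pow_succ', mul_apply_eq_comp]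
    exact (Z1_e1 ((Z1 ^ k) f) (i + k, 0)).trans ih

/-- wandering vectors in the first variable are proportional -/
lemma wander_dim {X Y : H2} (hX : ∀ n : ℕ × ℕ, n.2 ≠ 0 → X n = 0)
    (hY : ∀ n : ℕ × ℕ, n.2 ≠ 0 → Y n = 0) (hXn : ‖X‖ = 1) (hYn : ‖Y‖ = 1)
    (h1 : ∀ l : ℕ, l ≠ 0 → (inner ℂ ((Z1 ^ l) X) X : ℂ) = 0)
    (h2 : ∀ l : ℕ, l ≠ 0 → (inner ℂ ((Z1 ^ l) X) Y : ℂ) = 0)
    (h3 : ∀ l : ℕ, l ≠ 0 → (inner ℂ ((Z1 ^ l) Y) X : ℂ) = 0)
    (h4 : ∀ l : ℕ, l ≠ 0 → (inner ℂ ((Z1 ^ l) Y) Y : ℂ) = 0)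
    (h5 : (inner ℂ X Y : ℂ) = 0) : False := by
  have gen : ∀ {P Q : H2}, (∀ l : ℕ, l ≠ 0 → (inner ℂ ((Z1 ^ l) P) Q : ℂ) = 0) →
      (∀ l : ℕ, l ≠ 0 → (inner ℂ ((Z1 ^ l) Q) P : ℂ) = 0) → ∀ a b : ℕ,
      (inner ℂ ((Z1 ^ a) P) ((Z1 ^ b) Q) : ℂ) = if a = b then inner ℂ P Q else 0 := by
    intro P Q hP hQ a b
    rcases lt_trichotomy a b with h | h | h
    · obtain ⟨k, rfl⟩ := Nat.exists_eq_add_of_lt h
      rw [if_neg (by omega), show a + k + 1 = a + (k + 1) by ring, pow_add, mul_apply_eq_comp,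
        Z1_pow_inner, ← inner_conj_symm, hQ (k + 1) (by omega), map_zero]
    · subst h
      rw [if_pos rfl, Z1_pow_inner]
    · obtain ⟨k, rfl⟩ := Nat.exists_eq_add_of_lt h
      rw [if_neg (by omega), show b + k + 1 = b + (k + 1) by ring, pow_add, mul_apply_eq_comp,
        Z1_pow_inner, hP (k + 1) (by omega)]
  have ho : Orthonormal ℂ (Sum.elim (fun i : ℕ => (Z1 ^ i) X) fun i : ℕ => (Z1 ^ i) Y) := by
    rw [orthonormal_iff_ite]
    have hXX : (inner ℂ X X : ℂ) = 1 := by rw [inner_self_eq_norm_sq_to_K, hXn]; norm_num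
    have hYY : (inner ℂ Y Y : ℂ) = 1 := by rw [inner_self_eq_norm_sq_to_K, hYn]; norm_num
    have hYX : (inner ℂ Y X : ℂ) = 0 := by rw [← inner_conj_symm, h5, map_zero]
    rintro (a | a) (b | b)
    · simp only [Sum.elim_inl, Sum.inl.injEq]
      rw [gen h1 h1, hXX]
    · simp only [Sum.elim_inl, Sum.elim_inr, reduceCtorEq, if_false]
      rw [gen h2 h3, h5, ite_self]
    · simp only [Sum.elim_inl, Sum.elim_inr, reduceCtorEq, if_false]
      rw [gen h3 h2, hYX, ite_self]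
    · simp only [Sum.elim_inr, Sum.inr.injEq]
      rw [gen h4 h4, hYY]
  have key : ∀ N : ℕ, (∑ i ∈ Finset.range (N + 1), ‖X (i, 0)‖ ^ 2) +
      ∑ i ∈ Finset.range (N + 1), ‖Y (i, 0)‖ ^ 2 ≤ 1 := by
    intro N
    have h6 := ho.sum_inner_products_le (E (N, 0))
      (s := (Finset.range (N + 1)).disjSum (Finset.range (N + 1)))
    rw [Finset.sum_disjSum, E_norm, one_pow] at h6
    have h7 : ∀ P : H2, ∑ i ∈ Finset.range (N + 1), ‖(inner ℂ ((Z1 ^ i) P) (E (N, 0)) : ℂ)‖ ^ 2 =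
        ∑ i ∈ Finset.range (N + 1), ‖P (i, 0)‖ ^ 2 := by
      intro P
      rw [← Finset.sum_range_reflect (fun i => ‖P (i, 0)‖ ^ 2)]
      refine Finset.sum_congr rfl fun i hi => ?_
      rw [Finset.mem_range] at hi
      rw [← inner_conj_symm, RCLike.norm_conj, inner_E]
      have h8 := Z1_pow_apply i P (N - i)
      rw [Nat.sub_add_cancel (by omega)] at h8
      rw [h8]
      simp
    simp only [Sum.elim_inl, Sum.elim_inr] at h6
    rw [h7, h7] at h6
    exact h6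
  have t1 := (emb_hasSum hX).tendsto_sum_nat
  have t2 := (emb_hasSum hY).tendsto_sum_nat
  have t3 := (tendsto_add_atTop_iff_nat 1).2 (t1.add t2)
  have h9 := le_of_tendsto t3 (Filter.Eventually.of_forall key)
  rw [hXn, hYn] at h9
  norm_num at h9

/-- the Taylor expansion in the first variable -/
lemma ev_step (f : H2) {z : ℂ × ℂ} (hz : z ∈ bidisk) :
    ev f z = ev f (0, z.2) + z.1 * ev (Z1.adjoint f) z := by
  rw [← ev_Z1 _ hz]
  have h1 := (ev_hasSum f hz).sub (ev_hasSum (Z1 (Z1.adjoint f)) hz)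
  have h2 := ev_hasSum f (mem0 hz.2)
  have h3 : ∀ n : ℕ × ℕ, f n * mon n z - Z1 (Z1.adjoint f) n * mon n z =
      f n * mon n (0, z.2) := by
    intro n
    by_cases h : n.1 = 0
    · rw [Z1_zero _ h]
      simp only [mon, h, pow_zero]
      ring
    · obtain ⟨m, rfl⟩ := (range_e1 n).2 h
      rw [Z1_e1, Z1_adj]
      simp [mon, e1]
  have h4 := h1.unique (h2.congr_fun h3)
  linear_combination h4

lemma ev_taylor (f : H2) {z : ℂ × ℂ} (hz : z ∈ bidisk) (N : ℕ) :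
    ev f z = ∑ i ∈ Finset.range N, z.1 ^ i * tc f z.2 i + z.1 ^ N * ev ((Z1.adjoint ^ N) f) z := by
  induction N with
  | zero => simp
  | succ N ih =>
    rw [ih, Finset.sum_range_succ, ev_step ((Z1.adjoint ^ N) f) hz, pow_succ' Z1.adjoint,
      mul_apply_eq_comp]
    have h1 : ev ((Z1.adjoint ^ N) f) (0, z.2) = tc f z.2 N := by
      rw [tc, ← inner_sz _ (mem0 hz.2)]
      have h2 : ∀ (N : ℕ) (u f : H2), (inner ℂ u ((Z1.adjoint ^ N) f) : ℂ) =
          inner ℂ ((Z1 ^ N) u) f := by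
        intro N
        induction N with
        | zero => intro u f; simp
        | succ N ih =>
          intro u f
          rw [pow_succ', mul_apply_eq_comp, ContinuousLinearMap.adjoint_inner_right, ih,
            pow_succ, mul_apply_eq_comp]
      exact h2 N _ f
    rw [h1]
    ring

lemma Z1a_pow_norm (N : ℕ) (f : H2) : ‖(Z1.adjoint ^ N) f‖ ≤ ‖f‖ := by
  induction N with
  | zero => simp
  | succ N ih =>
    rw [pow_succ', mul_apply_eq_comp]
    refine le_trans ?_ ih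
    calc ‖Z1.adjoint ((Z1.adjoint ^ N) f)‖ ≤ ‖Z1.adjoint‖ * ‖(Z1.adjoint ^ N) f‖ :=
          Z1.adjoint.le_opNorm _
      _ ≤ 1 * ‖(Z1.adjoint ^ N) f‖ := by
          gcongr
          rw [LinearIsometryEquiv.norm_map]
          exact Z1.opNorm_le_bound zero_le_one fun f => by rw [Z1_norm_eq, one_mul]
      _ = _ := one_mul _

lemma prop_of_tc (t : H2) {a v v0 c : ℂ} (ha : ‖a‖ < 1) (hv : ‖v‖ < 1) (hv0 : ‖v0‖ < 1)
    (h : ∀ i, tc t v i = c * tc t v0 i) : ev t (a, v) = c * ev t (a, v0) := by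
  rw [← sub_eq_zero]
  have h1 : ∀ N : ℕ, ‖ev t (a, v) - c * ev t (a, v0)‖ ≤
      ‖a‖ ^ N * (‖sz (a, v)‖ * ‖t‖ + ‖c‖ * (‖sz (a, v0)‖ * ‖t‖)) := by
    intro N
    have m1 : (a, v) ∈ bidisk := ⟨ha, hv⟩
    have m2 : (a, v0) ∈ bidisk := ⟨ha, hv0⟩
    have e1 := ev_taylor t m1 N
    have e2 := ev_taylor t m2 N
    simp only at e1 e2
    have e3 : ∑ i ∈ Finset.range N, a ^ i * tc t v i = c * ∑ i ∈ Finset.range N, a ^ i * tc t v0 i := by
      rw [Finset.mul_sum]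
      refine Finset.sum_congr rfl fun i _ => ?_
      rw [h]; ring
    have e4 : ev t (a, v) - c * ev t (a, v0) =
        a ^ N * (ev ((Z1.adjoint ^ N) t) (a, v) - c * ev ((Z1.adjoint ^ N) t) (a, v0)) := by
      rw [e1, e2, e3]; ring
    have b : ∀ {w : ℂ × ℂ}, w ∈ bidisk → ‖ev ((Z1.adjoint ^ N) t) w‖ ≤ ‖sz w‖ * ‖t‖ := by
      intro w hw
      rw [← inner_sz _ hw]
      refine (norm_inner_le_norm _ _).trans ?_
      gcongr
      exact Z1a_pow_norm N t
    rw [e4, norm_mul, norm_pow]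
    refine mul_le_mul_of_nonneg_left ?_ (by positivity)
    refine (norm_sub_le _ _).trans ?_
    rw [norm_mul]
    gcongr
    · exact b m1
    · exact b m2
  have h2 : Tendsto (fun N : ℕ => ‖a‖ ^ N * (‖sz (a, v)‖ * ‖t‖ + ‖c‖ * (‖sz (a, v0)‖ * ‖t‖)))
      atTop (𝓝 (0 * (‖sz (a, v)‖ * ‖t‖ + ‖c‖ * (‖sz (a, v0)‖ * ‖t‖)))) :=
    (tendsto_pow_atTop_nhds_zero_of_lt_one (norm_nonneg a) ha).mul_const _
  rw [zero_mul] at h2
  have h3 := ge_of_tendsto h2 (Filter.Eventually.of_forall h1)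
  exact norm_le_zero_iff.1 h3

end Pool.Agent.K4H48.Agl
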