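import Pool.Agent.K4H48.Agl.Core

/-! Products of one-variable inner functions have reducing Agler subspaces; the symmetry exchanging
the variables. -/

set_option autoImplicit false

namespace Pool.Agent.K4H48.Agl

open Pool.Agent.R285.Ell2 Pool.Agent.R285.BiHardy Filter Topology MeasureTheory
open scoped ComplexConjugate

lemma inner1_fst {φ : ℂ → ℂ} (h : IsInner1 φ) : IsInner2 fun z => φ z.1 := by
  obtain ⟨hd, ⟨C, hC⟩, hae⟩ := h
  refine ⟨?_, ⟨C, fun z hz => hC _ (by rw [Metric.mem_ball, dist_zero_right]; exact hz.1)⟩, ?_⟩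
  · exact hd.comp differentiable_fst.differentiableOn fun z hz => by
      rw [Metric.mem_ball, dist_zero_right]; exact hz.1
  · exact Measure.quasiMeasurePreserving_fst.ae hae

lemma inner1_snd {φ : ℂ → ℂ} (h : IsInner1 φ) : IsInner2 fun z => φ z.2 := by
  obtain ⟨hd, ⟨C, hC⟩, hae⟩ := h
  refine ⟨?_, ⟨C, fun z hz => hC _ (by rw [Metric.mem_ball, dist_zero_right]; exact hz.2)⟩, ?_⟩
  · exact hd.comp differentiable_snd.differentiableOn fun z hz => by
      rw [Metric.mem_ball, dist_zero_right]; exact hz.2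
  · exact Measure.quasiMeasurePreserving_snd.ae hae

lemma posKer_PM {θ : ℂ × ℂ → ℂ} {M : H2 →L[ℂ] H2} (hM : MulOp θ M) :
    PosKer fun z w => (inner ℂ (sz z) (PM M (sz w)) : ℂ) :=
  posKer_op (PM_symm M) fun v => by rw [← hM.PM_norm_sq]; positivity

/-- multiplication by a function of the second variable commutes with the backward shift in the
first variable -/
lemma dcomm {ψ : ℂ → ℂ} {N : H2 →L[ℂ] H2} (hN : MulOp (fun z => ψ z.2) N) (f : H2) :
    N (Z1.adjoint f) = Z1.adjoint (N f) := by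
  have h1 : Z1 (N (Z1.adjoint f)) = Z1 (Z1.adjoint (N f)) := by
    rw [← sub_eq_zero]
    refine ev_inj _ fun z hz => ?_
    have e1 := ev_step f hz
    have e2 := ev_step (N f) hz
    rw [hN.ev_eq _ _ hz, hN.ev_eq _ _ (mem0 hz.2)] at e2
    simp only at e2
    rw [ev_sub _ _ hz, ev_Z1 _ hz, ev_Z1 _ hz, hN.ev_eq _ _ hz]
    linear_combination e2 - ψ z.2 * e1
  have h2 := congrArg Z1.adjoint h1
  rwa [Z1_adj_Z1, Z1_adj_Z1] at h2

lemma dcomm' {ψ : ℂ → ℂ} {N : H2 →L[ℂ] H2} (hN : MulOp (fun z => ψ z.2) N) (f : H2) :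
    N.adjoint (Z1 f) = Z1 (N.adjoint f) := by
  refine ext_left fun g => ?_
  have e1 := ContinuousLinearMap.adjoint_inner_left N g (Z1 f)
  have e2 := ContinuousLinearMap.adjoint_inner_right Z1 f (N g)
  have e3 := ContinuousLinearMap.adjoint_inner_left N (Z1.adjoint g) f
  have e4 := ContinuousLinearMap.adjoint_inner_right Z1 (N.adjoint f) g
  rw [e1, ← e2, ← dcomm hN, ← e3, e4]

/-- the first kernel -/
noncomputable def kA (ψ : ℂ → ℂ) (z w : ℂ × ℂ) : ℂ :=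
  (1 - ψ z.2 * conj (ψ w.2)) / (1 - z.2 * conj w.2)

/-- the second kernel -/
noncomputable def kB (φ ψ : ℂ → ℂ) (z w : ℂ × ℂ) : ℂ :=
  ψ z.2 * ((1 - φ z.1 * conj (φ w.1)) / (1 - z.1 * conj w.1)) * conj (ψ w.2)

lemma kA_pos {ψ : ℂ → ℂ} {N : H2 →L[ℂ] H2} (hN : MulOp (fun z => ψ z.2) N) : PosKer (kA ψ) := by
  refine ((posKer_PM hN).comap (u := fun z => (0, z.2)) fun z hz => mem0 hz.2).congr
    fun z hz w hw => ?_
  rw [hN.ker_PM (mem0 hz.2) (mem0 hw.2), kA]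
  have h1 := ev_sz (mem0 hz.2) (mem0 hw.2)
  simp only [zero_mul, sub_zero, one_mul] at h1
  rw [eq_inv_of_mul_eq_one_right h1]
  rfl

lemma kB_pos {φ ψ : ℂ → ℂ} {L : H2 →L[ℂ] H2} (hL : MulOp (fun z => φ z.1) L) :
    PosKer (kB φ ψ) := by
  have h0 : PosKer fun z w : ℂ × ℂ => (1 - φ z.1 * conj (φ w.1)) / (1 - z.1 * conj w.1) := by
    have m0 : ∀ {z : ℂ × ℂ}, z ∈ bidisk → (z.1, (0 : ℂ)) ∈ bidisk := fun hz => ⟨hz.1, by simp⟩
    refine ((posKer_PM hL).comap (u := fun z => (z.1, 0)) fun z hz => m0 hz).congr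
      fun z hz w hw => ?_
    rw [hL.ker_PM (m0 hz) (m0 hw)]
    have h1 := ev_sz (m0 hz) (m0 hw)
    simp only [zero_mul, sub_zero, mul_one] at h1
    rw [eq_inv_of_mul_eq_one_right h1]
    rfl
  exact h0.conjMul fun z => ψ z.2

section

variable {θ : ℂ × ℂ → ℂ} {φ ψ : ℂ → ℂ} {M N L : H2 →L[ℂ] H2}

lemma agler_prod (hN : MulOp (fun z => ψ z.2) N) (hL : MulOp (fun z => φ z.1) L)
    (hθ : ∀ z ∈ bidisk, θ z = φ z.1 * ψ z.2) : IsAgler θ (kA ψ) (kB φ ψ) := by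
  refine ⟨kA_pos hN, kB_pos hL, fun z hz w hw => ?_⟩
  have n1 := one_sub_ne hz.1 hw.1
  have n2 := one_sub_ne hz.2 hw.2
  rw [kA, kB, hθ z hz, hθ w hw, map_mul]
  field_simp
  ring

lemma kA_ker (hN : MulOp (fun z => ψ z.2) N) {z w : ℂ × ℂ} (hz : z ∈ bidisk) (hw : w ∈ bidisk) :
    ker1 (kA ψ) z w = inner ℂ (sz z) (PM N (sz w)) := by
  have n1 := one_sub_ne hz.1 hw.1
  have n2 := one_sub_ne hz.2 hw.2
  rw [hN.ker_PM hz hw, ker1, kA, eq_inv_of_mul_eq_one_right (ev_sz hz hw)]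
  field_simp

lemma kB_ker (hM : MulOp θ M) (hN : MulOp (fun z => ψ z.2) N)
    (hθ : ∀ z ∈ bidisk, θ z = φ z.1 * ψ z.2) {z w : ℂ × ℂ} (hz : z ∈ bidisk) (hw : w ∈ bidisk) :
    ker2 (kB φ ψ) z w = inner ℂ (sz z) ((PM M - PM N) (sz w)) := by
  have n1 := one_sub_ne hz.1 hw.1
  have n2 := one_sub_ne hz.2 hw.2
  rw [sub_apply, inner_sub_right, hM.ker_PM hz hw, hN.ker_PM hz hw, ker2, kB,
    eq_inv_of_mul_eq_one_right (ev_sz hz hw), hθ z hz, hθ w hw, map_mul]
  field_simp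
  ring

lemma memA (hN : MulOp (fun z => ψ z.2) N) (f : H2) :
    InRK (ker1 (kA ψ)) (ev f) ↔ N.adjoint f = 0 := by
  constructor
  · rintro ⟨C, hC, hp⟩
    refine hN.mem_of_dom (C := C) (hp.congr fun z hz w hw => ?_)
    rw [kA_ker hN hz hw]
  · intro h
    refine ⟨‖f‖ ^ 2, by positivity, ?_⟩
    have h1 := aron_conv (Q := PM N) (C := ‖f‖ ^ 2) (f := f) (PM_symm N) (fun v => by
      rw [← PM_inner h, ← hN.PM_norm_sq]
      calc ‖(inner ℂ (PM N v) f : ℂ)‖ ^ 2 ≤ (‖PM N v‖ * ‖f‖) ^ 2 := by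
            gcongr; exact norm_inner_le_norm _ _
        _ = ‖f‖ ^ 2 * ‖PM N v‖ ^ 2 := by ring)
    exact h1.congr fun z hz w hw => by rw [kA_ker hN hz hw]

lemma M_eq (hM : MulOp θ M) (hN : MulOp (fun z => ψ z.2) N) (hL : MulOp (fun z => φ z.1) L)
    (hθ : ∀ z ∈ bidisk, θ z = φ z.1 * ψ z.2) (f : H2) : M f = N (L f) := by
  rw [← sub_eq_zero]
  refine ev_inj _ fun z hz => ?_
  rw [ev_sub _ _ hz, hM.ev_eq _ _ hz, hN.ev_eq _ _ hz, hL.ev_eq _ _ hz, hθ z hz]
  ring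

lemma M_adj (hM : MulOp θ M) (hN : MulOp (fun z => ψ z.2) N) (hL : MulOp (fun z => φ z.1) L)
    (hθ : ∀ z ∈ bidisk, θ z = φ z.1 * ψ z.2) (f : H2) :
    M.adjoint f = L.adjoint (N.adjoint f) := by
  refine ext_left fun g => ?_
  rw [ContinuousLinearMap.adjoint_inner_left, M_eq hM hN hL hθ,
    ContinuousLinearMap.adjoint_inner_left, ContinuousLinearMap.adjoint_inner_left]

lemma PMPN (hM : MulOp θ M) (hN : MulOp (fun z => ψ z.2) N) (hL : MulOp (fun z => φ z.1) L)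
    (hθ : ∀ z ∈ bidisk, θ z = φ z.1 * ψ z.2) (f : H2) : PM M (PM N f) = PM N f :=
  PM_fix (by rw [M_adj hM hN hL hθ, hN.adj_PM, map_zero])

lemma PNPM (hM : MulOp θ M) (hN : MulOp (fun z => ψ z.2) N) (hL : MulOp (fun z => φ z.1) L)
    (hθ : ∀ z ∈ bidisk, θ z = φ z.1 * ψ z.2) (f : H2) : PM N (PM M f) = PM N f := by
  refine ext_left fun g => ?_
  rw [PM_symm, PM_symm, PMPN hM hN hL hθ, PM_symm]

lemma memB (hM : MulOp θ M) (hN : MulOp (fun z => ψ z.2) N) (hL : MulOp (fun z => φ z.1) L)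
    (hθ : ∀ z ∈ bidisk, θ z = φ z.1 * ψ z.2) (f : H2) :
    InRK (ker2 (kB φ ψ)) (ev f) ↔ M.adjoint f = 0 ∧ PM N f = 0 := by
  have hQs : ∀ u v : H2, (inner ℂ ((PM M - PM N) u) v : ℂ) = inner ℂ u ((PM M - PM N) v) := by
    intro u v
    rw [sub_apply, sub_apply, inner_sub_left,
      inner_sub_right, PM_symm, PM_symm]
  constructor
  · rintro ⟨C, hC, hp⟩
    have hp' := hp.congr (k' := fun z w => (C : ℂ) * inner ℂ (sz z) ((PM M - PM N) (sz w)) -
      ev f z * conj (ev f w)) (fun z hz w hw => by rw [kB_ker hM hN hθ hz hw])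
    refine ⟨inRK_mem2 hM (agler_prod hN hL hθ) ⟨C, hC, hp⟩, ?_⟩
    have h1 := aron hp' (PM N f)
    have h2 : (PM M - PM N) (PM N f) = 0 := by
      rw [sub_apply, PMPN hM hN hL hθ, PM_fix (hN.adj_PM f), sub_self]
    have h3 : (inner ℂ (PM N f) f : ℂ) = ((‖PM N f‖ ^ 2 : ℝ) : ℂ) := by
      rw [PM_symm]
      have h4 := hN.PM_norm_sq f
      have h5 : (inner ℂ f (PM N f) : ℂ) = inner ℂ (PM N f) (PM N f) := by
        rw [PM_symm N f (PM N f), PM_fix (hN.adj_PM f)]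
      rw [h5, inner_self_eq_norm_sq_to_K]
      norm_cast
    rw [h2, inner_zero_right, Complex.zero_re, mul_zero, h3, Complex.norm_real, norm_pow,
      norm_norm] at h1
    have h6 := norm_nonneg (PM N f)
    have h7 : ‖PM N f‖ = 0 := by
      by_contra hne
      have h8 : 0 < ‖PM N f‖ := lt_of_le_of_ne h6 (Ne.symm hne)
      have h9 : 0 < (‖PM N f‖ ^ 2) ^ 2 := by positivity
      linarith
    exact norm_eq_zero.1 h7
  · rintro ⟨h1, h2⟩
    refine ⟨‖f‖ ^ 2, by positivity, ?_⟩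
    have h3 : (PM M - PM N) f = f := by
      rw [sub_apply, PM_fix h1, h2, sub_zero]
    have h4 : ∀ v, ‖(PM M - PM N) v‖ ^ 2 = (inner ℂ v ((PM M - PM N) v) : ℂ).re := by
      intro v
      have h5 : (PM M - PM N) ((PM M - PM N) v) = (PM M - PM N) v := by
        rw [sub_apply, sub_apply, map_sub, map_sub,
          PMPN hM hN hL hθ, PNPM hM hN hL hθ, PM_fix (hM.adj_PM v), PM_fix (hN.adj_PM v)]
        abel
      have h6 : (inner ℂ v ((PM M - PM N) v) : ℂ) =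
          inner ℂ ((PM M - PM N) v) ((PM M - PM N) v) := by
        rw [hQs, h5]
      rw [h6, inner_self_eq_norm_sq_to_K]
      norm_cast
    have h7 := aron_conv (Q := PM M - PM N) (C := ‖f‖ ^ 2) (f := f) hQs (fun v => by
      have h8 : (inner ℂ v f : ℂ) = inner ℂ ((PM M - PM N) v) f := by rw [hQs, h3]
      rw [h8, ← h4]
      calc ‖(inner ℂ ((PM M - PM N) v) f : ℂ)‖ ^ 2 ≤ (‖(PM M - PM N) v‖ * ‖f‖) ^ 2 := by
            gcongr; exact norm_inner_le_norm _ _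
        _ = ‖f‖ ^ 2 * ‖(PM M - PM N) v‖ ^ 2 := by ring)
    exact h7.congr fun z hz w hw => by rw [kB_ker hM hN hθ hz hw]

end

/-- products have closed reducing Agler subspaces -/
theorem if_part {θ : ℂ × ℂ → ℂ} (hθ : IsInner2 θ) (hp : IsProd θ) : HasReducingClosed θ 0 := by
  obtain ⟨φ, ψ, hφ, hψ, hfac⟩ := hp
  obtain ⟨M, m1, m2⟩ := exists_mul hθ
  obtain ⟨N, n1, n2⟩ := exists_mul (inner1_snd hψ)
  obtain ⟨L, l1, l2⟩ := exists_mul (inner1_fst hφ)
  have hM : MulOp θ M := ⟨m1, m2⟩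
  have hN : MulOp (fun z => ψ z.2) N := ⟨n1, n2⟩
  have hL : MulOp (fun z => φ z.1) L := ⟨l1, l2⟩
  have e1 : S1 θ (kA ψ) = {f : Kth θ | N.adjoint (f : H2) = 0} := by
    ext f; exact memA hN f
  have e2 : S2 θ (kB φ ψ) = {f : Kth θ | PM N (f : H2) = 0} := by
    ext f
    refine (memB hM hN hL hfac f).trans ⟨fun h => h.2, fun h => ⟨(mem_Kth hM _).1 f.2, h⟩⟩
  have hc : ∀ f : Kth θ, ((shift θ 0 f : Kth θ) : H2) = PM M (Z1 f) := fun f => cmpr_coe hM Z1 f
  have ha : ∀ f : Kth θ, (((shift θ 0).adjoint f : Kth θ) : H2) = Z1.adjoint f := fun f =>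
    cmpr_adj hM Z1 hM.comm1_adj f
  have hψd : DifferentiableOn ℂ (fun z : ℂ × ℂ => ψ z.2) bidisk := (inner1_snd hψ).1
  have hφd : DifferentiableOn ℂ (fun z : ℂ × ℂ => φ z.1) bidisk := (inner1_fst hφ).1
  refine ⟨kA ψ, kB φ ψ, agler_prod hN hL hfac, ?_, ?_, ?_, ?_, ?_, ?_, ?_⟩
  · intro w hw
    have d1 : DifferentiableOn ℂ (fun z : ℂ × ℂ => 1 - ψ z.2 * conj (ψ w.2)) bidisk :=
      (differentiableOn_const _).sub (hψd.mul_const _)
    have d2 : DifferentiableOn ℂ (fun z : ℂ × ℂ => 1 - z.2 * conj w.2) bidisk :=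
      (differentiableOn_const _).sub (differentiable_snd.differentiableOn.mul_const _)
    exact (d1.mul (d2.inv fun z hz => one_sub_ne hz.2 hw.2)).congr fun z _ => div_eq_mul_inv _ _
  · intro w hw
    have d1 : DifferentiableOn ℂ (fun z : ℂ × ℂ => 1 - φ z.1 * conj (φ w.1)) bidisk :=
      (differentiableOn_const _).sub (hφd.mul_const _)
    have d2 : DifferentiableOn ℂ (fun z : ℂ × ℂ => 1 - z.1 * conj w.1) bidisk :=
      (differentiableOn_const _).sub (differentiable_fst.differentiableOn.mul_const _)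
    have d3 : DifferentiableOn ℂ (fun z : ℂ × ℂ =>
        (1 - φ z.1 * conj (φ w.1)) / (1 - z.1 * conj w.1)) bidisk :=
      (d1.mul (d2.inv fun z hz => one_sub_ne hz.1 hw.1)).congr fun z _ => div_eq_mul_inv _ _
    exact (hψd.mul d3).mul_const _
  · rw [e1]
    exact isClosed_eq (by fun_prop) continuous_const
  · rw [e2]
    exact isClosed_eq (by fun_prop) continuous_const
  · rw [e1, e2]
    intro f hf g hg
    have h1 : (inner ℂ f g : ℂ) = inner ℂ (f : H2) (g : H2) := rfl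
    have h2 : (g : H2) = N (N.adjoint g) := by
      have := hg
      simp only [Set.mem_ofPred_eq, PM_apply] at this
      exact sub_eq_zero.1 this
    rw [h1, h2, ← ContinuousLinearMap.adjoint_inner_left]
    rw [show N.adjoint (f : H2) = 0 from hf, inner_zero_left]
  · rw [e1]
    intro f hf
    have hf' : N.adjoint (f : H2) = 0 := hf
    have h1 : N.adjoint (Z1 (f : H2)) = 0 := by rw [dcomm' hN, hf', map_zero]
    constructor
    · change N.adjoint ((shift θ 0 f : Kth θ) : H2) = 0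
      rw [hc, PM_fix (by rw [M_adj hM hN hL hfac, h1, map_zero]), h1]
    · change N.adjoint (((shift θ 0).adjoint f : Kth θ) : H2) = 0
      rw [ha, hN.comm1_adj, hf', map_zero]
  · rw [e2]
    intro f hf
    have hf' : PM N (f : H2) = 0 := hf
    constructor
    · change PM N ((shift θ 0 f : Kth θ) : H2) = 0
      rw [hc, PNPM hM hN hL hfac, PM_apply, dcomm' hN, hN.comm1, ← map_sub, ← PM_apply, hf',
        map_zero]
    · change PM N (((shift θ 0).adjoint f : Kth θ) : H2) = 0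
      rw [ha, PM_apply, hN.comm1_adj, dcomm hN, ← map_sub, ← PM_apply, hf', map_zero]

/-! ### exchanging the variables -/

lemma swap_mem {z : ℂ × ℂ} (hz : z ∈ bidisk) : z.swap ∈ bidisk := ⟨hz.2, hz.1⟩

lemma inner_swap {θ : ℂ × ℂ → ℂ} (h : IsInner2 θ) : IsInner2 fun z => θ z.swap := by
  obtain ⟨hd, ⟨C, hC⟩, hae⟩ := h
  refine ⟨?_, ⟨C, fun z hz => hC _ (swap_mem hz)⟩, ?_⟩
  · have h1 : Differentiable ℂ fun z : ℂ × ℂ => z.swap :=
      differentiable_snd.prodMk differentiable_fst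
    exact hd.comp h1.differentiableOn fun z hz => swap_mem hz
  · exact (Measure.measurePreserving_swap (μ := (volume : Measure ℝ))
      (ν := (volume : Measure ℝ))).quasiMeasurePreserving.ae hae

lemma exists_swap : ∃ U : H2 →L[ℂ] H2, ∀ f (n : ℕ × ℕ), U f n = f n.swap :=
  exists_bwd (e := Prod.swap) Prod.swap_injective

/-- exchange of the variables -/
noncomputable def U : H2 →L[ℂ] H2 := exists_swap.choose

lemma U_apply (f : H2) (n : ℕ × ℕ) : U f n = f n.swap := exists_swap.choose_spec f n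

lemma ev_U (f : H2) (z : ℂ × ℂ) : ev (U f) z = ev f z.swap := by
  unfold ev
  rw [← (Equiv.prodComm ℕ ℕ).tsum_eq]
  refine tsum_congr fun n => ?_
  rw [U_apply, Equiv.prodComm_apply, Prod.swap_swap, Prod.fst_swap, Prod.snd_swap, Prod.fst_swap,
    Prod.snd_swap]
  ring

lemma U_Z1a (f : H2) : U (Z1.adjoint f) = Z2.adjoint (U f) := by
  refine lp.ext (funext fun n => ?_)
  rw [U_apply, Z1_adj, Z2_adj, U_apply]
  rfl

/-- the main step for the second variable -/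
theorem core2 {θ : ℂ × ℂ → ℂ} (hθ : IsInner2 θ) {K1 K2 : ℂ × ℂ → ℂ × ℂ → ℂ}
    (hA : IsAgler θ K1 K2)
    (hS : ∀ f : H2, InRK (ker2 K2) (ev f) → InRK (ker2 K2) (ev (Z2.adjoint f))) : IsProd θ := by
  have hA' : IsAgler (fun z => θ z.swap) (fun z w => K2 z.swap w.swap)
      (fun z w => K1 z.swap w.swap) := by
    refine ⟨hA.2.1.comap (u := Prod.swap) fun z hz => swap_mem hz,
      hA.1.comap (u := Prod.swap) fun z hz => swap_mem hz, fun z hz w hw => ?_⟩
    have h1 := hA.2.2 z.swap (swap_mem hz) w.swap (swap_mem hw)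
    simp only [Prod.fst_swap, Prod.snd_swap] at h1
    rw [h1]
    ring
  have key : ∀ f : H2, InRK (ker1 fun z w => K2 z.swap w.swap) (ev f) ↔
      InRK (ker2 K2) (ev (U f)) := by
    intro f
    constructor
    · rintro ⟨C, hC, hp⟩
      refine ⟨C, hC, (hp.comap (u := Prod.swap) fun z hz => swap_mem hz).congr
        fun z hz w hw => ?_⟩
      rw [ev_U, ev_U]
      rfl
    · rintro ⟨C, hC, hp⟩
      refine ⟨C, hC, (hp.comap (u := Prod.swap) fun z hz => swap_mem hz).congr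
        fun z hz w hw => ?_⟩
      rw [ev_U, ev_U, Prod.swap_swap, Prod.swap_swap]
      rfl
  obtain ⟨φ, ψ, h1, h2, h3⟩ := core (inner_swap hθ) hA' (fun f hf => by
    rw [key] at hf ⊢
    rw [U_Z1a]
    exact hS _ hf)
  refine ⟨ψ, φ, h2, h1, fun z hz => ?_⟩
  have h4 := h3 z.swap (swap_mem hz)
  simp only [Prod.swap_swap, Prod.fst_swap, Prod.snd_swap] at h4
  rw [h4]
  ring

/-- the only-if part -/
theorem only_if {θ : ℂ × ℂ → ℂ} (hθ : IsInner2 θ) {j : Fin 2} (h : HasReducing θ j) :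
    IsProd θ := by
  obtain ⟨M, m1, m2⟩ := exists_mul hθ
  have hM : MulOp θ M := ⟨m1, m2⟩
  obtain ⟨K1, K2, hA, i1, i2⟩ := h
  rcases Fin.exists_fin_two.1 ⟨j, rfl⟩ with hj | hj
  · subst hj
    refine core hθ hA fun f hf => ?_
    have hf' : f ∈ Kth θ := (mem_Kth hM f).2 (inRK_mem hM hA hf)
    have h1 := (i1 ⟨f, hf'⟩ hf).2
    have h2 : (((shift θ 0).adjoint (⟨f, hf'⟩ : Kth θ) : Kth θ) : H2) = Z1.adjoint f :=
      cmpr_adj hM Z1 hM.comm1_adj ⟨f, hf'⟩
    have h3 : InRK (ker1 K1) (ev (((shift θ 0).adjoint (⟨f, hf'⟩ : Kth θ) : Kth θ) : H2)) := h1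
    rwa [h2] at h3
  · subst hj
    refine core2 hθ hA fun f hf => ?_
    have hf' : f ∈ Kth θ := (mem_Kth hM f).2 (inRK_mem2 hM hA hf)
    have h1 := (i2 ⟨f, hf'⟩ hf).2
    have h2 : (((shift θ 1).adjoint (⟨f, hf'⟩ : Kth θ) : Kth θ) : H2) = Z2.adjoint f :=
      cmpr_adj hM Z2 hM.comm2_adj ⟨f, hf'⟩
    have h3 : InRK (ker2 K2) (ev (((shift θ 1).adjoint (⟨f, hf'⟩ : Kth θ) : Kth θ) : H2)) := h1
    rwa [h2] at h3

lemma HasReducingClosed.weak {θ : ℂ × ℂ → ℂ} {j : Fin 2} (h : HasReducingClosed θ j) :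
    HasReducing θ j := by
  obtain ⟨K1, K2, hA, -, -, -, -, -, i1, i2⟩ := h
  exact ⟨K1, K2, hA, i1, i2⟩

/-- the characterisation -/
theorem agler_char (θ : ℂ × ℂ → ℂ) (hθ : IsInner2 θ) :
    List.TFAE [HasReducing θ 0 ∨ HasReducing θ 1,
      HasReducingClosed θ 0 ∨ HasReducingClosed θ 1, IsProd θ] := by
  tfae_have 1 → 3 := by
    rintro (h | h) <;> exact only_if hθ h
  tfae_have 3 → 2 := fun h => Or.inl (if_part hθ h)
  tfae_have 2 → 1 := by
    rintro (h | h)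
    · exact Or.inl h.weak
    · exact Or.inr h.weak
  tfae_finish

end Pool.Agent.K4H48.Agl
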