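import Pool.Agent.R285.BiHardy

/-! Kernel functions of the Hardy space of the bidisk, and positive kernels. -/

set_option autoImplicit false

namespace Pool.Agent.K4H48.Agl

open Pool.Agent.R285.Ell2 Pool.Agent.R285.BiHardy Matrix ComplexOrder
open scoped ComplexConjugate

/-! ### Szegő kernel functions -/

lemma sz_summable {w : ℂ × ℂ} (hw : w ∈ bidisk) :
    Summable fun n : ℕ × ℕ => ‖conj (w.1 ^ n.1 * w.2 ^ n.2)‖ ^ 2 := by
  have h1 : ‖w.1‖ ^ 2 < 1 := by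
    have := hw.1
    have h0 := norm_nonneg w.1
    nlinarith
  have h2 : ‖w.2‖ ^ 2 < 1 := by
    have := hw.2
    have h0 := norm_nonneg w.2
    nlinarith
  have h := (summable_geometric_of_lt_one (by positivity) h1).mul_of_nonneg
    (summable_geometric_of_lt_one (by positivity) h2) (fun n => by positivity)
    (fun n => by positivity)
  refine h.congr fun n => ?_
  rw [RCLike.norm_conj, norm_mul, norm_pow, norm_pow]
  ring

lemma exists_sz (w : ℂ × ℂ) : ∃ f : H2, w ∈ bidisk → ∀ n, f n = conj (w.1 ^ n.1 * w.2 ^ n.2) := by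
  by_cases hw : w ∈ bidisk
  · obtain ⟨f, hf⟩ := exists_mk _ (sz_summable hw)
    exact ⟨f, fun _ => hf⟩
  · exact ⟨0, fun h => absurd h hw⟩

/-- the Szegő kernel function at `w` -/
noncomputable def sz (w : ℂ × ℂ) : H2 := (exists_sz w).choose

lemma sz_apply {w : ℂ × ℂ} (hw : w ∈ bidisk) (n : ℕ × ℕ) :
    sz w n = conj (w.1 ^ n.1 * w.2 ^ n.2) := (exists_sz w).choose_spec hw n

lemma inner_sz (f : H2) {w : ℂ × ℂ} (hw : w ∈ bidisk) : inner ℂ (sz w) f = ev f w := by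
  rw [inner_eq, ev]
  refine tsum_congr fun n => ?_
  rw [sz_apply hw, Complex.conj_conj]

lemma inner_sz' (f : H2) {w : ℂ × ℂ} (hw : w ∈ bidisk) : inner ℂ f (sz w) = conj (ev f w) := by
  rw [← inner_sz f hw, inner_conj_symm]

/-- the Szegő kernel -/
lemma ev_sz {z w : ℂ × ℂ} (hz : z ∈ bidisk) (hw : w ∈ bidisk) :
    (1 - z.1 * conj w.1) * (1 - z.2 * conj w.2) * ev (sz w) z = 1 := by
  have h1 : ‖z.1 * conj w.1‖ < 1 := by
    rw [norm_mul, RCLike.norm_conj]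
    have := hw.1
    have := hz.1
    nlinarith [norm_nonneg z.1, norm_nonneg w.1]
  have h2 : ‖z.2 * conj w.2‖ < 1 := by
    rw [norm_mul, RCLike.norm_conj]
    have := hw.2
    have := hz.2
    nlinarith [norm_nonneg z.2, norm_nonneg w.2]
  have e : ev (sz w) z = (∑' n : ℕ, (z.1 * conj w.1) ^ n) * ∑' n : ℕ, (z.2 * conj w.2) ^ n := by
    rw [tsum_mul_tsum_of_summable_norm (summable_norm_geometric_of_norm_lt_one h1)
      (summable_norm_geometric_of_norm_lt_one h2), ev]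
    refine tsum_congr fun n => ?_
    rw [sz_apply hw, map_mul, map_pow, map_pow]
    ring
  rw [e, tsum_geometric_of_norm_lt_one h1, tsum_geometric_of_norm_lt_one h2]
  have n1 : 1 - z.1 * conj w.1 ≠ 0 := by
    intro h
    have : z.1 * conj w.1 = 1 := (sub_eq_zero.1 h).symm
    rw [this] at h1
    simp at h1
  have n2 : 1 - z.2 * conj w.2 ≠ 0 := by
    intro h
    have : z.2 * conj w.2 = 1 := (sub_eq_zero.1 h).symm
    rw [this] at h2
    simp at h2
  field_simp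

lemma one_sub_ne {a b : ℂ} (ha : ‖a‖ < 1) (hb : ‖b‖ < 1) : 1 - a * conj b ≠ 0 := by
  intro h
  have h1 : a * conj b = 1 := (sub_eq_zero.1 h).symm
  have h2 : ‖a * conj b‖ < 1 := by
    rw [norm_mul, RCLike.norm_conj]
    nlinarith [norm_nonneg a, norm_nonneg b]
  rw [h1] at h2
  simp at h2

/-! ### Positive kernels -/

/-- positive kernels on the bidisk: all matrices `(k (z i) (z j))` are positive semidefinite -/
def PosKer (k : ℂ × ℂ → ℂ × ℂ → ℂ) : Prop :=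
  ∀ (n : ℕ) (z : Fin n → ℂ × ℂ), (∀ i, z i ∈ bidisk) →
    (Matrix.of fun i j => k (z i) (z j)).PosSemidef

lemma PosKer.fam {k : ℂ × ℂ → ℂ × ℂ → ℂ} (h : PosKer k) {ι : Type*} [Fintype ι] (z : ι → ℂ × ℂ)
    (hz : ∀ i, z i ∈ bidisk) : (Matrix.of fun i j => k (z i) (z j)).PosSemidef := by
  classical
  have h1 := h (Fintype.card ι) (fun i => z ((Fintype.equivFin ι).symm i)) (fun i => hz _)
  have h2 := h1.submatrix (Fintype.equivFin ι)
  convert h2 using 1
  ext i j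
  simp

lemma PosKer.congr {k k' : ℂ × ℂ → ℂ × ℂ → ℂ} (h : PosKer k)
    (he : ∀ z ∈ bidisk, ∀ w ∈ bidisk, k z w = k' z w) : PosKer k' := by
  intro n z hz
  have h1 := h n z hz
  convert h1 using 1
  ext i j
  exact (he _ (hz i) _ (hz j)).symm

lemma PosKer.add {k k' : ℂ × ℂ → ℂ × ℂ → ℂ} (h : PosKer k) (h' : PosKer k') :
    PosKer fun z w => k z w + k' z w := fun n z hz => (h n z hz).add (h' n z hz)

/-- the product of a positive kernel with a rank one kernel is positive -/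
lemma PosKer.conjMul {k : ℂ × ℂ → ℂ × ℂ → ℂ} (h : PosKer k) (g : ℂ × ℂ → ℂ) :
    PosKer fun z w => g z * k z w * conj (g w) := by
  intro n z hz
  have h1 := (h n z hz).mul_mul_conjTranspose_same (Matrix.diagonal fun i => g (z i))
  convert h1 using 1
  ext i j
  simp [Matrix.mul_apply, Matrix.diagonal_apply]

lemma PosKer.smul {k : ℂ × ℂ → ℂ × ℂ → ℂ} (h : PosKer k) {c : ℝ} (hc : 0 ≤ c) :
    PosKer fun z w => (c : ℂ) * k z w := by
  have h1 := h.conjMul fun _ => ((√c : ℝ) : ℂ)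
  refine h1.congr fun z _ w _ => ?_
  rw [Complex.conj_ofReal, mul_comm, ← mul_assoc, ← Complex.ofReal_mul, Real.mul_self_sqrt hc]

lemma PosKer.symm {k : ℂ × ℂ → ℂ × ℂ → ℂ} (h : PosKer k) {z w : ℂ × ℂ} (hz : z ∈ bidisk)
    (hw : w ∈ bidisk) : conj (k w z) = k z w := by
  have h1 := (h 2 ![z, w] (fun i => by fin_cases i <;> simpa)).isHermitian
  have h2 := congrFun (congrFun h1 0) 1
  simpa using h2

/-- quadratic form of a kernel on finitely supported functions -/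
noncomputable def qf {ι : Type*} [Fintype ι] (k : ℂ × ℂ → ℂ × ℂ → ℂ) (z : ι → ℂ × ℂ)
    (x y : ι → ℂ) : ℂ := ∑ i, ∑ j, conj (x i) * k (z i) (z j) * y j

lemma qf_eq {ι : Type*} [Fintype ι] (k : ℂ × ℂ → ℂ × ℂ → ℂ) (z : ι → ℂ × ℂ) (x y : ι → ℂ) :
    qf k z x y = star x ⬝ᵥ ((Matrix.of fun i j => k (z i) (z j)) *ᵥ y) := by
  unfold qf dotProduct Matrix.mulVec dotProduct
  refine Finset.sum_congr rfl fun i _ => ?_
  rw [Finset.mul_sum]
  refine Finset.sum_congr rfl fun j _ => ?_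
  simp [mul_assoc]

lemma PosKer.qf_nonneg {k : ℂ × ℂ → ℂ × ℂ → ℂ} (h : PosKer k) {ι : Type*} [Fintype ι]
    (z : ι → ℂ × ℂ) (hz : ∀ i, z i ∈ bidisk) (x : ι → ℂ) : 0 ≤ qf k z x x := by
  rw [qf_eq]
  exact (h.fam z hz).dotProduct_mulVec_nonneg x

/-- a Hermitian kernel with nonnegative quadratic forms is positive -/
lemma posKer_of_qf {k : ℂ × ℂ → ℂ × ℂ → ℂ}
    (hs : ∀ z ∈ bidisk, ∀ w ∈ bidisk, conj (k w z) = k z w)
    (hq : ∀ (n : ℕ) (z : Fin n → ℂ × ℂ), (∀ i, z i ∈ bidisk) → ∀ x : Fin n → ℂ,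
      0 ≤ (qf k z x x).re) : PosKer k := by
  intro n z hz
  have hH : (Matrix.of fun i j => k (z i) (z j)).IsHermitian := by
    ext i j
    simp only [Matrix.conjTranspose_apply, Matrix.of_apply]
    exact hs _ (hz i) _ (hz j)
  refine Matrix.PosSemidef.of_dotProduct_mulVec_nonneg hH fun x => ?_
  rw [← qf_eq]
  have him : (qf k z x x).im = 0 := by
    rw [← Complex.conj_eq_iff_im]
    unfold qf
    rw [map_sum, Finset.sum_comm]
    refine Finset.sum_congr rfl fun i _ => ?_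
    rw [map_sum]
    refine Finset.sum_congr rfl fun j _ => ?_
    rw [map_mul, map_mul, Complex.conj_conj, hs _ (hz _) _ (hz _)]
    ring
  rw [Complex.nonneg_iff]
  exact ⟨hq n z hz x, him.symm⟩

lemma psd_cs {n : Type*} [Fintype n] {M : Matrix n n ℂ} (hM : M.PosSemidef) (x y : n → ℂ) :
    ‖star x ⬝ᵥ (M *ᵥ y)‖ ^ 2 ≤ (star x ⬝ᵥ (M *ᵥ x)).re * (star y ⬝ᵥ (M *ᵥ y)).re := by
  let c : PreInnerProductSpace.Core ℂ (n → ℂ) :=
    { inner := fun x y => star x ⬝ᵥ (M *ᵥ y)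
      conj_inner_symm := fun x y => by
        have h1 : star (star y ⬝ᵥ (M *ᵥ x)) = star x ⬝ᵥ (M *ᵥ y) := by
          rw [star_dotProduct, star_star, star_mulVec, hM.isHermitian.eq, ← dotProduct_mulVec]
        exact h1
      re_inner_nonneg := fun x => (Complex.nonneg_iff.1 (hM.dotProduct_mulVec_nonneg x)).1
      add_left := fun x y z => by simp [add_dotProduct]
      smul_left := fun x y r => by simp [star_smul, smul_dotProduct] }
  have h := @InnerProductSpace.Core.inner_mul_inner_self_le ℂ (n → ℂ) _ _ _ c x y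
  have h2 : ‖star y ⬝ᵥ (M *ᵥ x)‖ = ‖star x ⬝ᵥ (M *ᵥ y)‖ := by
    have h1 : star (star y ⬝ᵥ (M *ᵥ x)) = star x ⬝ᵥ (M *ᵥ y) := by
      rw [star_dotProduct, star_star, star_mulVec, hM.isHermitian.eq, ← dotProduct_mulVec]
    rw [← h1, norm_star]
  rw [sq]
  calc ‖star x ⬝ᵥ (M *ᵥ y)‖ * ‖star x ⬝ᵥ (M *ᵥ y)‖
      = ‖star x ⬝ᵥ (M *ᵥ y)‖ * ‖star y ⬝ᵥ (M *ᵥ x)‖ := by rw [h2]
    _ ≤ _ := h

lemma PosKer.cs {k : ℂ × ℂ → ℂ × ℂ → ℂ} (h : PosKer k) {ι : Type*} [Fintype ι]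
    (z : ι → ℂ × ℂ) (hz : ∀ i, z i ∈ bidisk) (x y : ι → ℂ) :
    ‖qf k z x y‖ ^ 2 ≤ (qf k z x x).re * (qf k z y y).re := by
  rw [qf_eq, qf_eq, qf_eq]
  exact psd_cs (h.fam z hz) x y

end Pool.Agent.K4H48.Agl
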