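import Pool.Agent.K4H48.Agl.Par

/-! Inner functions and their multiplication operators. -/

set_option autoImplicit false

namespace Pool.Agent.K4H48.Agl

open Pool.Agent.R285.Ell2 Pool.Agent.R285.BiHardy Filter Topology MeasureTheory
open scoped ComplexConjugate Real

/-- inner functions on the disc -/
def IsInner1 (φ : ℂ → ℂ) : Prop :=
  DifferentiableOn ℂ φ (Metric.ball 0 1) ∧ (∃ C : ℝ, ∀ z ∈ Metric.ball (0 : ℂ) 1, ‖φ z‖ ≤ C) ∧
  ∀ᵐ s : ℝ, Tendsto (fun r : ℝ => ‖φ (r * Complex.exp (Complex.I * s))‖) (𝓝[<] 1) (𝓝 1)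

/-- inner functions on the bidisk -/
def IsInner2 (θ : ℂ × ℂ → ℂ) : Prop :=
  DifferentiableOn ℂ θ bidisk ∧ (∃ C : ℝ, ∀ z ∈ bidisk, ‖θ z‖ ≤ C) ∧
  ∀ᵐ p : ℝ × ℝ, Tendsto (fun r : ℝ =>
    ‖θ (r * Complex.exp (Complex.I * p.1), r * Complex.exp (Complex.I * p.2))‖) (𝓝[<] 1) (𝓝 1)

/-- the circle of radius `r` -/
noncomputable def rt (r : ℝ) (p : ℝ × ℝ) : ℂ × ℂ :=
  (r * Complex.exp (Complex.I * p.1), r * Complex.exp (Complex.I * p.2))

lemma rt_mem {r : ℝ} (h0 : 0 ≤ r) (h1 : r < 1) (p : ℝ × ℝ) : rt r p ∈ bidisk := by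
  have h : ∀ s : ℝ, ‖(r : ℂ) * Complex.exp (Complex.I * s)‖ < 1 := by
    intro s
    rw [norm_mul, norm_exp_I, mul_one, Complex.norm_real, Real.norm_eq_abs, abs_of_nonneg h0]
    exact h1
  exact ⟨h _, h _⟩

lemma rt_cont (r : ℝ) : Continuous (rt r) := by unfold rt; fun_prop

lemma rt_one (p : ℝ × ℝ) : rt 1 p = tor p := by simp [rt, tor]

lemma rt_tendsto (p : ℝ × ℝ) : Tendsto (fun r : ℝ => rt r p) (𝓝[<] 1) (𝓝 (tor p)) := by
  have hc : Continuous (fun r : ℝ => rt r p) := by unfold rt; fun_prop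
  have h := (hc.tendsto 1).mono_left (nhdsWithin_le_nhds (s := Set.Iio 1))
  rwa [rt_one] at h

lemma mon_rt (n : ℕ × ℕ) (r : ℝ) (p : ℝ × ℝ) :
    mon n (rt r p) = (r : ℂ) ^ (n.1 + n.2) * mon n (tor p) := by
  simp only [mon, rt, tor, mul_pow, pow_add]
  ring

lemma near_one : ∀ᶠ r : ℝ in 𝓝[<] 1, 0 ≤ r ∧ r < 1 := by
  have h0 : ∀ᶠ r : ℝ in 𝓝[<] 1, 0 < r :=
    nhdsWithin_le_nhds (lt_mem_nhds (by norm_num : (0:ℝ) < 1))
  filter_upwards [h0, self_mem_nhdsWithin] with r h1 h2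
  exact ⟨h1.le, h2⟩

lemma par_r {c : ℕ × ℕ → ℂ} {C : ℝ} (hc : ∀ n, ‖c n‖ ≤ C) {g : ℂ × ℂ → ℂ}
    (hg : ∀ z ∈ bidisk, HasSum (fun n => c n * mon n z) (g z)) {r : ℝ} (h0 : 0 ≤ r) (h1 : r < 1) :
    (Summable fun n : ℕ × ℕ => ‖c n‖ ^ 2 * r ^ (2 * (n.1 + n.2))) ∧
    ∫ p, ‖g (rt r p)‖ ^ 2 ∂sq = (2 * π) ^ 2 * ∑' n : ℕ × ℕ, ‖c n‖ ^ 2 * r ^ (2 * (n.1 + n.2)) := by
  have hr : ((r : ℂ), (r : ℂ)) ∈ bidisk := by
    have : ‖(r : ℂ)‖ < 1 := by
      rw [Complex.norm_real, Real.norm_eq_abs, abs_of_nonneg h0]; exact h1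
    exact ⟨this, this⟩
  have hs : Summable fun n : ℕ × ℕ => ‖c n * (r : ℂ) ^ (n.1 + n.2)‖ := by
    refine Summable.of_nonneg_of_le (fun n => norm_nonneg _) (fun n => ?_)
      ((mon_summable hr).mul_left C)
    rw [norm_mul, mon_norm, norm_pow, pow_add]
    exact mul_le_mul_of_nonneg_right (hc n) (by positivity)
  have e : ∀ n : ℕ × ℕ, ‖c n * (r : ℂ) ^ (n.1 + n.2)‖ ^ 2 =
      ‖c n‖ ^ 2 * r ^ (2 * (n.1 + n.2)) := by
    intro n
    rw [norm_mul, norm_pow, Complex.norm_real, Real.norm_eq_abs, abs_of_nonneg h0, mul_pow,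
      ← pow_mul, mul_comm (n.1 + n.2) 2]
  have h2 := parseval hs
  simp only [e] at h2
  have h3 : ∀ p, tser (fun n : ℕ × ℕ => c n * (r : ℂ) ^ (n.1 + n.2)) p = g (rt r p) := by
    intro p
    rw [← (hg _ (rt_mem h0 h1 p)).tsum_eq]
    refine tsum_congr fun n => ?_
    rw [mon_rt]
    ring
  simp only [h3] at h2
  refine ⟨?_, h2⟩
  simp only [← e]
  refine Summable.of_nonneg_of_le (fun n => by positivity) (fun n => ?_)
    (hs.mul_left (∑' n : ℕ × ℕ, ‖c n * (r : ℂ) ^ (n.1 + n.2)‖))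
  rw [pow_two]
  exact mul_le_mul_of_nonneg_right (hs.le_tsum n (fun _ _ => norm_nonneg _)) (norm_nonneg _)

lemma pow_tendsto (k : ℕ) : Tendsto (fun r : ℝ => r ^ k) (𝓝[<] 1) (𝓝 1) := by
  have hc : Continuous (fun r : ℝ => r ^ k) := by fun_prop
  have h := (hc.tendsto 1).mono_left (nhdsWithin_le_nhds (s := Set.Iio 1))
  rwa [one_pow] at h

lemma sq_one : ∫ _p : ℝ × ℝ, (1 : ℝ) ∂sq = (2 * π) ^ 2 := by
  have h := int2 0 0
  simp only [mon, Prod.fst_zero, Prod.snd_zero, pow_zero, mul_one, map_one, if_true] at h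
  have h2 : ((∫ _p : ℝ × ℝ, (1 : ℝ) ∂sq : ℝ) : ℂ) = ((2 * π : ℝ) : ℂ) ^ 2 := by
    rw [← h]
    simp
  exact_mod_cast h2

/-- coefficients of bounded functions -/
lemma coeff_summable {c : ℕ × ℕ → ℂ} {C : ℝ} (hc : ∀ n, ‖c n‖ ≤ C) {g : ℂ × ℂ → ℂ}
    (hg : ∀ z ∈ bidisk, HasSum (fun n => c n * mon n z) (g z))
    (hC : ∀ z ∈ bidisk, ‖g z‖ ≤ C) : Summable fun n => ‖c n‖ ^ 2 := by
  have hC0 : 0 ≤ C := (norm_nonneg _).trans (hc 0)
  refine summable_of_sum_le (c := C ^ 2) (fun n => by positivity) fun F => ?_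
  have h1 : Tendsto (fun r : ℝ => ∑ n ∈ F, ‖c n‖ ^ 2 * r ^ (2 * (n.1 + n.2))) (𝓝[<] 1)
      (𝓝 (∑ n ∈ F, ‖c n‖ ^ 2 * 1)) := by
    refine tendsto_finsetSum _ fun n _ => ?_
    exact (pow_tendsto _).const_mul _
  simp only [mul_one] at h1
  refine le_of_tendsto h1 ?_
  filter_upwards [near_one] with r hr
  obtain ⟨hs, he⟩ := par_r hc hg hr.1 hr.2
  have h2 : ∑ n ∈ F, ‖c n‖ ^ 2 * r ^ (2 * (n.1 + n.2)) ≤
      ∑' n : ℕ × ℕ, ‖c n‖ ^ 2 * r ^ (2 * (n.1 + n.2)) :=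
    hs.sum_le_tsum _ fun n _ => by have := hr.1; positivity
  have h3 : ∫ p, ‖g (rt r p)‖ ^ 2 ∂sq ≤ ∫ _p : ℝ × ℝ, C ^ 2 * 1 ∂sq := by
    refine integral_mono_of_nonneg (Eventually.of_forall fun p => by positivity) (by simp) ?_
    refine Eventually.of_forall fun p => ?_
    have := hC _ (rt_mem hr.1 hr.2 p)
    have h0 := norm_nonneg (g (rt r p))
    simp only [mul_one]
    gcongr
  rw [integral_const_mul, sq_one, he] at h3
  have h4 : 0 < (2 * π) ^ 2 := by positivity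
  have h5 : (∑' n : ℕ × ℕ, ‖c n‖ ^ 2 * r ^ (2 * (n.1 + n.2))) ≤ C ^ 2 := by
    by_contra hcon
    push Not at hcon
    nlinarith
  linarith

lemma ev_hasSum (f : H2) {z : ℂ × ℂ} (hz : z ∈ bidisk) :
    HasSum (fun n => f n * mon n z) (ev f z) := (ev_summable f hz).hasSum

lemma exists_elt {g : ℂ × ℂ → ℂ} (hg : DifferentiableOn ℂ g bidisk) {C : ℝ}
    (hC : ∀ z ∈ bidisk, ‖g z‖ ≤ C) : ∃ t : H2, ∀ z ∈ bidisk, ev t z = g z := by
  obtain ⟨c, hc, hs⟩ := tay2 hg hC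
  obtain ⟨t, ht⟩ := exists_mk c (coeff_summable hc hs hC)
  refine ⟨t, fun z hz => ?_⟩
  rw [← (hs z hz).tsum_eq, ev]
  refine tsum_congr fun n => ?_
  rw [ht, mon]

lemma H2_lim (f : H2) : Tendsto (fun r : ℝ => ∫ p, ‖ev f (rt r p)‖ ^ 2 ∂sq) (𝓝[<] 1)
    (𝓝 ((2 * π) ^ 2 * ‖f‖ ^ 2)) := by
  have h1 : Tendsto (fun r : ℝ => ∑' n : ℕ × ℕ, ‖f n‖ ^ 2 * r ^ (2 * (n.1 + n.2))) (𝓝[<] 1)
      (𝓝 (∑' n : ℕ × ℕ, ‖f n‖ ^ 2)) := by
    refine tendsto_tsum_of_dominated_convergence (summable_sq f) (fun n => ?_) ?_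
    · simpa using (pow_tendsto (2 * (n.1 + n.2))).const_mul (‖f n‖ ^ 2)
    · filter_upwards [near_one] with r hr n
      rw [Real.norm_eq_abs, abs_of_nonneg (by have := hr.1; positivity)]
      exact mul_le_of_le_one_right (by positivity) (pow_le_one₀ hr.1 hr.2.le)
  rw [← norm_sq] at h1
  refine (h1.const_mul ((2 * π) ^ 2)).congr' ?_
  filter_upwards [near_one] with r hr
  exact (par_r (coe_le f) (fun z hz => ev_hasSum f hz) hr.1 hr.2).2.symm

/-! ### polynomials -/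

/-- the orthonormal basis of monomials -/
noncomputable def E (n : ℕ × ℕ) : H2 := lp.single 2 n (1 : ℂ)

lemma E_apply (n m : ℕ × ℕ) : E n m = if m = n then 1 else 0 := by
  unfold E
  rw [lp.single_apply]
  by_cases h : m = n
  · subst h; simp
  · simp [h]

lemma inner_E (n : ℕ × ℕ) (f : H2) : inner ℂ (E n) f = f n := by
  rw [inner_eq, tsum_eq_single n]
  · simp [E_apply]
  · intro m hm
    simp [E_apply, hm]

/-- the polynomial with given coefficients -/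
noncomputable def el (x : ℕ × ℕ →₀ ℂ) : H2 := x.sum fun n c => c • E n

lemma el_apply (x : ℕ × ℕ →₀ ℂ) (n : ℕ × ℕ) : el x n = x n := by
  rw [← inner_E, el, Finsupp.sum, inner_sum]
  simp only [inner_smul_right, inner_E, E_apply]
  simp [eq_comm]

lemma ev_lin (x : ℕ × ℕ →₀ ℂ) (u : ℕ × ℕ → H2) {z : ℂ × ℂ} (hz : z ∈ bidisk) :
    ev (x.sum fun n c => c • u n) z = x.sum fun n c => c * ev (u n) z := by
  rw [← inner_sz _ hz, Finsupp.sum, inner_sum]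
  refine Finset.sum_congr rfl fun n _ => ?_
  rw [inner_smul_right, inner_sz _ hz]

lemma ev_E (n : ℕ × ℕ) (z : ℂ × ℂ) : ev (E n) z = mon n z := by
  rw [ev, tsum_eq_single n]
  · rw [E_apply, if_pos rfl, one_mul, mon]
  · intro m hm
    rw [E_apply, if_neg hm, zero_mul]

/-- polynomials as functions -/
noncomputable def pf (x : ℕ × ℕ →₀ ℂ) (z : ℂ × ℂ) : ℂ := x.sum fun n c => c * mon n z

lemma pf_cont (x : ℕ × ℕ →₀ ℂ) : Continuous (pf x) := by
  unfold pf Finsupp.sum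
  exact continuous_finsetSum _ fun n _ => continuous_const.mul (mon_cont n)

lemma ev_el (x : ℕ × ℕ →₀ ℂ) {z : ℂ × ℂ} (hz : z ∈ bidisk) : ev (el x) z = pf x z := by
  rw [el, ev_lin x E hz, pf]
  simp only [ev_E]

lemma pf_norm (x : ℕ × ℕ →₀ ℂ) {z : ℂ × ℂ} (h1 : ‖z.1‖ ≤ 1) (h2 : ‖z.2‖ ≤ 1) :
    ‖pf x z‖ ≤ ∑ n ∈ x.support, ‖x n‖ := by
  unfold pf Finsupp.sum
  refine norm_sum_le_of_le _ fun n _ => ?_
  rw [norm_mul, mon_norm]
  have h3 := pow_le_one₀ (n := n.1) (norm_nonneg _) h1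
  have h4 := pow_le_one₀ (n := n.2) (norm_nonneg _) h2
  have h5 : ‖z.1‖ ^ n.1 * ‖z.2‖ ^ n.2 ≤ 1 := mul_le_one₀ h3 (by positivity) h4
  exact mul_le_of_le_one_right (norm_nonneg _) h5

lemma pf_tser (x : ℕ × ℕ →₀ ℂ) (p : ℝ × ℝ) : tser x p = pf x (tor p) := by
  unfold tser pf Finsupp.sum
  refine tsum_eq_sum fun n hn => ?_
  rw [Finsupp.notMem_support_iff.1 hn, zero_mul]

lemma fin_summable (x : ℕ × ℕ →₀ ℂ) : Summable fun n => ‖x n‖ := by
  refine summable_of_ne_finset_zero (s := x.support) fun n hn => ?_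
  rw [Finsupp.notMem_support_iff.1 hn, norm_zero]

lemma el_norm (x : ℕ × ℕ →₀ ℂ) : ‖el x‖ ^ 2 = ∑' n, ‖x n‖ ^ 2 := by
  rw [norm_sq]
  simp only [el_apply]

/-- products with monomials -/
noncomputable def W (n : ℕ × ℕ) : H2 →L[ℂ] H2 := Z1 ^ n.1 * Z2 ^ n.2

lemma ev_Z1_pow (k : ℕ) (f : H2) {z : ℂ × ℂ} (hz : z ∈ bidisk) :
    ev ((Z1 ^ k) f) z = z.1 ^ k * ev f z := by
  induction k with
  | zero => simp
  | succ k ih =>
    rw [pow_succ', mul_apply_eq_comp, ev_Z1 _ hz, ih]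
    ring

lemma ev_Z2_pow (k : ℕ) (f : H2) {z : ℂ × ℂ} (hz : z ∈ bidisk) :
    ev ((Z2 ^ k) f) z = z.2 ^ k * ev f z := by
  induction k with
  | zero => simp
  | succ k ih =>
    rw [pow_succ', mul_apply_eq_comp, ev_Z2 _ hz, ih]
    ring

lemma ev_W (n : ℕ × ℕ) (f : H2) {z : ℂ × ℂ} (hz : z ∈ bidisk) :
    ev (W n f) z = mon n z * ev f z := by
  rw [W, mul_apply_eq_comp, ev_Z1_pow _ _ hz, ev_Z2_pow _ _ hz, mon]
  ring

lemma inner_norm_one {θ : ℂ × ℂ → ℂ} (hθ : IsInner2 θ) {t : H2}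
    (ht : ∀ z ∈ bidisk, ev t z = θ z) (x : ℕ × ℕ →₀ ℂ) :
    ‖x.sum fun n c => c • W n t‖ ^ 2 = ‖el x‖ ^ 2 := by
  obtain ⟨hd, ⟨C, hC⟩, hae⟩ := hθ
  set g : H2 := x.sum fun n c => c • W n t with hg
  have hC0 : 0 ≤ C := (norm_nonneg _).trans (hC (0, 0) ⟨by simp, by simp⟩)
  have hge : ∀ z ∈ bidisk, ev g z = θ z * pf x z := by
    intro z hz
    rw [hg, ev_lin x (fun n => W n t) hz, pf, Finsupp.mul_sum]
    refine Finset.sum_congr rfl fun n _ => ?_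
    simp only []
    rw [ev_W _ _ hz, ht z hz]
    ring
  have h1 := H2_lim g
  set B : ℝ := ∑ n ∈ x.support, ‖x n‖ with hB
  have h2 : Tendsto (fun r : ℝ => ∫ p, ‖ev g (rt r p)‖ ^ 2 ∂sq) (𝓝[<] 1)
      (𝓝 (∫ p, ‖tser x p‖ ^ 2 ∂sq)) := by
    refine tendsto_integral_filter_of_dominated_convergence (fun _ => (C * B) ^ 2) ?_ ?_
      (integrable_const _) ?_
    · filter_upwards [near_one] with r hr
      have h3 : Continuous fun p : ℝ × ℝ => θ (rt r p) * pf x (rt r p) := by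
        refine Continuous.mul ?_ ((pf_cont x).comp (rt_cont r))
        exact hd.continuousOn.comp_continuous (rt_cont r) (fun p => rt_mem hr.1 hr.2 p)
      have h4 : (fun p : ℝ × ℝ => ‖ev g (rt r p)‖ ^ 2) =
          fun p => ‖θ (rt r p) * pf x (rt r p)‖ ^ 2 :=
        funext fun p => by rw [hge _ (rt_mem hr.1 hr.2 p)]
      rw [h4]
      exact (h3.norm.pow 2).aestronglyMeasurable
    · filter_upwards [near_one] with r hr
      refine Eventually.of_forall fun p => ?_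
      have hm := rt_mem hr.1 hr.2 p
      rw [hge _ hm, Real.norm_eq_abs, abs_of_nonneg (by positivity), norm_mul]
      have h5 := hC _ hm
      have h6 := pf_norm x hm.1.le hm.2.le
      have h7 := norm_nonneg (θ (rt r p))
      have h8 := norm_nonneg (pf x (rt r p))
      gcongr
    · filter_upwards [sq_ae hae] with p hp
      have h3 : Tendsto (fun r : ℝ => (‖θ (rt r p)‖ * ‖pf x (rt r p)‖) ^ 2) (𝓝[<] 1)
          (𝓝 ((1 * ‖pf x (tor p)‖) ^ 2)) :=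
        (hp.mul (((pf_cont x).norm.tendsto _).comp (rt_tendsto p))).pow 2
      rw [one_mul, ← pf_tser] at h3
      refine h3.congr' ?_
      filter_upwards [near_one] with r hr
      rw [hge _ (rt_mem hr.1 hr.2 p), norm_mul]
  have h3 := tendsto_nhds_unique h1 h2
  rw [parseval (fin_summable x), ← el_norm] at h3
  have h4 : (0 : ℝ) < (2 * π) ^ 2 := by positivity
  exact mul_left_cancel₀ h4.ne' h3

lemma el_dense (f : H2) : Tendsto (fun F : Finset (ℕ × ℕ) =>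
    el (Finsupp.indicator F fun n _ => f n)) atTop (𝓝 f) := by
  have h := lp.hasSum_single (p := 2) (by norm_num) f
  refine h.congr fun F => ?_
  refine lp.ext (funext fun m => ?_)
  rw [el_apply, Finsupp.indicator_apply, ← inner_E m, inner_sum]
  simp only [inner_E, lp.single_apply]
  by_cases hm : m ∈ F
  · simp [hm, Pi.single_apply]
  · simp [hm, Pi.single_apply]

/-- the multiplication operator of an inner function -/
theorem exists_mul {θ : ℂ × ℂ → ℂ} (hθ : IsInner2 θ) : ∃ M : H2 →L[ℂ] H2,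
    (∀ f, ∀ z ∈ bidisk, ev (M f) z = θ z * ev f z) ∧ ∀ f, ‖M f‖ = ‖f‖ := by
  obtain ⟨C, hC⟩ := hθ.2.1
  obtain ⟨t, ht⟩ := exists_elt hθ.1 hC
  have hn := inner_norm_one hθ ht
  have hF : ∀ (g : H2) (F : Finset (ℕ × ℕ)), ∑ n ∈ F, ‖(inner ℂ (W n t) g : ℂ)‖ ^ 2 ≤ ‖g‖ ^ 2 := by
    intro g F
    set x : ℕ × ℕ →₀ ℂ := Finsupp.indicator F fun n _ => (inner ℂ (W n t) g : ℂ) with hx
    have hsub : x.support ⊆ F := Finsupp.support_indicator_subset _ _
    have hxn : ∀ n ∈ F, x n = inner ℂ (W n t) g := fun n hn => by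
      rw [hx, Finsupp.indicator_of_mem hn]
    set s : ℝ := ∑ n ∈ F, ‖(inner ℂ (W n t) g : ℂ)‖ ^ 2 with hs
    have h1 : (inner ℂ (x.sum fun n c => c • W n t) g : ℂ) = (s : ℂ) := by
      rw [Finsupp.sum_of_support_subset _ hsub _ (fun n _ => by simp), sum_inner, hs]
      push_cast
      refine Finset.sum_congr rfl fun n hn => ?_
      rw [inner_smul_left, hxn n hn, mul_comm, RCLike.mul_conj]
      norm_cast
    have h2 : ‖el x‖ ^ 2 = s := by
      rw [el_norm, tsum_eq_sum (s := F) (fun n hn => by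
        rw [Finsupp.notMem_support_iff.1 (fun h => hn (hsub h)), norm_zero]; norm_num), hs]
      refine Finset.sum_congr rfl fun n hn => ?_
      rw [hxn n hn]
    have h3 := norm_inner_le_norm (𝕜 := ℂ) (x.sum fun n c => c • W n t) g
    have hs0 : 0 ≤ s := Finset.sum_nonneg fun n _ => by positivity
    rw [h1, Complex.norm_real, Real.norm_eq_abs, abs_of_nonneg hs0] at h3
    have h4 : s ^ 2 ≤ s * ‖g‖ ^ 2 := by
      calc s ^ 2 ≤ (‖x.sum fun n c => c • W n t‖ * ‖g‖) ^ 2 := by gcongr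
        _ = s * ‖g‖ ^ 2 := by rw [mul_pow, hn x, h2]
    rcases hs0.eq_or_lt with h5 | h5
    · rw [← h5]; positivity
    · rw [pow_two] at h4
      exact le_of_mul_le_mul_left h4 h5
  have hsum : ∀ g : H2, Summable fun n => ‖(inner ℂ (W n t) g : ℂ)‖ ^ 2 := fun g =>
    summable_of_sum_le (fun n => by positivity) (hF g)
  obtain ⟨N, hN⟩ := exists_op (fun g n => (inner ℂ (W n t) g : ℂ)) 1 zero_le_one hsum
    (fun g => by
      rw [one_pow, one_mul]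
      exact (hsum g).tsum_le_of_sum_le (hF g))
    (fun f g n => inner_add_right _ _ _) (fun c f n => inner_smul_right _ _ _)
  have hNs : ∀ w ∈ bidisk, N (sz w) = conj (θ w) • sz w := by
    intro w hw
    refine lp.ext (funext fun n => ?_)
    rw [hN, inner_sz' _ hw, ev_W _ _ hw, ht w hw, lp.coeFn_smul, Pi.smul_apply, sz_apply hw,
      map_mul, mon, smul_eq_mul]
    ring
  have hM : ∀ f, ∀ z ∈ bidisk, ev (N.adjoint f) z = θ z * ev f z := by
    intro f z hz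
    rw [← inner_sz _ hz, ContinuousLinearMap.adjoint_inner_right, hNs z hz, inner_smul_left,
      Complex.conj_conj, inner_sz _ hz]
  have hMe : ∀ x : ℕ × ℕ →₀ ℂ, N.adjoint (el x) = x.sum fun n c => c • W n t := by
    intro x
    rw [← sub_eq_zero]
    refine ev_inj _ fun z hz => ?_
    rw [ev_sub _ _ hz, hM _ z hz, ev_el x hz, ev_lin x (fun n => W n t) hz, pf, Finsupp.mul_sum,
      sub_eq_zero]
    refine Finset.sum_congr rfl fun n _ => ?_
    simp only []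
    rw [ev_W _ _ hz, ht z hz]
    ring
  refine ⟨N.adjoint, hM, fun f => ?_⟩
  have h1 : ∀ x : ℕ × ℕ →₀ ℂ, ‖N.adjoint (el x)‖ = ‖el x‖ := by
    intro x
    have := hn x
    rw [← hMe x] at this
    exact (sq_eq_sq₀ (norm_nonneg _) (norm_nonneg _)).1 this
  have h2 : Tendsto (fun F : Finset (ℕ × ℕ) =>
      ‖N.adjoint (el (Finsupp.indicator F fun n _ => f n))‖) atTop (𝓝 ‖N.adjoint f‖) :=
    ((N.adjoint.continuous.norm.tendsto f).comp (el_dense f))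
  have h3 : Tendsto (fun F : Finset (ℕ × ℕ) =>
      ‖el (Finsupp.indicator F fun n _ => f n)‖) atTop (𝓝 ‖f‖) :=
    ((continuous_norm.tendsto f).comp (el_dense f))
  simp only [h1] at h2
  exact tendsto_nhds_unique h2 h3

end Pool.Agent.K4H48.Agl
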