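import Pool.Agent.K4H48.Agl.Defs

/-! Reducing Agler subspaces force a wandering property. -/

set_option autoImplicit false

namespace Pool.Agent.K4H48.Agl

open Pool.Agent.R285.Ell2 Pool.Agent.R285.BiHardy Filter Topology
open scoped ComplexConjugate

lemma inRK_Z1 {K1 : ℂ × ℂ → ℂ × ℂ → ℂ} (hK : PosKer K1) {f : H2}
    (hf : InRK (ker1 K1) (ev f)) : InRK (ker1 K1) (ev (Z1 f)) := by
  obtain ⟨C, hC, hp⟩ := hf
  refine ⟨C, hC, ?_⟩
  refine ((hp.conjMul fun z => z.1).add (hK.smul hC)).congr fun z hz w hw => ?_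
  have n1 := one_sub_ne hz.1 hw.1
  rw [ev_Z1 _ hz, ev_Z1 _ hw, map_mul, ker1]
  field_simp
  ring

lemma inRK_mem {θ : ℂ × ℂ → ℂ} {M : H2 →L[ℂ] H2} (hM : MulOp θ M)
    {K1 K2 : ℂ × ℂ → ℂ × ℂ → ℂ} (hA : IsAgler θ K1 K2) {f : H2}
    (hf : InRK (ker1 K1) (ev f)) : M.adjoint f = 0 := by
  obtain ⟨C, hC, hp⟩ := hf
  refine hM.mem_of_dom (C := C) ((hp.add (hA.2.1.ker2.smul hC)).congr fun z hz w hw => ?_)
  rw [hA.splitPM hM hz hw]
  ring

lemma inRK_mem2 {θ : ℂ × ℂ → ℂ} {M : H2 →L[ℂ] H2} (hM : MulOp θ M)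
    {K1 K2 : ℂ × ℂ → ℂ × ℂ → ℂ} (hA : IsAgler θ K1 K2) {f : H2}
    (hf : InRK (ker2 K2) (ev f)) : M.adjoint f = 0 := by
  obtain ⟨C, hC, hp⟩ := hf
  refine hM.mem_of_dom (C := C) ((hp.add (hA.1.ker1.smul hC)).congr fun z hz w hw => ?_)
  rw [hA.splitPM hM hz hw]
  ring

lemma posKer_sz_sub {θ : ℂ × ℂ → ℂ} {K1 K2 : ℂ × ℂ → ℂ × ℂ → ℂ} (hA : IsAgler θ K1 K2) :
    PosKer fun z w => ev (sz w) z - ker1 K1 z w := by
  refine (hA.2.1.ker2.add (posKer_sz.conjMul θ)).congr fun z hz w hw => ?_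
  have h := hA.split hz hw
  linear_combination -h

/-- vectors all of whose iterated shifts lie in the kernel of `M*` -/
def AA (M : H2 →L[ℂ] H2) : Submodule ℂ H2 where
  carrier := {f | ∀ m n : ℕ, M.adjoint ((Z1 ^ m) ((Z1.adjoint ^ n) f)) = 0}
  add_mem' := by
    intro a b ha hb m n
    rw [map_add, map_add, map_add, ha, hb, add_zero]
  zero_mem' := by
    intro m n
    rw [map_zero, map_zero, map_zero]
  smul_mem' := by
    intro c a ha m n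
    rw [map_smul, map_smul, map_smul, ha, smul_zero]

lemma AA_closed (M : H2 →L[ℂ] H2) : IsClosed (AA M : Set H2) := by
  have : (AA M : Set H2) = ⋂ m : ℕ, ⋂ n : ℕ,
      {f | M.adjoint ((Z1 ^ m) ((Z1.adjoint ^ n) f)) = 0} := by
    ext f
    simp only [Set.mem_iInter, Set.mem_ofPred_eq]
    rfl
  rw [this]
  refine isClosed_iInter fun m => isClosed_iInter fun n => isClosed_eq ?_ continuous_const
  fun_prop

instance (M : H2 →L[ℂ] H2) : CompleteSpace (AA M) := (AA_closed M).completeSpace_coe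

lemma AA_sub {M : H2 →L[ℂ] H2} {f : H2} (hf : f ∈ AA M) : M.adjoint f = 0 := by
  simpa using hf 0 0

lemma AA_Z1 {M : H2 →L[ℂ] H2} {f : H2} (hf : f ∈ AA M) : Z1 f ∈ AA M := by
  intro m n
  rcases n with _ | n
  · have := hf (m + 1) 0
    rw [pow_succ, mul_apply_eq_comp] at this
    simpa using this
  · rw [pow_succ, mul_apply_eq_comp, Z1_adj_Z1]
    exact hf m n

lemma AA_Z1a {M : H2 →L[ℂ] H2} {f : H2} (hf : f ∈ AA M) : Z1.adjoint f ∈ AA M := by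
  intro m n
  have := hf m (n + 1)
  rwa [pow_succ, mul_apply_eq_comp] at this

lemma AAo_Z1 {M : H2 →L[ℂ] H2} {f : H2} (hf : f ∈ (AA M)ᗮ) : Z1 f ∈ (AA M)ᗮ := by
  rw [Submodule.mem_orthogonal] at hf ⊢
  intro u hu
  rw [← ContinuousLinearMap.adjoint_inner_left]
  exact hf _ (AA_Z1a hu)

lemma AAo_Z1a {M : H2 →L[ℂ] H2} {f : H2} (hf : f ∈ (AA M)ᗮ) : Z1.adjoint f ∈ (AA M)ᗮ := by
  rw [Submodule.mem_orthogonal] at hf ⊢
  intro u hu
  rw [ContinuousLinearMap.adjoint_inner_right]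
  exact hf _ (AA_Z1 hu)

/-- the first Agler subspace is contained in `AA` -/
lemma inRK_AA {θ : ℂ × ℂ → ℂ} {M : H2 →L[ℂ] H2} (hM : MulOp θ M)
    {K1 K2 : ℂ × ℂ → ℂ × ℂ → ℂ} (hA : IsAgler θ K1 K2)
    (hS : ∀ f : H2, InRK (ker1 K1) (ev f) → InRK (ker1 K1) (ev (Z1.adjoint f)))
    {f : H2} (hf : InRK (ker1 K1) (ev f)) : f ∈ AA M := by
  intro m n
  have h1 : ∀ n : ℕ, InRK (ker1 K1) (ev ((Z1.adjoint ^ n) f)) := by
    intro n
    induction n with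
    | zero => simpa using hf
    | succ n ih => rw [pow_succ', mul_apply_eq_comp]; exact hS _ ih
  have h2 : ∀ m : ℕ, InRK (ker1 K1) (ev ((Z1 ^ m) ((Z1.adjoint ^ n) f))) := by
    intro m
    induction m with
    | zero => simpa using h1 n
    | succ m ih => rw [pow_succ', mul_apply_eq_comp]; exact inRK_Z1 hA.1 ih
  exact inRK_mem hM hA (h2 m)

/-- the key domination -/
lemma dom_N {θ : ℂ × ℂ → ℂ} {M : H2 →L[ℂ] H2} (hM : MulOp θ M)
    {K1 K2 : ℂ × ℂ → ℂ × ℂ → ℂ} (hA : IsAgler θ K1 K2)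
    (hS : ∀ f : H2, InRK (ker1 K1) (ev f) → InRK (ker1 K1) (ev (Z1.adjoint f)))
    {f : H2} (hf : M.adjoint f = 0) (hfo : f ∈ (AA M)ᗮ) :
    PosKer fun z w => ((‖f‖ ^ 2 : ℝ) : ℂ) * ker2 K2 z w - ev f z * conj (ev f w) := by
  refine posKer_of_qf (fun z hz w hw => ?_) fun n u hu x => ?_
  · rw [map_sub, map_mul, map_mul, Complex.conj_conj, Complex.conj_ofReal,
      (hA.2.1.ker2).symm hz hw]
    ring
  · rw [qf_sub, qf_smul, rank_one hu, Complex.sub_re, Complex.ofReal_re, Complex.re_ofReal_mul]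
    obtain ⟨e, he1, he2, he3⟩ := exists_ker hA.1.ker1 (posKer_sz_sub hA) hu x
    set q1 : ℝ := (qf (ker1 K1) u x x).re with hq1
    have hq1n : 0 ≤ q1 := (Complex.nonneg_iff.1 (hA.1.ker1.qf_nonneg u hu x)).1
    have heRK : InRK (ker1 K1) (ev e) := by
      refine ⟨q1, hq1n, posKer_of_qf (fun z hz w hw => ?_) fun m v hv y => ?_⟩
      · rw [map_sub, map_mul, map_mul, Complex.conj_conj, Complex.conj_ofReal,
          (hA.1.ker1).symm hz hw]
        ring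
      · rw [qf_sub, qf_smul, rank_one hv, Complex.sub_re, Complex.ofReal_re, Complex.re_ofReal_mul]
        linarith [he3 (Fin m) v y hv]
    have heA : e ∈ AA M := inRK_AA hM hA hS heRK
    set v : H2 := comb u x with hv
    have h1 : (inner ℂ v e : ℂ) = qf (ker1 K1) u x x := by
      rw [hv, inner_comb hu]
      unfold qf
      refine Finset.sum_congr rfl fun i _ => ?_
      rw [he1 _ (hu i), Finset.mul_sum]
      refine Finset.sum_congr rfl fun j _ => ?_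
      ring
    have h2 : ‖PM M v‖ ^ 2 = q1 + (qf (ker2 K2) u x x).re := by
      rw [hM.PM_norm_sq, hv, inner_comb_op, hq1, ← Complex.add_re, ← qf_add]
      congr 1
      exact qf_congr hu (fun z hz w hw => hA.splitPM hM hz hw) x x
    have h3 : ‖PM M v - e‖ ^ 2 ≤ (qf (ker2 K2) u x x).re := by
      rw [norm_sub_sq (𝕜 := ℂ), PM_inner (AA_sub heA), h1, h2]
      have : RCLike.re (qf (ker1 K1) u x x) = q1 := rfl
      rw [this]
      linarith
    have h4 : (inner ℂ v f : ℂ) = inner ℂ (PM M v - e) f := by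
      rw [inner_sub_left, PM_inner hf, (Submodule.mem_orthogonal _ _).1 hfo e heA, sub_zero]
    have h5 := norm_inner_le_norm (𝕜 := ℂ) (PM M v - e) f
    have h6 : ‖(inner ℂ v f : ℂ)‖ ^ 2 ≤ ‖f‖ ^ 2 * (qf (ker2 K2) u x x).re := by
      rw [h4]
      calc ‖(inner ℂ (PM M v - e) f : ℂ)‖ ^ 2 ≤ (‖PM M v - e‖ * ‖f‖) ^ 2 := by gcongr
        _ = ‖f‖ ^ 2 * ‖PM M v - e‖ ^ 2 := by ring
        _ ≤ ‖f‖ ^ 2 * (qf (ker2 K2) u x x).re := by gcongr
    linarith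

lemma N_Z2 {θ : ℂ × ℂ → ℂ} {M : H2 →L[ℂ] H2} (hM : MulOp θ M)
    {K1 K2 : ℂ × ℂ → ℂ × ℂ → ℂ} (hA : IsAgler θ K1 K2)
    (hS : ∀ f : H2, InRK (ker1 K1) (ev f) → InRK (ker1 K1) (ev (Z1.adjoint f)))
    {f : H2} (hf : M.adjoint f = 0) (hfo : f ∈ (AA M)ᗮ) (k : ℕ) :
    M.adjoint ((Z2 ^ k) f) = 0 := by
  have h1 : ∀ k : ℕ, PosKer fun z w => ((‖f‖ ^ 2 : ℝ) : ℂ) * ker2 K2 z w -
      ev ((Z2 ^ k) f) z * conj (ev ((Z2 ^ k) f) w) := by
    intro k
    induction k with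
    | zero => simpa using dom_N hM hA hS hf hfo
    | succ k ih =>
      refine ((ih.conjMul fun z => z.2).add
        (hA.2.1.smul (c := ‖f‖ ^ 2) (by positivity))).congr fun z hz w hw => ?_
      have n2 := one_sub_ne hz.2 hw.2
      have e1 : (Z2 ^ (k + 1)) f = Z2 ((Z2 ^ k) f) := by rw [pow_succ', mul_apply_eq_comp]
      rw [e1, ev_Z2 _ hz, ev_Z2 _ hw, map_mul, ker2]
      field_simp
      ring
  exact inRK_mem2 hM hA ⟨‖f‖ ^ 2, by positivity, h1 k⟩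

lemma Z2_pow_inner (k : ℕ) (f g : H2) : (inner ℂ ((Z2 ^ k) f) ((Z2 ^ k) g) : ℂ) = inner ℂ f g := by
  induction k with
  | zero => simp
  | succ k ih => rw [pow_succ', mul_apply_eq_comp, mul_apply_eq_comp, Z2_inner, ih]

lemma Z1_pow_inner (k : ℕ) (f g : H2) : (inner ℂ ((Z1 ^ k) f) ((Z1 ^ k) g) : ℂ) = inner ℂ f g := by
  induction k with
  | zero => simp
  | succ k ih => rw [pow_succ', mul_apply_eq_comp, mul_apply_eq_comp, Z1_inner, ih]

lemma Z2_pow_norm (k : ℕ) (f : H2) : ‖(Z2 ^ k) f‖ = ‖f‖ := by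
  induction k with
  | zero => simp
  | succ k ih => rw [pow_succ', mul_apply_eq_comp, Z2_norm_eq, ih]

lemma Z12_pow (m : ℕ) (f : H2) : (Z2 ^ m) ((Z1 ^ m) f) = W (m, m) f := by
  rw [← sub_eq_zero]
  refine ev_inj _ fun z hz => ?_
  rw [ev_sub _ _ hz, ev_Z2_pow _ _ hz, ev_Z1_pow _ _ hz, ev_W _ _ hz, mon]
  ring

/-- the wandering property -/
theorem wander {θ : ℂ × ℂ → ℂ} {M : H2 →L[ℂ] H2} (hM : MulOp θ M)
    {K1 K2 : ℂ × ℂ → ℂ × ℂ → ℂ} (hA : IsAgler θ K1 K2)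
    (hS : ∀ f : H2, InRK (ker1 K1) (ev f) → InRK (ker1 K1) (ev (Z1.adjoint f)))
    {σ : H2} (hσ : Z1.adjoint σ = 0) :
    ∃ τ : H2, Z1.adjoint τ = 0 ∧
      Tendsto (fun m : ℕ => M (M.adjoint ((Z1 ^ m) σ)) - (Z1 ^ m) τ) atTop (𝓝 0) := by
  obtain ⟨ρ, hρ, τ, hτ, hστ⟩ := Submodule.exists_add_mem_mem_orthogonal (K := AA M) σ
  have h1 : Z1.adjoint ρ + Z1.adjoint τ = 0 := by rw [← map_add, ← hστ, hσ]
  have h2 : Z1.adjoint τ = 0 := by
    have h3 := AA_Z1a hρ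
    have h4 := AAo_Z1a hτ
    have h5 : (inner ℂ (Z1.adjoint ρ) (Z1.adjoint τ) : ℂ) = 0 :=
      (Submodule.mem_orthogonal _ _).1 h4 _ h3
    rw [add_eq_zero_iff_eq_neg.1 h1, inner_neg_left, neg_eq_zero, inner_self_eq_zero] at h5
    exact h5
  refine ⟨τ, h2, ?_⟩
  have hρm : ∀ m : ℕ, (Z1 ^ m) ρ ∈ AA M := by
    intro m
    induction m with
    | zero => simpa using hρ
    | succ m ih => rw [pow_succ', mul_apply_eq_comp]; exact AA_Z1 ih
  have hτm : ∀ m : ℕ, (Z1 ^ m) τ ∈ (AA M)ᗮ := by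
    intro m
    induction m with
    | zero => simpa using hτ
    | succ m ih => rw [pow_succ', mul_apply_eq_comp]; exact AAo_Z1 ih
  set u : ℕ → H2 := fun m => PM M ((Z1 ^ m) τ) with hu
  have hu0 : ∀ m, M.adjoint (u m) = 0 := fun m => hM.adj_PM _
  have huo : ∀ m, u m ∈ (AA M)ᗮ := by
    intro m
    rw [Submodule.mem_orthogonal]
    intro a ha
    rw [hu]
    simp only
    rw [← PM_symm, PM_fix (AA_sub ha)]
    exact (Submodule.mem_orthogonal _ _).1 (hτm m) a ha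
  have hP : ∀ m, PM M ((Z1 ^ m) σ) = (Z1 ^ m) ρ + u m := by
    intro m
    rw [hστ, map_add, map_add, PM_fix (AA_sub (hρm m))]
  have hbd : ∀ m, ‖u m‖ ≤ ‖PM M (W (m, m) σ)‖ := by
    intro m
    have e1 : (inner ℂ (u m) ((Z1 ^ m) σ) : ℂ) = ((‖u m‖ ^ 2 : ℝ) : ℂ) := by
      have e2 : (inner ℂ (u m) ((Z1 ^ m) σ) : ℂ) = inner ℂ (u m) (PM M ((Z1 ^ m) σ)) := by
        rw [← PM_symm, PM_fix (hu0 m)]
      rw [e2, hP, inner_add_right, inner_self_eq_norm_sq_to_K]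
      have e3 : (inner ℂ (u m) ((Z1 ^ m) ρ) : ℂ) = 0 :=
        (Submodule.mem_orthogonal' _ _).1 (huo m) _ (hρm m)
      rw [e3, zero_add]
      norm_cast
    have e4 : (inner ℂ (u m) ((Z1 ^ m) σ) : ℂ) =
        inner ℂ ((Z2 ^ m) (u m)) (PM M (W (m, m) σ)) := by
      rw [← PM_symm, PM_fix (N_Z2 hM hA hS (hu0 m) (huo m) m), ← Z12_pow, Z2_pow_inner]
    have e5 := norm_inner_le_norm (𝕜 := ℂ) ((Z2 ^ m) (u m)) (PM M (W (m, m) σ))
    rw [← e4, e1, Complex.norm_real, Real.norm_eq_abs, abs_of_nonneg (by positivity),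
      Z2_pow_norm] at e5
    rcases (norm_nonneg (u m)).eq_or_lt with h6 | h6
    · rw [← h6]; positivity
    · rw [pow_two] at e5
      exact le_of_mul_le_mul_left e5 h6
  have hu1 : Tendsto u atTop (𝓝 0) := by
    rw [tendsto_zero_iff_norm_tendsto_zero]
    have h7 := (hM.PM_tendsto σ).norm
    rw [norm_zero] at h7
    exact squeeze_zero (fun m => norm_nonneg _) hbd h7
  have h8 : ∀ m, M (M.adjoint ((Z1 ^ m) σ)) - (Z1 ^ m) τ = -u m := by
    intro m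
    have h9 := hP m
    rw [PM_apply] at h9
    have h10 : (Z1 ^ m) σ = (Z1 ^ m) ρ + (Z1 ^ m) τ := by rw [hστ, map_add]
    have h11 : M (M.adjoint ((Z1 ^ m) σ)) = (Z1 ^ m) σ - ((Z1 ^ m) ρ + u m) := by
      rw [← h9]; abel
    rw [h11, h10]
    abel
  simp only [h8]
  simpa using hu1.neg

end Pool.Agent.K4H48.Agl
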