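import Pool.Agent.K4H48.Agl.Aron
import Pool.Agent.K4H48.Agl.Mul

/-! Isometric multiplication operators and the projection onto the model space. -/

set_option autoImplicit false

namespace Pool.Agent.K4H48.Agl

open Pool.Agent.R285.Ell2 Pool.Agent.R285.BiHardy Filter Topology
open scoped ComplexConjugate

lemma ext_left {u v : H2} (h : ∀ g, (inner ℂ u g : ℂ) = inner ℂ v g) : u = v := ext_inner_right ℂ h

lemma Z1_adj_Z1 (f : H2) : Z1.adjoint (Z1 f) = f :=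
  lp.ext (funext fun n => by rw [Z1_adj, Z1_e1])

lemma Z2_adj_Z2 (f : H2) : Z2.adjoint (Z2 f) = f :=
  lp.ext (funext fun n => by rw [Z2_adj, Z2_e2])

lemma Z12 (f : H2) : Z1 (Z2 f) = Z2 (Z1 f) := by
  rw [← sub_eq_zero]
  refine ev_inj _ fun z hz => ?_
  rw [ev_sub _ _ hz, ev_Z1 _ hz, ev_Z2 _ hz, ev_Z2 _ hz, ev_Z1 _ hz]
  ring

lemma Z1a_Z2 (f : H2) : Z1.adjoint (Z2 f) = Z2 (Z1.adjoint f) := by
  refine lp.ext (funext fun n => ?_)
  rw [Z1_adj]
  by_cases h : n.2 = 0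
  · rw [Z2_zero _ h, Z2_zero _ (n := e1 n) h]
  · obtain ⟨m, rfl⟩ := (range_e2 n).2 h
    rw [e12, Z2_e2, Z2_e2, Z1_adj]

lemma Z1_norm_eq (f : H2) : ‖Z1 f‖ = ‖f‖ :=
  (ContinuousLinearMap.norm_map_iff_adjoint_comp_self Z1).2
    (ContinuousLinearMap.ext fun f => Z1_adj_Z1 f) f

lemma Z2_norm_eq (f : H2) : ‖Z2 f‖ = ‖f‖ :=
  (ContinuousLinearMap.norm_map_iff_adjoint_comp_self Z2).2
    (ContinuousLinearMap.ext fun f => Z2_adj_Z2 f) f

lemma Z1_inner (f g : H2) : (inner ℂ (Z1 f) (Z1 g) : ℂ) = inner ℂ f g := by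
  rw [← ContinuousLinearMap.adjoint_inner_right, Z1_adj_Z1]

lemma Z2_inner (f g : H2) : (inner ℂ (Z2 f) (Z2 g) : ℂ) = inner ℂ f g := by
  rw [← ContinuousLinearMap.adjoint_inner_right, Z2_adj_Z2]

/-- `M` is the isometric operator of multiplication by `θ` -/
structure MulOp (θ : ℂ × ℂ → ℂ) (M : H2 →L[ℂ] H2) : Prop where
  ev_eq : ∀ f, ∀ z ∈ bidisk, ev (M f) z = θ z * ev f z
  iso : ∀ f, ‖M f‖ = ‖f‖

/-- the projection onto the model space -/
noncomputable def PM (M : H2 →L[ℂ] H2) : H2 →L[ℂ] H2 := 1 - M * M.adjoint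

lemma PM_apply (M : H2 →L[ℂ] H2) (f : H2) : PM M f = f - M (M.adjoint f) := rfl

lemma PM_symm (M : H2 →L[ℂ] H2) (u v : H2) : (inner ℂ (PM M u) v : ℂ) = inner ℂ u (PM M v) := by
  have e1 := ContinuousLinearMap.adjoint_inner_right M (M.adjoint u) v
  have e2 := ContinuousLinearMap.adjoint_inner_left M (M.adjoint v) u
  rw [PM_apply, PM_apply, inner_sub_left, inner_sub_right, ← e1, ← e2]

lemma PM_fix {M : H2 →L[ℂ] H2} {f : H2} (hf : M.adjoint f = 0) : PM M f = f := by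
  rw [PM_apply, hf, map_zero, sub_zero]

lemma PM_inner {M : H2 →L[ℂ] H2} {f : H2} (hf : M.adjoint f = 0) (v : H2) :
    (inner ℂ (PM M v) f : ℂ) = inner ℂ v f := by rw [PM_symm, PM_fix hf]

lemma PM_re (M : H2 →L[ℂ] H2) (v : H2) :
    (inner ℂ v (PM M v) : ℂ).re = ‖v‖ ^ 2 - ‖M.adjoint v‖ ^ 2 := by
  have h1 : (inner ℂ v v : ℂ).re = ‖v‖ ^ 2 := by
    rw [inner_self_eq_norm_sq_to_K]; norm_cast
  have h2 : (inner ℂ (M.adjoint v) (M.adjoint v) : ℂ).re = ‖M.adjoint v‖ ^ 2 := by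
    rw [inner_self_eq_norm_sq_to_K]; norm_cast
  rw [PM_apply, inner_sub_right, ← ContinuousLinearMap.adjoint_inner_left, Complex.sub_re, h1, h2]

namespace MulOp

variable {θ : ℂ × ℂ → ℂ} {M : H2 →L[ℂ] H2}

lemma adj_mul (h : MulOp θ M) (f : H2) : M.adjoint (M f) = f := by
  have h1 := (ContinuousLinearMap.norm_map_iff_adjoint_comp_self M).1 h.iso
  exact congrArg (fun T : H2 →L[ℂ] H2 => T f) h1

lemma adj_sz (h : MulOp θ M) {w : ℂ × ℂ} (hw : w ∈ bidisk) :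
    M.adjoint (sz w) = conj (θ w) • sz w := by
  refine ext_left fun g => ?_
  rw [ContinuousLinearMap.adjoint_inner_left, inner_sz _ hw, h.ev_eq _ _ hw, inner_smul_left,
    Complex.conj_conj, inner_sz _ hw]

lemma comm1 (h : MulOp θ M) (f : H2) : M (Z1 f) = Z1 (M f) := by
  rw [← sub_eq_zero]
  refine ev_inj _ fun z hz => ?_
  rw [ev_sub _ _ hz, h.ev_eq _ _ hz, ev_Z1 _ hz, ev_Z1 _ hz, h.ev_eq _ _ hz]
  ring

lemma comm2 (h : MulOp θ M) (f : H2) : M (Z2 f) = Z2 (M f) := by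
  rw [← sub_eq_zero]
  refine ev_inj _ fun z hz => ?_
  rw [ev_sub _ _ hz, h.ev_eq _ _ hz, ev_Z2 _ hz, ev_Z2 _ hz, h.ev_eq _ _ hz]
  ring

lemma comm1_adj (h : MulOp θ M) (f : H2) :
    M.adjoint (Z1.adjoint f) = Z1.adjoint (M.adjoint f) := by
  refine ext_left fun g => ?_
  simp only [ContinuousLinearMap.adjoint_inner_left, h.comm1]

lemma comm2_adj (h : MulOp θ M) (f : H2) :
    M.adjoint (Z2.adjoint f) = Z2.adjoint (M.adjoint f) := by
  refine ext_left fun g => ?_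
  simp only [ContinuousLinearMap.adjoint_inner_left, h.comm2]

lemma adj_norm (h : MulOp θ M) (f : H2) : ‖M.adjoint f‖ ≤ ‖f‖ := by
  have h1 : ‖M‖ ≤ 1 := M.opNorm_le_bound zero_le_one fun f => by rw [h.iso, one_mul]
  calc ‖M.adjoint f‖ ≤ ‖M.adjoint‖ * ‖f‖ := M.adjoint.le_opNorm f
    _ = ‖M‖ * ‖f‖ := by rw [LinearIsometryEquiv.norm_map]
    _ ≤ 1 * ‖f‖ := by gcongr
    _ = ‖f‖ := one_mul _

lemma sz_ne {w : ℂ × ℂ} (hw : w ∈ bidisk) : sz w ≠ 0 := by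
  intro h
  have h1 := ev_sz hw hw
  rw [h] at h1
  have : ev (0 : H2) w = 0 := by simp [ev]
  rw [this] at h1
  simp at h1

lemma norm_le (h : MulOp θ M) {w : ℂ × ℂ} (hw : w ∈ bidisk) : ‖θ w‖ ≤ 1 := by
  have h1 := h.adj_norm (sz w)
  rw [h.adj_sz hw, norm_smul, RCLike.norm_conj] at h1
  have h2 : 0 < ‖sz w‖ := norm_pos_iff.2 (sz_ne hw)
  exact le_of_mul_le_mul_right (by linarith) h2

lemma adj_PM (h : MulOp θ M) (f : H2) : M.adjoint (PM M f) = 0 := by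
  rw [PM_apply, map_sub, h.adj_mul, sub_self]

lemma PM_norm_sq (h : MulOp θ M) (v : H2) :
    ‖PM M v‖ ^ 2 = (inner ℂ v (PM M v) : ℂ).re := by
  have h1 : (inner ℂ (PM M v) (PM M v) : ℂ) = inner ℂ v (PM M v) := by
    rw [PM_symm, PM_fix (h.adj_PM v)]
  rw [← h1, inner_self_eq_norm_sq_to_K]
  norm_cast

lemma PM_norm_sq' (h : MulOp θ M) (v : H2) : ‖PM M v‖ ^ 2 = ‖v‖ ^ 2 - ‖M.adjoint v‖ ^ 2 := by
  rw [h.PM_norm_sq, PM_re]

lemma PM_norm_le (h : MulOp θ M) (v : H2) : ‖PM M v‖ ≤ ‖v‖ := by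
  have h1 := h.PM_norm_sq' v
  have h2 : ‖PM M v‖ ^ 2 ≤ ‖v‖ ^ 2 := by
    rw [h1]; have := sq_nonneg ‖M.adjoint v‖; linarith
  exact (sq_le_sq₀ (norm_nonneg _) (norm_nonneg _)).1 h2

lemma ker_PM (h : MulOp θ M) {z w : ℂ × ℂ} (hz : z ∈ bidisk) (hw : w ∈ bidisk) :
    (inner ℂ (sz z) (PM M (sz w)) : ℂ) = (1 - θ z * conj (θ w)) * ev (sz w) z := by
  rw [PM_apply, h.adj_sz hw, map_smul, inner_sub_right, inner_smul_right, inner_sz _ hz,
    inner_sz _ hz, h.ev_eq _ _ hz]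
  ring

/-- functions dominated by the kernel of the model space belong to it -/
lemma mem_of_dom (h : MulOp θ M) {C : ℝ} {f : H2}
    (hp : PosKer fun z w => (C : ℂ) * inner ℂ (sz z) (PM M (sz w)) - ev f z * conj (ev f w)) :
    M.adjoint f = 0 := by
  have h1 := aron hp (M (M.adjoint f))
  have h2 : PM M (M (M.adjoint f)) = 0 := by rw [PM_apply, h.adj_mul, sub_self]
  rw [h2, inner_zero_right, Complex.zero_re, mul_zero] at h1
  have h3 : (inner ℂ (M (M.adjoint f)) f : ℂ) = ((‖M.adjoint f‖ ^ 2 : ℝ) : ℂ) := by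
    rw [← ContinuousLinearMap.adjoint_inner_right, inner_self_eq_norm_sq_to_K]
    norm_cast
  rw [h3, Complex.norm_real] at h1
  have h4 : ‖M.adjoint f‖ ^ 2 = 0 := by
    have h5 : ‖‖M.adjoint f‖ ^ 2‖ = 0 := by
      have := norm_nonneg (‖M.adjoint f‖ ^ 2)
      nlinarith
    exact norm_eq_zero.1 h5
  exact norm_eq_zero.1 (pow_eq_zero_iff two_ne_zero |>.1 h4)

end MulOp

/-! ### asymptotics -/

lemma W_apply (i : ℕ × ℕ) (f : H2) (m : ℕ × ℕ) : W i f (i + m) = f m := by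
  have h1 : ∀ (k : ℕ) (f : H2) (m : ℕ × ℕ), (Z1 ^ k) f (m.1 + k, m.2) = f m := by
    intro k
    induction k with
    | zero => intro f m; simp
    | succ k ih =>
      intro f m
      rw [pow_succ', mul_apply_eq_comp]
      exact (Z1_e1 ((Z1 ^ k) f) (m.1 + k, m.2)).trans (ih f m)
  have h2 : ∀ (k : ℕ) (f : H2) (m : ℕ × ℕ), (Z2 ^ k) f (m.1, m.2 + k) = f m := by
    intro k
    induction k with
    | zero => intro f m; simp
    | succ k ih =>
      intro f m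
      rw [pow_succ', mul_apply_eq_comp]
      exact (Z2_e2 ((Z2 ^ k) f) (m.1, m.2 + k)).trans (ih f m)
  have h3 : i + m = ((m.1, m.2 + i.2).1 + i.1, (m.1, m.2 + i.2).2) :=
    Prod.ext (by simp [add_comm]) (by simp [add_comm])
  rw [W, mul_apply_eq_comp, h3, h1, h2]

lemma W_E (i j : ℕ × ℕ) : W i (E j) = E (i + j) := by
  rw [← sub_eq_zero]
  refine ev_inj _ fun z hz => ?_
  rw [ev_sub _ _ hz, ev_W _ _ hz, ev_E, ev_E, mon, mon, mon, Prod.fst_add, Prod.snd_add, pow_add,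
    pow_add]
  ring

lemma MulOp.comm_W {θ : ℂ × ℂ → ℂ} {M : H2 →L[ℂ] H2} (h : MulOp θ M) (i : ℕ × ℕ) (f : H2) :
    M (W i f) = W i (M f) := by
  rw [← sub_eq_zero]
  refine ev_inj _ fun z hz => ?_
  rw [ev_sub _ _ hz, h.ev_eq _ _ hz, ev_W _ _ hz, ev_W _ _ hz, h.ev_eq _ _ hz]
  ring

lemma W_norm (i : ℕ × ℕ) (f : H2) : ‖W i f‖ = ‖f‖ := by
  have h1 : ∀ (k : ℕ) (f : H2), ‖(Z1 ^ k) f‖ = ‖f‖ := by
    intro k
    induction k with
    | zero => intro f; simp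
    | succ k ih => intro f; rw [pow_succ', mul_apply_eq_comp, Z1_norm_eq, ih]
  have h2 : ∀ (k : ℕ) (f : H2), ‖(Z2 ^ k) f‖ = ‖f‖ := by
    intro k
    induction k with
    | zero => intro f; simp
    | succ k ih => intro f; rw [pow_succ', mul_apply_eq_comp, Z2_norm_eq, ih]
  rw [W, mul_apply_eq_comp, h1, h2]

lemma E_norm (n : ℕ × ℕ) : ‖E n‖ = 1 := by
  unfold E
  rw [lp.norm_single (by norm_num)]
  simp

/-- the adjoint of `M` applied to high monomials -/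
lemma MulOp.adj_E_ge {θ : ℂ × ℂ → ℂ} {M : H2 →L[ℂ] H2} (h : MulOp θ M) (F : Finset (ℕ × ℕ))
    {n : ℕ × ℕ} (hn : ∀ m ∈ F, m ≤ n) :
    ∑ m ∈ F, ‖M (E 0) m‖ ^ 2 ≤ ‖M.adjoint (E n)‖ ^ 2 := by
  have h1 : ∀ m ∈ F, ‖M (E 0) m‖ ^ 2 = ‖M.adjoint (E n) (n - m)‖ ^ 2 := by
    intro m hm
    have e1 : n - m + m = n := tsub_add_cancel_of_le (hn m hm)
    have h2 : M.adjoint (E n) (n - m) = conj (M (E 0) m) := by
      rw [← inner_E, ContinuousLinearMap.adjoint_inner_right, ← inner_conj_symm, inner_E]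
      have h3 : M (E (n - m)) = W (n - m) (M (E 0)) := by
        rw [← h.comm_W, W_E, add_zero]
      rw [h3]
      congr 1
      have h4 := W_apply (n - m) (M (E 0)) m
      rw [e1] at h4
      exact h4
    rw [h2, RCLike.norm_conj]
  rw [Finset.sum_congr rfl h1, norm_sq]
  have hinj : Set.InjOn (fun m : ℕ × ℕ => n - m) F := by
    intro a ha b hb hab
    have ha' := hn a ha
    have hb' := hn b hb
    simp only at hab
    have h5 : n - (n - a) = a := tsub_tsub_cancel_of_le ha'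
    have h6 : n - (n - b) = b := tsub_tsub_cancel_of_le hb'
    rw [← h5, ← h6, hab]
  rw [← Finset.sum_image (f := fun k => ‖M.adjoint (E n) k‖ ^ 2) hinj]
  exact (summable_sq _).sum_le_tsum _ fun _ _ => by positivity

lemma MulOp.PM_E {θ : ℂ × ℂ → ℂ} {M : H2 →L[ℂ] H2} (h : MulOp θ M) (j : ℕ × ℕ) :
    Tendsto (fun m : ℕ => PM M (W (m, m) (E j))) atTop (𝓝 0) := by
  rw [tendsto_zero_iff_norm_tendsto_zero]
  have h0 : ‖M (E 0)‖ ^ 2 = 1 := by rw [h.iso, E_norm]; norm_num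
  have hs := (summable_sq (M (E 0))).hasSum
  rw [← norm_sq, h0] at hs
  have key : Tendsto (fun m : ℕ => ‖PM M (W (m, m) (E j))‖ ^ 2) atTop (𝓝 0) := by
    rw [Metric.tendsto_atTop]
    intro ε hε
    obtain ⟨F, hF⟩ := (hs.eventually (lt_mem_nhds (show 1 - ε < 1 by linarith))).exists
    refine ⟨F.sup fun m => max m.1 m.2, fun m hm => ?_⟩
    rw [Real.dist_eq, sub_zero, abs_of_nonneg (by positivity), h.PM_norm_sq', W_norm, E_norm, W_E]
    have h2 := h.adj_E_ge F (n := (m, m) + j) (fun k hk => by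
      have h3 : max k.1 k.2 ≤ m := (Finset.le_sup (f := fun m : ℕ × ℕ => max m.1 m.2) hk).trans hm
      exact ⟨by simp only [Prod.fst_add]; omega, by simp only [Prod.snd_add]; omega⟩)
    linarith
  have h1 := key.sqrt
  simp only [Real.sqrt_zero, Real.sqrt_sq (norm_nonneg _)] at h1
  exact h1

lemma MulOp.PM_tendsto {θ : ℂ × ℂ → ℂ} {M : H2 →L[ℂ] H2} (h : MulOp θ M) (f : H2) :
    Tendsto (fun m : ℕ => PM M (W (m, m) f)) atTop (𝓝 0) := by
  have h1 : ∀ x : ℕ × ℕ →₀ ℂ, Tendsto (fun m : ℕ => PM M (W (m, m) (el x))) atTop (𝓝 0) := by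
    intro x
    have h2 : ∀ m : ℕ, PM M (W (m, m) (el x)) = ∑ n ∈ x.support, x n • PM M (W (m, m) (E n)) := by
      intro m
      unfold el Finsupp.sum
      rw [map_sum, map_sum]
      refine Finset.sum_congr rfl fun n _ => ?_
      rw [map_smul, map_smul]
    simp only [h2]
    have h3 := tendsto_finsetSum (f := fun n (m : ℕ) => x n • PM M (W (m, m) (E n))) x.support
      (a := fun _ => 0) (x := atTop) (fun n _ => by
        simpa using (h.PM_E n).const_smul (x n))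
    simpa using h3
  rw [Metric.tendsto_atTop]
  intro ε hε
  obtain ⟨F, hF⟩ := ((el_dense f).eventually (Metric.ball_mem_nhds f (half_pos hε))).exists
  rw [dist_eq_norm] at hF
  obtain ⟨N, hN⟩ := (Metric.tendsto_atTop.1 (h1 (Finsupp.indicator F fun n _ => f n))) (ε / 2)
    (half_pos hε)
  refine ⟨N, fun m hm => ?_⟩
  have h2 := hN m hm
  rw [dist_zero_right] at h2 ⊢
  set g := el (Finsupp.indicator F fun n _ => f n) with hg
  have h3 : PM M (W (m, m) f) = PM M (W (m, m) g) - PM M (W (m, m) (g - f)) := by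
    rw [map_sub, map_sub]; abel
  calc ‖PM M (W (m, m) f)‖ ≤ ‖PM M (W (m, m) g)‖ + ‖PM M (W (m, m) (g - f))‖ := by
        rw [h3]; exact norm_sub_le _ _
    _ ≤ ‖PM M (W (m, m) g)‖ + ‖g - f‖ := by
        gcongr
        exact (h.PM_norm_le _).trans (W_norm _ _).le
    _ < ε := by linarith

end Pool.Agent.K4H48.Agl
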