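import Pool.Agent.K4H48.Agl.Tay

/-! Parseval's identity on the torus. -/

set_option autoImplicit false

namespace Pool.Agent.K4H48.Agl

open Pool.Agent.R285.Ell2 Pool.Agent.R285.BiHardy Filter Topology MeasureTheory
open scoped ComplexConjugate Real

/-- the points of the torus -/
noncomputable def tor (p : ℝ × ℝ) : ℂ × ℂ :=
  (Complex.exp (Complex.I * p.1), Complex.exp (Complex.I * p.2))

/-- Lebesgue measure on a fundamental square -/
noncomputable def sq : Measure (ℝ × ℝ) :=
  (volume.restrict (Set.Ioc 0 (2 * π))).prod (volume.restrict (Set.Ioc 0 (2 * π)))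

instance : IsFiniteMeasure sq := by unfold sq; infer_instance

lemma sq_ae {P : ℝ × ℝ → Prop} (h : ∀ᵐ p : ℝ × ℝ, P p) : ∀ᵐ p ∂sq, P p := by
  unfold sq
  rw [Measure.prod_restrict]
  exact ae_restrict_of_ae h

lemma tor_cont : Continuous tor := by unfold tor; fun_prop

lemma norm_exp_I (s : ℝ) : ‖Complex.exp (Complex.I * s)‖ = 1 := by
  rw [mul_comm]; exact Complex.norm_exp_ofReal_mul_I s

lemma mon_tor (n : ℕ × ℕ) (p : ℝ × ℝ) : ‖mon n (tor p)‖ = 1 := by
  rw [mon_norm]
  simp only [tor, norm_exp_I, one_pow, mul_one]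

lemma mon_cont (n : ℕ × ℕ) : Continuous (mon n) := by unfold mon; fun_prop

lemma int1 (m n : ℕ) : ∫ s in Set.Ioc 0 (2 * π), Complex.exp (Complex.I * (s : ℝ)) ^ m *
    conj (Complex.exp (Complex.I * (s : ℝ)) ^ n) = if m = n then ((2 * π : ℝ) : ℂ) else 0 := by
  rw [← intervalIntegral.integral_of_le (by positivity)]
  have h1 : ∀ s : ℝ, Complex.exp (Complex.I * (s : ℝ)) ^ m *
      conj (Complex.exp (Complex.I * (s : ℝ)) ^ n) =
      Complex.exp ((((m : ℂ) - n) * Complex.I) * s) := by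
    intro s
    rw [map_pow, ← Complex.exp_conj, ← Complex.exp_nat_mul, ← Complex.exp_nat_mul,
      ← Complex.exp_add, map_mul, Complex.conj_I, Complex.conj_ofReal]
    congr 1
    ring
  simp only [h1]
  split_ifs with h
  · subst h
    simp
  · have h2 : ((m : ℂ) - n) * Complex.I ≠ 0 := by
      refine mul_ne_zero (sub_ne_zero.2 ?_) Complex.I_ne_zero
      exact_mod_cast h
    rw [integral_exp_mul_complex h2]
    have h3 : Complex.exp (((m : ℂ) - n) * Complex.I * ((2 * π : ℝ) : ℂ)) = 1 := by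
      have h4 : ((m : ℂ) - n) * Complex.I * ((2 * π : ℝ) : ℂ) =
          (((m : ℤ) - (n : ℤ) : ℤ) : ℂ) * (2 * π * Complex.I) := by
        push_cast
        ring
      rw [h4]
      exact Complex.exp_int_mul_two_pi_mul_I _
    rw [h3]
    simp

lemma int2 (m n : ℕ × ℕ) : ∫ p, mon m (tor p) * conj (mon n (tor p)) ∂sq =
    if m = n then ((2 * π : ℝ) : ℂ) ^ 2 else 0 := by
  have h1 : ∀ p : ℝ × ℝ, mon m (tor p) * conj (mon n (tor p)) =
      (Complex.exp (Complex.I * (p.1 : ℝ)) ^ m.1 * conj (Complex.exp (Complex.I * (p.1 : ℝ)) ^ n.1))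
      * (Complex.exp (Complex.I * (p.2 : ℝ)) ^ m.2 *
        conj (Complex.exp (Complex.I * (p.2 : ℝ)) ^ n.2)) := by
    intro p
    simp only [mon, tor, map_mul]
    ring
  simp only [h1]
  unfold sq
  rw [integral_prod_mul (fun s : ℝ => Complex.exp (Complex.I * (s : ℝ)) ^ m.1 *
      conj (Complex.exp (Complex.I * (s : ℝ)) ^ n.1)) (fun s : ℝ =>
      Complex.exp (Complex.I * (s : ℝ)) ^ m.2 * conj (Complex.exp (Complex.I * (s : ℝ)) ^ n.2)),
    int1, int1]
  by_cases h : m = n
  · subst h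
    simp
    ring
  · rw [if_neg h]
    rw [Prod.ext_iff, not_and_or] at h
    rcases h with h | h <;> simp [h]

/-- the sum of an absolutely convergent series on the torus -/
noncomputable def tser (a : ℕ × ℕ → ℂ) (p : ℝ × ℝ) : ℂ := ∑' n, a n * mon n (tor p)

lemma tser_summable {a : ℕ × ℕ → ℂ} (ha : Summable fun n => ‖a n‖) (p : ℝ × ℝ) :
    Summable fun n => a n * mon n (tor p) := by
  refine Summable.of_norm_bounded ha fun n => ?_
  rw [norm_mul, mon_tor, mul_one]

lemma tser_cont {a : ℕ × ℕ → ℂ} (ha : Summable fun n => ‖a n‖) : Continuous (tser a) := by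
  refine continuous_tsum (fun n => ?_) ha fun n p => ?_
  · exact continuous_const.mul ((mon_cont n).comp tor_cont)
  · rw [norm_mul, mon_tor, mul_one]

lemma tser_norm {a : ℕ × ℕ → ℂ} (ha : Summable fun n => ‖a n‖) (p : ℝ × ℝ) :
    ‖tser a p‖ ≤ ∑' n, ‖a n‖ := by
  refine tsum_of_norm_bounded ha.hasSum fun n => ?_
  rw [norm_mul, mon_tor, mul_one]

lemma int_bdd {f : ℝ × ℝ → ℂ} (hf : Continuous f) {C : ℝ} (hC : ∀ p, ‖f p‖ ≤ C) :
    Integrable f sq :=
  Integrable.of_bound hf.aestronglyMeasurable C (Filter.Eventually.of_forall hC)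

lemma int_tser {a : ℕ × ℕ → ℂ} (ha : Summable fun n => ‖a n‖) (m : ℕ × ℕ) :
    ∫ p, tser a p * conj (mon m (tor p)) ∂sq = ((2 * π : ℝ) : ℂ) ^ 2 * a m := by
  have hc : ∀ n, Continuous fun p : ℝ × ℝ => a n * mon n (tor p) * conj (mon m (tor p)) := by
    intro n
    exact (continuous_const.mul ((mon_cont n).comp tor_cont)).mul
      (Complex.continuous_conj.comp ((mon_cont m).comp tor_cont))
  have hn : ∀ n (p : ℝ × ℝ), ‖a n * mon n (tor p) * conj (mon m (tor p))‖ = ‖a n‖ := by
    intro n p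
    rw [norm_mul, norm_mul, mon_tor, RCLike.norm_conj, mon_tor, mul_one, mul_one]
  have h1 := hasSum_integral_of_summable_integral_norm (μ := sq)
    (F := fun n p => a n * mon n (tor p) * conj (mon m (tor p)))
    (fun n => int_bdd (hc n) (fun p => (hn n p).le)) (by
      simp only [hn, integral_const, smul_eq_mul]
      exact ha.mul_left _)
  have h2 : ∀ p, ∑' n, a n * mon n (tor p) * conj (mon m (tor p)) =
      tser a p * conj (mon m (tor p)) := by
    intro p
    rw [tser, tsum_mul_right]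
  simp only [h2] at h1
  have h3 : ∀ n, ∫ p, a n * mon n (tor p) * conj (mon m (tor p)) ∂sq =
      if n = m then ((2 * π : ℝ) : ℂ) ^ 2 * a m else 0 := by
    intro n
    simp only [mul_assoc (a n)]
    rw [integral_const_mul, int2]
    split_ifs with h
    · subst h
      ring
    · simp
  simp only [h3] at h1
  exact h1.unique (hasSum_ite_eq m _)

theorem parseval {a : ℕ × ℕ → ℂ} (ha : Summable fun n => ‖a n‖) :
    ∫ p, ‖tser a p‖ ^ 2 ∂sq = (2 * π) ^ 2 * ∑' n, ‖a n‖ ^ 2 := by
  have hca := tser_cont ha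
  have hc : ∀ m, Continuous fun p : ℝ × ℝ => conj (a m) * (tser a p * conj (mon m (tor p))) := by
    intro m
    exact continuous_const.mul (hca.mul
      (Complex.continuous_conj.comp ((mon_cont m).comp tor_cont)))
  have hn : ∀ m (p : ℝ × ℝ), ‖conj (a m) * (tser a p * conj (mon m (tor p)))‖ =
      ‖a m‖ * ‖tser a p‖ := by
    intro m p
    rw [norm_mul, norm_mul, RCLike.norm_conj, RCLike.norm_conj, mon_tor, mul_one]
  have h1 := hasSum_integral_of_summable_integral_norm (μ := sq)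
    (F := fun m p => conj (a m) * (tser a p * conj (mon m (tor p))))
    (fun m => int_bdd (C := ‖a m‖ * ∑' n, ‖a n‖) (hc m) (fun p => by
      rw [hn]
      exact mul_le_mul_of_nonneg_left (tser_norm ha p) (norm_nonneg _))) (by
      simp only [hn, integral_const_mul]
      exact ha.mul_right _)
  have h2 : ∀ p, ∑' m, conj (a m) * (tser a p * conj (mon m (tor p))) =
      ((‖tser a p‖ ^ 2 : ℝ) : ℂ) := by
    intro p
    have h3 : ∀ m, conj (a m) * (tser a p * conj (mon m (tor p))) =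
        tser a p * conj (a m * mon m (tor p)) := by
      intro m
      rw [map_mul]
      ring
    simp only [h3]
    rw [tsum_mul_left, ← Complex.conj_tsum, ← tser, RCLike.mul_conj]
    norm_cast
  simp only [h2] at h1
  have h3 : ∀ m, ∫ p, conj (a m) * (tser a p * conj (mon m (tor p))) ∂sq =
      (((2 * π) ^ 2 * ‖a m‖ ^ 2 : ℝ) : ℂ) := by
    intro m
    rw [integral_const_mul, int_tser ha]
    have h4 : conj (a m) * a m = ((‖a m‖ ^ 2 : ℝ) : ℂ) := by
      rw [mul_comm, RCLike.mul_conj]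
      norm_cast
    push_cast at h4 ⊢
    linear_combination ((2 * π : ℂ)) ^ 2 * h4
  simp only [h3] at h1
  have h5 : ∫ p, ((‖tser a p‖ ^ 2 : ℝ) : ℂ) ∂sq = ((∫ p, ‖tser a p‖ ^ 2 ∂sq : ℝ) : ℂ) :=
    integral_ofReal
  rw [h5] at h1
  have h6 := (Complex.hasSum_ofReal.1 h1).tsum_eq
  rw [← h6, tsum_mul_left]

end Pool.Agent.K4H48.Agl
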