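import Pool.Agent.K4H48.Agl.Kern
import Pool.Agent.Sq58.Holo

/-! Power series of bounded holomorphic functions on the bidisk. -/

set_option autoImplicit false

namespace Pool.Agent.K4H48.Agl

open Pool.Agent.R285.Ell2 Pool.Agent.R285.BiHardy Filter Topology
open scoped ComplexConjugate

lemma tay1 {f : ℂ → ℂ} {C : ℝ} (hf : DifferentiableOn ℂ f (Metric.ball 0 1))
    (hC : ∀ z ∈ Metric.ball (0 : ℂ) 1, ‖f z‖ ≤ C) :
    (∀ n, ‖((n.factorial : ℂ))⁻¹ * iteratedDeriv n f 0‖ ≤ C) ∧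
    ∀ z ∈ Metric.ball (0 : ℂ) 1,
      HasSum (fun n : ℕ => (((n.factorial : ℂ))⁻¹ * iteratedDeriv n f 0) * z ^ n) (f z) := by
  constructor
  · intro n
    have hn : (0 : ℝ) < n.factorial := by exact_mod_cast n.factorial_pos
    have key : ∀ r : ℝ, 0 < r → r < 1 →
        ‖((n.factorial : ℂ))⁻¹ * iteratedDeriv n f 0‖ ≤ C / r ^ n := by
      intro r hr hr1
      have h1 : DiffContOnCl ℂ f (Metric.ball 0 r) := by
        refine (hf.mono ?_).diffContOnCl
        rw [closure_ball _ hr.ne']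
        exact Metric.closedBall_subset_ball hr1
      have h2 := Complex.norm_iteratedDeriv_le_of_forall_mem_sphere_norm_le (C := C) n hr h1
        (fun z hz => hC z (by
          rw [mem_sphere_iff_norm, sub_zero] at hz
          rw [Metric.mem_ball, dist_zero_right, hz]
          exact hr1))
      rw [norm_mul, norm_inv, Complex.norm_natCast]
      calc (n.factorial : ℝ)⁻¹ * ‖iteratedDeriv n f 0‖
          ≤ (n.factorial : ℝ)⁻¹ * (n.factorial * C / r ^ n) := by gcongr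
        _ = C / r ^ n := by field_simp
    have hlim : Tendsto (fun r : ℝ => C / r ^ n) (𝓝[<] 1) (𝓝 (C / 1 ^ n)) := by
      have hc : ContinuousAt (fun r : ℝ => C / r ^ n) 1 := by
        refine ContinuousAt.div continuousAt_const (by fun_prop) (by simp)
      exact hc.tendsto.mono_left nhdsWithin_le_nhds
    rw [one_pow, div_one] at hlim
    refine ge_of_tendsto hlim ?_
    have h0 : ∀ᶠ r : ℝ in 𝓝[<] 1, 0 < r :=
      nhdsWithin_le_nhds (lt_mem_nhds (by norm_num : (0:ℝ) < 1))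
    filter_upwards [h0, self_mem_nhdsWithin] with r h1 h2
    exact key r h1 h2
  · intro z hz
    have h := Complex.hasSum_taylorSeries_on_ball hf hz
    simp only [sub_zero, smul_eq_mul] at h
    refine h.congr_fun fun n => ?_
    ring

/-- iterated partial derivative in the first variable -/
noncomputable def D1 (θ : ℂ × ℂ → ℂ) : ℕ → ℂ × ℂ → ℂ
  | 0 => θ
  | n + 1 => fun z => fderiv ℂ (D1 θ n) z (1, 0)

lemma isOpen_bidisk : IsOpen bidisk := by
  have : bidisk = Metric.ball (0 : ℂ) 1 ×ˢ Metric.ball (0 : ℂ) 1 := by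
    ext z
    simp [bidisk]
  rw [this]
  exact Metric.isOpen_ball.prod Metric.isOpen_ball

lemma mem_bidisk {a b : ℂ} : (a, b) ∈ bidisk ↔ ‖a‖ < 1 ∧ ‖b‖ < 1 := Iff.rfl

lemma D1_diff {θ : ℂ × ℂ → ℂ} (hθ : DifferentiableOn ℂ θ bidisk) (n : ℕ) :
    DifferentiableOn ℂ (D1 θ n) bidisk := by
  induction n with
  | zero => exact hθ
  | succ n ih => exact Sq58.Holo.differentiableOn_fderiv_apply isOpen_bidisk ih _

lemma D1_eq {θ : ℂ × ℂ → ℂ} (hθ : DifferentiableOn ℂ θ bidisk) (n : ℕ) {a b : ℂ}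
    (h : (a, b) ∈ bidisk) : iteratedDeriv n (fun z => θ (z, b)) a = D1 θ n (a, b) := by
  induction n generalizing a with
  | zero => simp [D1]
  | succ n ih =>
    rw [iteratedDeriv_succ]
    have h1 : iteratedDeriv n (fun z => θ (z, b)) =ᶠ[𝓝 a] fun z => D1 θ n (z, b) := by
      have h2 : ∀ᶠ z in 𝓝 a, (z, b) ∈ bidisk := by
        have hc : ContinuousAt (fun z : ℂ => (z, b)) a := by fun_prop
        exact hc.eventually (isOpen_bidisk.mem_nhds h)
      filter_upwards [h2] with z hz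
      exact ih hz
    rw [h1.deriv_eq]
    have h3 : DifferentiableAt ℂ (D1 θ n) (a, b) :=
      (D1_diff hθ n).differentiableAt (isOpen_bidisk.mem_nhds h)
    have h4 : HasDerivAt (fun z : ℂ => (z, b)) ((1 : ℂ), (0 : ℂ)) a :=
      (hasDerivAt_id a).prodMk (hasDerivAt_const a b)
    have h5 := h3.hasFDerivAt.comp_hasDerivAt a h4
    exact h5.deriv

lemma slice1 {θ : ℂ × ℂ → ℂ} (hθ : DifferentiableOn ℂ θ bidisk) {b : ℂ} (hb : ‖b‖ < 1) :
    DifferentiableOn ℂ (fun z => θ (z, b)) (Metric.ball 0 1) := by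
  have h : DifferentiableOn ℂ (fun z : ℂ => (z, b)) (Metric.ball 0 1) := by fun_prop
  refine hθ.comp h fun z hz => ?_
  rw [Metric.mem_ball, dist_zero_right] at hz
  exact ⟨hz, hb⟩

lemma slice2 {θ : ℂ × ℂ → ℂ} (hθ : DifferentiableOn ℂ θ bidisk) {a : ℂ} (ha : ‖a‖ < 1) :
    DifferentiableOn ℂ (fun z => θ (a, z)) (Metric.ball 0 1) := by
  have h : DifferentiableOn ℂ (fun z : ℂ => (a, z)) (Metric.ball 0 1) := by fun_prop
  refine hθ.comp h fun z hz => ?_
  rw [Metric.mem_ball, dist_zero_right] at hz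
  exact ⟨ha, hz⟩

/-- the monomials -/
def mon (n : ℕ × ℕ) (z : ℂ × ℂ) : ℂ := z.1 ^ n.1 * z.2 ^ n.2

lemma mon_norm (n : ℕ × ℕ) (z : ℂ × ℂ) : ‖mon n z‖ = ‖z.1‖ ^ n.1 * ‖z.2‖ ^ n.2 := by
  rw [mon, norm_mul, norm_pow, norm_pow]

lemma mon_summable {z : ℂ × ℂ} (hz : z ∈ bidisk) : Summable fun n : ℕ × ℕ => ‖mon n z‖ := by
  have h := (summable_geometric_of_lt_one (norm_nonneg z.1) hz.1).mul_of_nonneg
    (summable_geometric_of_lt_one (norm_nonneg z.2) hz.2) (fun n => by positivity)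
    (fun n => by positivity)
  refine h.congr fun n => ?_
  rw [mon_norm]

/-- bounded holomorphic functions on the bidisk are sums of power series -/
theorem tay2 {θ : ℂ × ℂ → ℂ} {C : ℝ} (hθ : DifferentiableOn ℂ θ bidisk)
    (hC : ∀ z ∈ bidisk, ‖θ z‖ ≤ C) : ∃ c : ℕ × ℕ → ℂ, (∀ n, ‖c n‖ ≤ C) ∧
    ∀ z ∈ bidisk, HasSum (fun n => c n * mon n z) (θ z) := by
  set A : ℕ → ℂ → ℂ := fun m b => ((m.factorial : ℂ))⁻¹ * iteratedDeriv m (fun z => θ (z, b)) 0
    with hA
  have hA1 : ∀ m, ∀ b ∈ Metric.ball (0 : ℂ) 1, ‖A m b‖ ≤ C := by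
    intro m b hb
    rw [Metric.mem_ball, dist_zero_right] at hb
    refine (tay1 (slice1 hθ hb) (fun z hz => ?_)).1 m
    rw [Metric.mem_ball, dist_zero_right] at hz
    exact hC _ ⟨hz, hb⟩
  have hA2 : ∀ b ∈ Metric.ball (0 : ℂ) 1, ∀ a ∈ Metric.ball (0 : ℂ) 1,
      HasSum (fun m => A m b * a ^ m) (θ (a, b)) := by
    intro b hb a ha
    rw [Metric.mem_ball, dist_zero_right] at hb
    refine (tay1 (C := C) (slice1 hθ hb) (fun z hz => ?_)).2 a ha
    rw [Metric.mem_ball, dist_zero_right] at hz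
    exact hC _ ⟨hz, hb⟩
  have hA3 : ∀ m, DifferentiableOn ℂ (A m) (Metric.ball 0 1) := by
    intro m
    have h1 := (slice2 (D1_diff hθ m) (a := 0) (by simp)).const_mul ((m.factorial : ℂ))⁻¹
    refine h1.congr fun b hb => ?_
    rw [Metric.mem_ball, dist_zero_right] at hb
    rw [hA]
    simp only
    rw [D1_eq hθ m (show ((0 : ℂ), b) ∈ bidisk from ⟨by simp, hb⟩)]
  refine ⟨fun n => ((n.2.factorial : ℂ))⁻¹ * iteratedDeriv n.2 (A n.1) 0, fun n =>
    (tay1 (hA3 n.1) (hA1 n.1)).1 n.2, fun z hz => ?_⟩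
  have hsum : Summable fun n : ℕ × ℕ =>
      (((n.2.factorial : ℂ))⁻¹ * iteratedDeriv n.2 (A n.1) 0) * mon n z := by
    refine Summable.of_norm_bounded ((mon_summable hz).mul_left C) fun n => ?_
    rw [norm_mul]
    exact mul_le_mul_of_nonneg_right ((tay1 (hA3 n.1) (hA1 n.1)).1 n.2) (norm_nonneg _)
  have hz1 : z.1 ∈ Metric.ball (0 : ℂ) 1 := by rw [Metric.mem_ball, dist_zero_right]; exact hz.1
  have hz2 : z.2 ∈ Metric.ball (0 : ℂ) 1 := by rw [Metric.mem_ball, dist_zero_right]; exact hz.2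
  have h1 := hsum.hasSum
  have h2 := h1.prod_fiberwise (g := fun m => A m z.2 * z.1 ^ m) (fun m => by
    have h3 := ((tay1 (hA3 m) (hA1 m)).2 z.2 hz2).mul_right (z.1 ^ m)
    refine h3.congr_fun fun n => ?_
    simp only [mon]
    ring)
  have h3 := h2.unique (hA2 z.2 hz2 z.1 hz1)
  rw [h3] at h1
  exact h1

end Pool.Agent.K4H48.Agl
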